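import Pool.Agent.N86.S6.Count

/-!
# Parity and divisibility conditions for designs on the projective line
-/

set_option autoImplicit false

namespace Pool.Agent.N86.S6

open Finset Matrix

section general
variable {X : Type*} [Fintype X] [DecidableEq X] {k lam : ℕ} {𝓑 : Finset (Finset X)}

omit [Fintype X] in
/-- a set which is invariant under an involution without fixed points in it has an even number of
elements -/
lemma even_of_free (τ : Equiv.Perm X) (hτ : ∀ x, τ (τ x) = x) (B : Finset X)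
    (hB : B.image τ = B) (hfree : ∀ x ∈ B, τ x ≠ x) : Even B.card := by
  rw [← Nat.not_odd_iff_even, odd_fixed B τ ?_ (fun a _ => hτ a)]
  · have : B.filter (fun a => τ a = a) = ∅ := by
      rw [Finset.filter_eq_empty_iff]
      exact fun x hx => hfree x hx
    rw [this, Finset.card_empty]
    decide
  · intro a ha
    rw [← hB]
    exact Finset.mem_image_of_mem τ ha

omit [Fintype X] in
lemma mem_of_inv {τ : Equiv.Perm X} {B : Finset X} (hB : B.image τ = B) {x : X} (hx : x ∈ B) :
    τ x ∈ B := by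
  rw [← hB]
  exact Finset.mem_image_of_mem τ hx

/-- a set on which a Klein four-group acts freely -/
lemma four_dvd_of_free (a b : Equiv.Perm X) (ha : ∀ x, a (a x) = x) (hb : ∀ x, b (b x) = x)
    (hab : ∀ x, a (b x) = b (a x)) (W : Finset X) (hWa : W.image a = W) (hWb : W.image b = W)
    (h1 : ∀ x ∈ W, a x ≠ x) (h2 : ∀ x ∈ W, b x ≠ x) (h3 : ∀ x ∈ W, a (b x) ≠ x) :
    4 ∣ W.card := by
  classical
  let T : Finset (Finset X) := (pairs a).filter (fun p => p ⊆ W)
  have hT : T ⊆ pairs a := Finset.filter_subset _ _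
  have hcard : W.card = 2 * T.card := by
    rw [← card_biUnion_pairs ha hT]
    congr 1
    ext x
    rw [Finset.mem_biUnion]
    constructor
    · intro hx
      refine ⟨{x, a x}, ?_, by simp⟩
      rw [Finset.mem_filter]
      refine ⟨mem_pairs.2 ⟨x, h1 x hx, rfl⟩, ?_⟩
      rw [Finset.insert_subset_iff, Finset.singleton_subset_iff]
      exact ⟨hx, mem_of_inv hWa hx⟩
    · rintro ⟨p, hp, hx⟩
      exact (Finset.mem_filter.1 hp).2 hx
  have heven : Even T.card := by
    rw [← Nat.not_odd_iff_even, odd_fixed T (fun p => p.image b) ?_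
      (fun p _ => image_image_inv b hb p)]
    · have : T.filter (fun p => p.image b = p) = ∅ := by
        rw [Finset.filter_eq_empty_iff]
        intro p hp hpb
        rw [Finset.mem_filter] at hp
        obtain ⟨x, hx, rfl⟩ := mem_pairs.1 hp.1
        have hxW : x ∈ W := hp.2 (by simp)
        have hbx : b x ∈ ({x, a x} : Finset X) := mem_of_inv hpb (by simp)
        rw [Finset.mem_insert, Finset.mem_singleton] at hbx
        rcases hbx with h | h
        · exact h2 x hxW h
        · apply h3 x hxW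
          rw [h, ha]
      rw [this, Finset.card_empty]
      decide
    · intro p hp
      rw [Finset.mem_filter] at hp ⊢
      obtain ⟨x, hx, rfl⟩ := mem_pairs.1 hp.1
      refine ⟨?_, ?_⟩
      · rw [mem_pairs]
        refine ⟨b x, ?_, ?_⟩
        · intro h
          rw [hab] at h
          exact hx (b.injective h)
        · rw [Finset.image_insert, Finset.image_singleton, hab]
      · rw [← hWb]
        exact Finset.image_subset_image hp.2
  obtain ⟨m, hm⟩ := heven
  exact ⟨m, by rw [hcard, hm]; ring⟩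

/-- two commuting involutory automorphisms and an invariant 6-set -/
lemma exists_inv_block_two {t : ℕ} (hD : IsDesign t k lam 𝓑) (hlam : Odd lam) (a b : Equiv.Perm X)
    (ha : ∀ x, a (a x) = x) (hb : ∀ x, b (b x) = x) (hab : ∀ x, a (b x) = b (a x))
    (hBa : ∀ B ∈ 𝓑, B.image a ∈ 𝓑) (hBb : ∀ B ∈ 𝓑, B.image b ∈ 𝓑) (S : Finset X)
    (hS : S.card = t) (hSa : S.image a = S) (hSb : S.image b = S) :
    ∃ B ∈ 𝓑, B.image a = B ∧ B.image b = B ∧ S ⊆ B := by
  have h1 := hD.2 S hS
  have h2 : Odd (𝓑.filter (fun B => S ⊆ B)).card := by rw [h1]; exact hlam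
  have hmem : ∀ τ : Equiv.Perm X, (∀ B ∈ 𝓑, B.image τ ∈ 𝓑) → S.image τ = S →
      ∀ B ∈ 𝓑.filter (fun B => S ⊆ B), B.image τ ∈ 𝓑.filter (fun B => S ⊆ B) := by
    intro τ hB hSτ B hB'
    rw [Finset.mem_filter] at hB' ⊢
    refine ⟨hB B hB'.1, ?_⟩
    rw [← hSτ]
    exact Finset.image_subset_image hB'.2
  rw [odd_fixed _ (fun B => B.image a) (hmem a hBa hSa) (fun B _ => image_image_inv a ha B)] at h2
  rw [odd_fixed _ (fun B => B.image b) ?_ (fun B _ => image_image_inv b hb B)] at h2
  · obtain ⟨B, hB1⟩ := Finset.card_pos.1 h2.pos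
    rw [Finset.mem_filter, Finset.mem_filter, Finset.mem_filter] at hB1
    exact ⟨B, hB1.1.1.1, hB1.1.2, hB1.2, hB1.1.1.2⟩
  · intro B hB
    rw [Finset.mem_filter] at hB ⊢
    refine ⟨hmem b hBb hSb B hB.1, ?_⟩
    rw [Finset.image_image]
    have h3 : (a ∘ b : X → X) = b ∘ a := funext hab
    rw [h3, ← Finset.image_image, hB.2]

/-- the blocks through an invariant set `Q` of four points partition the other 2-cycles -/
theorem dvd_of_four (hD : IsDesign 6 k 1 𝓑) (τ : Equiv.Perm X) (hτ : ∀ x, τ (τ x) = x)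
    (hB : ∀ B ∈ 𝓑, B.image τ ∈ 𝓑) (Q : Finset X) (hQ : Q.card = 4) (hQτ : Q.image τ = Q)
    (Y : Finset X) (hY : ∀ x, x ∈ Y ↔ x ∉ Q ∧ τ x ≠ x)
    (hfix : ∀ B ∈ 𝓑, B.image τ = B → Q ⊆ B → ∀ x ∈ B, x ∉ Q → τ x ≠ x) :
    k - 4 ∣ Y.card := by
  classical
  have hex : ∀ x, ∃ C : Finset X, x ∈ Y → C ∈ 𝓑 ∧ insert x (insert (τ x) Q) ⊆ C := by
    intro x
    by_cases hx : x ∈ Y
    · rw [hY] at hx
      have h1 : τ x ∉ Q := fun h => hx.1 (by rw [← hτ x]; exact mem_of_inv hQτ h)
      have h2 : x ∉ insert (τ x) Q := by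
        rw [Finset.mem_insert]
        rintro (h | h)
        · exact hx.2 h.symm
        · exact hx.1 h
      have hc : (insert x (insert (τ x) Q)).card = 6 := by
        rw [Finset.card_insert_of_notMem h2, Finset.card_insert_of_notMem h1, hQ]
      obtain ⟨C, h3, h4⟩ := block_exists hD hc
      exact ⟨C, fun _ => ⟨h3, h4⟩⟩
    · exact ⟨∅, fun h => absurd h hx⟩
  choose C hC using hex
  have hcard6 : ∀ x ∈ Y, (insert x (insert (τ x) Q)).card = 6 := by
    intro x hx
    rw [hY] at hx
    have h1 : τ x ∉ Q := fun h => hx.1 (by rw [← hτ x]; exact mem_of_inv hQτ h)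
    have h2 : x ∉ insert (τ x) Q := by
      rw [Finset.mem_insert]
      rintro (h | h)
      · exact hx.2 h.symm
      · exact hx.1 h
    rw [Finset.card_insert_of_notMem h2, Finset.card_insert_of_notMem h1, hQ]
  have hCτ : ∀ x ∈ Y, (C x).image τ = C x := by
    intro x hx
    refine block_unique hD (hB _ (hC x hx).1) (hC x hx).1 (hcard6 x hx).ge ?_ (hC x hx).2
    have h1 : (insert x (insert (τ x) Q)).image τ = insert x (insert (τ x) Q) := by
      rw [Finset.image_insert, Finset.image_insert, hτ, hQτ, Finset.insert_comm]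
    rw [← h1]
    exact Finset.image_subset_image (hC x hx).2
  have hQC : ∀ x ∈ Y, Q ⊆ C x := fun x hx =>
    (Finset.subset_insert _ _).trans ((Finset.subset_insert _ _).trans (hC x hx).2)
  have hsub : ∀ x ∈ Y, C x \ Q ⊆ Y := by
    intro x hx y hy
    rw [Finset.mem_sdiff] at hy
    rw [hY]
    exact ⟨hy.2, hfix _ (hC x hx).1 (hCτ x hx) (hQC x hx) y hy.1 hy.2⟩
  have hYU : Y = (Y.image C).biUnion (fun B => B \ Q) := by
    ext y
    rw [Finset.mem_biUnion]
    constructor
    · intro hy
      refine ⟨C y, Finset.mem_image_of_mem C hy, ?_⟩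
      rw [Finset.mem_sdiff]
      exact ⟨(hC y hy).2 (Finset.mem_insert_self _ _), ((hY y).1 hy).1⟩
    · rintro ⟨B, hB', hy⟩
      obtain ⟨x, hx, rfl⟩ := Finset.mem_image.1 hB'
      exact hsub x hx hy
  have hdis : ∀ B ∈ Y.image C, ∀ B' ∈ Y.image C, B ≠ B' → Disjoint (B \ Q) (B' \ Q) := by
    intro B hB1 B' hB2 hne
    obtain ⟨x, hx, rfl⟩ := Finset.mem_image.1 hB1
    obtain ⟨x', hx', rfl⟩ := Finset.mem_image.1 hB2
    rw [Finset.disjoint_left]
    intro y hy hy'
    apply hne
    have hyY := hsub x hx hy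
    rw [Finset.mem_sdiff] at hy hy'
    refine block_unique hD (hC x hx).1 (hC x' hx').1 (hcard6 y hyY).ge ?_ ?_
    · refine Finset.insert_subset hy.1 (Finset.insert_subset ?_ (hQC x hx))
      exact mem_of_inv (hCτ x hx) hy.1
    · refine Finset.insert_subset hy'.1 (Finset.insert_subset ?_ (hQC x' hx'))
      exact mem_of_inv (hCτ x' hx') hy'.1
  have hcd : ∀ B ∈ Y.image C, (B \ Q).card = k - 4 := by
    intro B hB1
    obtain ⟨x, hx, rfl⟩ := Finset.mem_image.1 hB1
    rw [Finset.card_sdiff_of_subset (hQC x hx), hD.1 _ (hC x hx).1, hQ]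
  rw [hYU, Finset.card_biUnion hdis, Finset.sum_congr rfl hcd, Finset.sum_const, smul_eq_mul]
  exact Dvd.intro_left _ rfl

/-- a permutation of order three -/
lemma card_mod_three (ρ : Equiv.Perm X) (hρ : ∀ x, ρ (ρ (ρ x)) = x) (B : Finset X)
    (hB : B.image ρ = B) : B.card % 3 = (B.filter (fun x => ρ x = x)).card % 3 := by
  classical
  let f : Function.End {x // x ∈ B} := fun x => ⟨ρ x.1, mem_of_inv hB x.2⟩
  have hf : f ^ 3 ^ 1 = 1 := by
    funext x
    apply Subtype.ext
    exact hρ x.1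
  have h1 := Equiv.Perm.card_fixedPoints_modEq (p := 3) (n := 1) hf
  have h2 : Fintype.card {x // x ∈ B} = B.card := Fintype.card_coe B
  have h3 : Fintype.card (Function.fixedPoints f) = (B.filter (fun x => ρ x = x)).card := by
    rw [← Fintype.card_coe]
    refine Fintype.card_congr ⟨fun x => ⟨x.1.1, ?_⟩, fun x => ⟨⟨x.1, ?_⟩, ?_⟩, ?_, ?_⟩
    · rw [Finset.mem_filter]
      refine ⟨x.1.2, ?_⟩
      have := x.2
      rw [Function.mem_fixedPoints, Function.IsFixedPt] at this
      exact congrArg Subtype.val this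
    · exact (Finset.mem_filter.1 x.2).1
    · rw [Function.mem_fixedPoints, Function.IsFixedPt]
      apply Subtype.ext
      exact (Finset.mem_filter.1 x.2).2
    · intro x; rfl
    · intro x; rfl
  rw [h2] at h1
  rw [← h3]
  exact h1

end general

end Pool.Agent.N86.S6
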