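import Mathlib

/-!
# Arithmetic of the main inequality
-/

set_option autoImplicit false

namespace Pool.Agent.N86.S6

/-- the finite check, as a boolean -/
def chk (e p k : ℕ) : Bool :=
  !(decide (1 ≤ e) && decide (2 ≤ p) && decide (4 * p ^ e ≤ (4 * e + 15) ^ 2) && decide (8 ≤ k) &&
    decide ((k - 4) * (k - 5) + 5 ≤ p ^ e + 1) &&
    (List.range 6).all (fun i => decide ((k - i).descFactorial (6 - i) ∣
      (p ^ e + 1 - i).descFactorial (6 - i))) &&
    decide (2 * (k / 2).descFactorial 3 * (p ^ e + 1).descFactorial 6 +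
      p ^ e * (p ^ e - 1) * (p ^ e / 2).descFactorial 3 * k.descFactorial 6 ≤
      2 * (k / 2).descFactorial 3 * (e * ((p ^ e + 1) * p ^ e * (p ^ e - 1))) *
        k.descFactorial 6))

lemma chk_all : (List.range 10).all (fun e => (List.range 91).all (fun p =>
    (List.range 32).all (fun k => chk e p k))) = true := by
  decide +kernel

lemma small_check : ∀ e < 10, 1 ≤ e → ∀ p < 91, 2 ≤ p → 4 * p ^ e ≤ (4 * e + 15) ^ 2 →
    ∀ k < 32, 8 ≤ k → (k - 4) * (k - 5) + 5 ≤ p ^ e + 1 →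
    (∀ i < 6, (k - i).descFactorial (6 - i) ∣ (p ^ e + 1 - i).descFactorial (6 - i)) →
    ¬ (2 * (k / 2).descFactorial 3 * (p ^ e + 1).descFactorial 6 +
      p ^ e * (p ^ e - 1) * (p ^ e / 2).descFactorial 3 * k.descFactorial 6 ≤
      2 * (k / 2).descFactorial 3 * (e * ((p ^ e + 1) * p ^ e * (p ^ e - 1))) *
        k.descFactorial 6) := by
  intro e he h1 p hp h2 h3 k hk h4 h5 h6 h7
  have h8 := chk_all
  simp only [List.all_eq_true, List.mem_range] at h8
  have h9 := h8 e he p hp k hk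
  unfold chk at h9
  rw [Bool.not_eq_true'] at h9
  have h10 : (decide (1 ≤ e) && decide (2 ≤ p) && decide (4 * p ^ e ≤ (4 * e + 15) ^ 2) &&
    decide (8 ≤ k) && decide ((k - 4) * (k - 5) + 5 ≤ p ^ e + 1) &&
    (List.range 6).all (fun i => decide ((k - i).descFactorial (6 - i) ∣
      (p ^ e + 1 - i).descFactorial (6 - i))) &&
    decide (2 * (k / 2).descFactorial 3 * (p ^ e + 1).descFactorial 6 +
      p ^ e * (p ^ e - 1) * (p ^ e / 2).descFactorial 3 * k.descFactorial 6 ≤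
      2 * (k / 2).descFactorial 3 * (e * ((p ^ e + 1) * p ^ e * (p ^ e - 1))) *
        k.descFactorial 6)) = true := by
    simp only [Bool.and_eq_true, decide_eq_true_eq, List.all_eq_true, List.mem_range]
    exact ⟨⟨⟨⟨⟨⟨h1, h2⟩, h3⟩, h4⟩, h5⟩, h6⟩, h7⟩
  rw [h10] at h9
  exact Bool.noConfusion h9

lemma choose_three_upper (k : ℕ) (hk : 4 ≤ k) :
    48 * (((k / 2).choose 3 : ℕ) : ℝ) ≤ (k : ℝ) * (k - 2) * (k - 4) := by
  have h1 : 6 * (k / 2).choose 3 = (k / 2) * (k / 2 - 1) * (k / 2 - 2) := by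
    have := Nat.descFactorial_eq_factorial_mul_choose (k / 2) 3
    simp only [Nat.descFactorial_succ, Nat.descFactorial_zero, Nat.factorial] at this
    norm_num at this
    rw [← this]
    ring
  obtain ⟨j, hj⟩ : ∃ j, k / 2 = j + 2 := ⟨k / 2 - 2, by omega⟩
  rw [hj] at h1
  have h2 : j + 2 - 1 = j + 1 := by omega
  have h3 : j + 2 - 2 = j := by omega
  rw [h2, h3] at h1
  have h4 : (6 : ℝ) * ((j + 2).choose 3 : ℕ) = ((j : ℝ) + 2) * (j + 1) * j := by
    exact_mod_cast h1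
  rw [hj]
  have h5 : 2 * ((j : ℝ) + 2) ≤ k := by
    have : 2 * (j + 2) ≤ k := by omega
    exact_mod_cast this
  have hj0 : (0 : ℝ) ≤ j := Nat.cast_nonneg j
  calc 48 * (((j + 2).choose 3 : ℕ) : ℝ) = (2 * ((j : ℝ) + 2)) * (2 * (j + 1)) * (2 * j) := by
        linear_combination 8 * h4
    _ ≤ (k : ℝ) * (k - 2) * (k - 4) := by
        apply mul_le_mul
        · apply mul_le_mul h5 (by linarith) (by positivity) (by linarith)
        · linarith
        · positivity
        · apply mul_nonneg <;> linarith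

lemma choose_three_lower (q : ℕ) (hq : 5 ≤ q) :
    ((q : ℝ) - 1) * (q - 3) * (q - 5) ≤ 48 * (((q / 2).choose 3 : ℕ) : ℝ) := by
  have h1 : 6 * (q / 2).choose 3 = (q / 2) * (q / 2 - 1) * (q / 2 - 2) := by
    have := Nat.descFactorial_eq_factorial_mul_choose (q / 2) 3
    simp only [Nat.descFactorial_succ, Nat.descFactorial_zero, Nat.factorial] at this
    norm_num at this
    rw [← this]
    ring
  obtain ⟨j, hj⟩ : ∃ j, q / 2 = j + 2 := ⟨q / 2 - 2, by omega⟩
  rw [hj] at h1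
  have h2 : j + 2 - 1 = j + 1 := by omega
  have h3 : j + 2 - 2 = j := by omega
  rw [h2, h3] at h1
  have h4 : (6 : ℝ) * ((j + 2).choose 3 : ℕ) = ((j : ℝ) + 2) * (j + 1) * j := by
    exact_mod_cast h1
  rw [hj]
  have h5 : (q : ℝ) ≤ 2 * (j + 2) + 1 := by
    have : q ≤ 2 * (j + 2) + 1 := by omega
    exact_mod_cast this
  have h6 : (5 : ℝ) ≤ q := by exact_mod_cast hq
  have hj0 : (0 : ℝ) ≤ j := Nat.cast_nonneg j
  calc ((q : ℝ) - 1) * (q - 3) * (q - 5) ≤ (2 * ((j : ℝ) + 2)) * (2 * (j + 1)) * (2 * j) := by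
        apply mul_le_mul
        · apply mul_le_mul <;> linarith
        · linarith
        · linarith
        · positivity
    _ = 48 * (((j + 2).choose 3 : ℕ) : ℝ) := by linear_combination -8 * h4

/-- The general bound. -/
theorem bound_general {q k e m b : ℕ} (hq : 5 ≤ q) (hk : 4 ≤ k)
    (h : 2 * (k / 2).choose 3 * b + q * (q - 1) * (q / 2).choose 3 ≤
      2 * (k / 2).choose 3 * (m * (e * ((q + 1) * q * (q - 1))))) :
    ((q : ℝ) - 1) * (q - 3) * (q - 5) ≤ 2 * e * m * (q + 1) * (k * (k - 2) * (k - 4)) := by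
  have h1 : q * (q - 1) * (q / 2).choose 3 ≤ q * (q - 1) *
      (2 * (k / 2).choose 3 * (m * (e * (q + 1)))) := by
    calc q * (q - 1) * (q / 2).choose 3 ≤ 2 * (k / 2).choose 3 * b +
          q * (q - 1) * (q / 2).choose 3 := Nat.le_add_left _ _
      _ ≤ 2 * (k / 2).choose 3 * (m * (e * ((q + 1) * q * (q - 1)))) := h
      _ = _ := by ring
  have h2 : (q / 2).choose 3 ≤ 2 * (k / 2).choose 3 * (m * (e * (q + 1))) := by
    refine Nat.le_of_mul_le_mul_left h1 ?_
    have : 0 < q - 1 := by omega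
    positivity
  have h3 : (((q / 2).choose 3 : ℕ) : ℝ) ≤ 2 * ((k / 2).choose 3 : ℕ) * (m * (e * (q + 1))) := by
    exact_mod_cast h2
  have h4 := choose_three_upper k hk
  have h5 := choose_three_lower q hq
  have h6 : (0 : ℝ) ≤ m * (e * (q + 1)) := by positivity
  calc ((q : ℝ) - 1) * (q - 3) * (q - 5) ≤ 48 * (((q / 2).choose 3 : ℕ) : ℝ) := h5
    _ ≤ 48 * (2 * ((k / 2).choose 3 : ℕ) * (m * (e * (q + 1)))) := by linarith
    _ = (48 * ((k / 2).choose 3 : ℕ)) * (2 * (m * (e * (q + 1)))) := by ring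
    _ ≤ ((k : ℝ) * (k - 2) * (k - 4)) * (2 * (m * (e * (q + 1)))) :=
        mul_le_mul_of_nonneg_right h4 (by positivity)
    _ = _ := by ring

/-- The bound for Steiner systems. -/
theorem bound_steiner {q k e m : ℕ} (hq : 5 ≤ q) (hk : 6 ≤ k)
    (hc : (k - 4) * (k - 5) + 5 ≤ q + 1)
    (h : ((q : ℝ) - 1) * (q - 3) * (q - 5) ≤ 2 * e * m * (q + 1) * (k * (k - 2) * (k - 4))) :
    Real.sqrt q - 15 / 2 ≤ 2 * e * m := by
  set s := Real.sqrt q with hs
  have hq0 : (0 : ℝ) ≤ q := Nat.cast_nonneg q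
  have hss : s ^ 2 = q := Real.sq_sqrt hq0
  have hs0 : 0 ≤ s := Real.sqrt_nonneg _
  have hk4 : ((k - 4 : ℕ) : ℝ) = k - 4 := by
    rw [Nat.cast_sub (by omega)]; norm_num
  have hk5 : ((k - 5 : ℕ) : ℝ) = k - 5 := by
    rw [Nat.cast_sub (by omega)]; norm_num
  have h1 : ((k : ℝ) - 4) * (k - 5) + 5 ≤ q + 1 := by
    rw [← hk4, ← hk5]
    exact_mod_cast hc
  have hk6 : (6 : ℝ) ≤ k := by exact_mod_cast hk
  have h2 : (k : ℝ) - 9 / 2 ≤ s := by
    apply Real.le_sqrt_of_sq_le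
    nlinarith
  have h3 : (k : ℝ) * (k - 2) * (k - 4) ≤ (s + 5 / 2) ^ 3 := by
    have h4 : (k : ℝ) * (k - 2) * (k - 4) ≤ ((k : ℝ) - 2) ^ 3 := by nlinarith
    refine h4.trans ?_
    apply pow_le_pow_left₀ (by linarith)
    linarith
  have h5 : (s - 15 / 2) * ((q + 1) * (s + 5 / 2) ^ 3) ≤ ((q : ℝ) - 1) * (q - 3) * (q - 5) := by
    rw [← hss]
    have h6 : ((s ^ 2 : ℝ) - 1) * (s ^ 2 - 3) * (s ^ 2 - 5) -
        (s - 15 / 2) * ((s ^ 2 + 1) * (s + 5 / 2) ^ 3) =
        55 / 2 * s ^ 4 + 125 * s ^ 3 + (177 + 11 / 16) * s ^ 2 + 125 * s + (102 + 3 / 16) := by ring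
    have h7 : 0 ≤ 55 / 2 * s ^ 4 + 125 * s ^ 3 + (177 + 11 / 16) * s ^ 2 + 125 * s +
        (102 + 3 / 16) := by positivity
    linarith
  have h8 : (s - 15 / 2) * ((q + 1) * (s + 5 / 2) ^ 3) ≤
      (2 * e * m) * ((q + 1) * (s + 5 / 2) ^ 3) := by
    refine h5.trans (h.trans ?_)
    have h9 : (0 : ℝ) ≤ 2 * e * m * (q + 1) := by positivity
    calc 2 * (e : ℝ) * m * (q + 1) * (k * (k - 2) * (k - 4)) ≤
        2 * e * m * (q + 1) * (s + 5 / 2) ^ 3 := mul_le_mul_of_nonneg_left h3 h9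
      _ = _ := by ring
  exact le_of_mul_le_mul_right h8 (by positivity)

lemma pow_big (e : ℕ) (he : 10 ≤ e) : (4 * e + 15) ^ 2 < 4 * 2 ^ e := by
  induction e, he using Nat.le_induction with
  | base => norm_num
  | succ e he ih =>
    rw [pow_succ 2 e]
    nlinarith

/-- There are at least two orbits. -/
theorem two_le {q k e m b p : ℕ} (hp : p.Prime) (hq : q = p ^ e) (hk : 8 ≤ k) (hkq : k ≤ q)
    (hc : (k - 4) * (k - 5) + 5 ≤ q + 1)
    (hdiv : ∀ i ≤ 6, (k - i).choose (6 - i) ∣ (q + 1 - i).choose (6 - i))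
    (hb : b * k.choose 6 = (q + 1).choose 6)
    (h : 2 * (k / 2).choose 3 * b + q * (q - 1) * (q / 2).choose 3 ≤
      2 * (k / 2).choose 3 * (m * (e * ((q + 1) * q * (q - 1))))) : 2 ≤ m := by
  by_contra hm
  have hm1 : m ≤ 1 := by omega
  have h0 : 2 * (k / 2).choose 3 * b + q * (q - 1) * (q / 2).choose 3 ≤
      2 * (k / 2).choose 3 * (1 * (e * ((q + 1) * q * (q - 1)))) := by
    refine h.trans ?_
    exact Nat.mul_le_mul_left _ (Nat.mul_le_mul_right _ hm1)
  have h1 := bound_steiner (by omega) (by omega) hc (bound_general (by omega) (by omega) h0)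
  rw [Nat.cast_one, mul_one] at h1
  have he1 : 1 ≤ e := by
    rcases Nat.eq_zero_or_pos e with h2 | h2
    · rw [h2, pow_zero] at hq; omega
    · exact h2
  -- `q` is small
  have h2 : 4 * q ≤ (4 * e + 15) ^ 2 := by
    have h3 : Real.sqrt q ≤ 2 * e + 15 / 2 := by linarith
    have h4 : (q : ℝ) ≤ (2 * e + 15 / 2) ^ 2 := by
      rw [← Real.sq_sqrt (Nat.cast_nonneg (α := ℝ) q)]
      exact pow_le_pow_left₀ (Real.sqrt_nonneg _) h3 2
    have h5 : (4 : ℝ) * q ≤ (4 * e + 15) ^ 2 := by nlinarith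
    exact_mod_cast h5
  have he10 : e < 10 := by
    by_contra hcon
    have h3 := pow_big e (by omega)
    have h4 : 2 ^ e ≤ q := by
      rw [hq]
      exact Nat.pow_le_pow_left hp.two_le e
    omega
  have hq650 : q ≤ 650 := by
    have : (4 * e + 15) ^ 2 ≤ 51 ^ 2 := Nat.pow_le_pow_left (by omega) 2
    omega
  have hp91 : p < 91 := by
    rcases Nat.lt_or_ge e 2 with h3 | h3
    · have h4 : e = 1 := by omega
      rw [h4, pow_one] at hq
      rw [h4] at h2
      omega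
    · by_contra hcon
      have h4 : 91 ^ 2 ≤ p ^ e := (Nat.pow_le_pow_left (by omega : 91 ≤ p) 2).trans
        (Nat.pow_le_pow_right hp.pos h3)
      rw [← hq] at h4
      omega
  have hk32 : k < 32 := by
    by_contra hcon
    have h3 : 28 * 27 ≤ (k - 4) * (k - 5) := Nat.mul_le_mul (by omega) (by omega)
    omega
  refine small_check e he10 he1 p hp91 hp.two_le (by rw [← hq]; exact h2) k hk32 hk
    (by rw [← hq]; exact hc) ?_ ?_
  · intro i hi
    rw [← hq, Nat.descFactorial_eq_factorial_mul_choose, Nat.descFactorial_eq_factorial_mul_choose]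
    exact Nat.mul_dvd_mul_left _ (hdiv i (by omega))
  · rw [← hq]
    simp only [Nat.descFactorial_eq_factorial_mul_choose]
    have h3 : (q + 1).choose 6 = b * k.choose 6 := hb.symm
    rw [h3]
    calc 2 * (Nat.factorial 3 * (k / 2).choose 3) * (Nat.factorial 6 * (b * k.choose 6)) +
          q * (q - 1) * (Nat.factorial 3 * (q / 2).choose 3) * (Nat.factorial 6 * k.choose 6) =
          (2 * (k / 2).choose 3 * b + q * (q - 1) * (q / 2).choose 3) *
            (Nat.factorial 3 * Nat.factorial 6 * k.choose 6) := by ring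
      _ ≤ (2 * (k / 2).choose 3 * (1 * (e * ((q + 1) * q * (q - 1))))) *
            (Nat.factorial 3 * Nat.factorial 6 * k.choose 6) := Nat.mul_le_mul_right _ h0
      _ = _ := by ring

end Pool.Agent.N86.S6
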