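import Pool.Agent.N86.S6.Line

/-!
# The order of groups of semilinear fractional transformations
-/

set_option autoImplicit false

namespace Pool.Agent.N86.S6

open Finset Matrix

variable {K : Type*} [Field K] [DecidableEq K]

/-- `g` is a semilinear fractional transformation `x ↦ (a σ(x) + b) / (c σ(x) + d)` of the
projective line `K ∪ {∞}`, where `σ` is an automorphism of the field `K`. -/
def IsSemilinear (g : Equiv.Perm (OnePoint K)) : Prop :=
  ∃ (A : GL (Fin 2) K) (σ : K ≃+* K), ∀ x : OnePoint K, g x = A • x.map σ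

lemma gl_fix (C : GL (Fin 2) K) (h1 : C • (OnePoint.infty : OnePoint K) = OnePoint.infty)
    (h2 : C • ((0 : K) : OnePoint K) = ((0 : K) : OnePoint K))
    (h3 : C • ((1 : K) : OnePoint K) = ((1 : K) : OnePoint K)) (x : OnePoint K) : C • x = x := by
  have h10 : C 1 0 = 0 := OnePoint.smul_infty_eq_self_iff.1 h1
  rw [OnePoint.smul_some_eq_ite] at h2 h3
  rw [h10] at h2 h3
  have h11 : C 1 1 ≠ 0 := by
    intro h
    rw [h] at h2
    simp at h2
  have h01 : C 0 1 = 0 := by
    rw [if_neg (by simpa using h11), OnePoint.coe_eq_coe] at h2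
    rw [mul_zero, zero_mul, zero_add, zero_add, div_eq_zero_iff] at h2
    exact h2.resolve_right h11
  have h00 : C 0 0 = C 1 1 := by
    rw [if_neg (by simpa using h11), OnePoint.coe_eq_coe] at h3
    rw [h01, mul_one, zero_mul, add_zero, zero_add, div_eq_one_iff_eq h11] at h3
    exact h3
  induction x using OnePoint.rec with
  | infty => exact h1
  | coe x =>
    rw [OnePoint.smul_some_eq_ite, h10, if_neg (by simpa using h11), h01, h00]
    congr 1
    rw [add_zero, zero_mul, zero_add, mul_comm, mul_div_assoc, div_self h11, mul_one]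

lemma gl_ext (A A' : GL (Fin 2) K)
    (h1 : A • (OnePoint.infty : OnePoint K) = A' • (OnePoint.infty : OnePoint K))
    (h2 : A • ((0 : K) : OnePoint K) = A' • ((0 : K) : OnePoint K))
    (h3 : A • ((1 : K) : OnePoint K) = A' • ((1 : K) : OnePoint K)) (x : OnePoint K) :
    A • x = A' • x := by
  have h4 := gl_fix (A'⁻¹ * A) (by rw [mul_smul, h1, inv_smul_smul])
    (by rw [mul_smul, h2, inv_smul_smul]) (by rw [mul_smul, h3, inv_smul_smul]) x
  rw [mul_smul, inv_smul_eq_iff] at h4
  exact h4

/-- the points `∞, 0, 1` -/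
def base (K : Type*) [Field K] : Fin 3 ↪ OnePoint K where
  toFun := ![OnePoint.infty, ((0 : K) : OnePoint K), ((1 : K) : OnePoint K)]
  inj' := by
    intro i j h
    fin_cases i <;> fin_cases j <;> simp at h ⊢

noncomputable instance fintypeAut {K : Type*} [Field K] [Fintype K] : Fintype (K ≃+* K) := by
  classical
  exact Fintype.ofInjective (fun σ : K ≃+* K => (σ : K → K)) DFunLike.coe_injective

variable [Fintype K]

theorem card_semilinear_le (G : Finset (Equiv.Perm (OnePoint K)))
    (hG : ∀ g ∈ G, IsSemilinear g) :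
    G.card ≤ Fintype.card (K ≃+* K) *
      ((Fintype.card K + 1) * Fintype.card K * (Fintype.card K - 1)) := by
  classical
  have hex : ∀ g : Equiv.Perm (OnePoint K), ∃ (A : GL (Fin 2) K) (σ : K ≃+* K),
      g ∈ G → ∀ x : OnePoint K, g x = A • x.map σ := by
    intro g
    by_cases hg : g ∈ G
    · obtain ⟨A, σ, h⟩ := hG g hg
      exact ⟨A, σ, fun _ => h⟩
    · exact ⟨1, RingEquiv.refl K, fun h => absurd h hg⟩
  choose A σ hA using hex
  have h1 : Fintype.card (Fin 3 ↪ OnePoint K) =
      (Fintype.card K + 1) * Fintype.card K * (Fintype.card K - 1) := by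
    rw [Fintype.card_embedding_eq, card_line, Fintype.card_fin]
    simp only [Nat.descFactorial_succ, Nat.descFactorial_zero, Nat.sub_zero, mul_one,
      Nat.add_sub_cancel]
    have h2 : Fintype.card K + 1 - 2 = Fintype.card K - 1 := by omega
    rw [h2]
    ring
  rw [← h1, ← Fintype.card_prod, ← Finset.card_univ]
  refine Finset.card_le_card_of_injOn
    (fun g => (σ g, (base K).trans g.toEmbedding)) (fun _ _ => Finset.mem_coe.2 (Finset.mem_univ _)) ?_
  intro g hg g' hg' h
  rw [Finset.mem_coe] at hg hg'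
  simp only [Prod.mk.injEq] at h
  have hb : ∀ i, g (base K i) = g' (base K i) := by
    intro i
    exact congrArg (fun f => f i) (congrArg DFunLike.coe h.2)
  have hσ := h.1
  have e1 := hb 0
  have e2 := hb 1
  have e3 := hb 2
  have b0 : base K 0 = OnePoint.infty := rfl
  have b1 : base K 1 = ((0 : K) : OnePoint K) := rfl
  have b2 : base K 2 = ((1 : K) : OnePoint K) := rfl
  rw [b0, hA g hg, hA g' hg', OnePoint.map_infty, OnePoint.map_infty] at e1
  rw [b1, hA g hg, hA g' hg', OnePoint.map_some, OnePoint.map_some, map_zero, map_zero] at e2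
  rw [b2, hA g hg, hA g' hg', OnePoint.map_some, OnePoint.map_some, map_one, map_one] at e3
  ext x
  rw [hA g hg, hA g' hg', hσ]
  exact gl_ext _ _ e1 e2 e3 _

omit [DecidableEq K] in
theorem card_aut_le {p e : ℕ} (hp : p.Prime) (hq : Fintype.card K = p ^ e) :
    Fintype.card (K ≃+* K) ≤ e := by
  classical
  obtain ⟨p', hp'⟩ := CharP.exists K
  obtain ⟨n, h1, h2⟩ := FiniteField.card K p'
  have hpp : p' = p ∧ (n : ℕ) = e := by
    have h3 : p' ∣ p ^ e := by
      rw [← hq, h2]
      exact dvd_pow_self p' n.ne_zero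
    have h4 : p' = p := (Nat.prime_dvd_prime_iff_eq h1 hp).1 (h1.dvd_of_dvd_pow h3)
    refine ⟨h4, ?_⟩
    subst h4
    exact Nat.pow_right_injective h1.two_le (h2.symm.trans hq)
  obtain ⟨rfl, hn⟩ := hpp
  have : Fact p'.Prime := ⟨h1⟩
  let _ : Algebra (ZMod p') K := ZMod.algebra K p'
  have hfin : Module.finrank (ZMod p') K = e := by
    have h3 := Module.card_eq_pow_finrank (K := ZMod p') (V := K)
    rw [ZMod.card, h2] at h3
    rw [← hn]
    exact (Nat.pow_right_injective h1.two_le h3).symm
  rw [← hfin]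
  have : Fintype (K →ₐ[ZMod p'] K) := Fintype.ofFinite _
  have h5 : Fintype.card (K →ₐ[ZMod p'] K) ≤ Module.finrank (ZMod p') K := by
    convert AlgHom.card_le (F := ZMod p') (K := K)
  refine le_trans (Fintype.card_le_of_injective
    (fun σ : K ≃+* K => ({ σ.toRingHom with
      commutes' := fun r => RingHom.congr_fun
        (Subsingleton.elim (σ.toRingHom.comp (algebraMap (ZMod p') K)) (algebraMap (ZMod p') K)) r } :
        K →ₐ[ZMod p'] K)) ?_) h5
  intro σ σ' h
  ext x
  exact congrArg (fun f : K →ₐ[ZMod p'] K => f x) h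

end Pool.Agent.N86.S6
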