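import Pool.Agent.N86.S6.Orb
import Pool.Agent.N86.S6.Semi

/-!
# The main inequality
-/

set_option autoImplicit false

namespace Pool.Agent.N86.S6

open Finset Matrix

variable {K : Type*} [Field K] [DecidableEq K] [Fintype K]

/-- The main inequality for `6`-designs on the projective line. -/
theorem main_ineq {k lam : ℕ} {𝓑 R : Finset (Finset (OnePoint K))} (hD : IsDesign 6 k lam 𝓑)
    (hlam : Odd lam) (G : Subgroup (Equiv.Perm (OnePoint K)))
    (hSL : ∀ A : SpecialLinearGroup (Fin 2) K, slPerm A ∈ G) (hsemi : ∀ g ∈ G, IsSemilinear g)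
    (hinv : ∀ g ∈ G, ∀ B ∈ 𝓑, B.image g ∈ 𝓑)
    (hR : ∀ B ∈ 𝓑, ∃ A ∈ R, ∃ g ∈ G, B = A.image g) {p e : ℕ} (hp : p.Prime)
    (hq : Fintype.card K = p ^ e) :
    2 * (k / 2).choose 3 * 𝓑.card +
      Fintype.card K * (Fintype.card K - 1) * (Fintype.card K / 2).choose 3 ≤
      2 * (k / 2).choose 3 * (R.card * (e * ((Fintype.card K + 1) * Fintype.card K *
        (Fintype.card K - 1)))) := by
  classical
  set q := Fintype.card K with hqdef
  let Gf : Finset (Equiv.Perm (OnePoint K)) := univ.filter (fun g => g ∈ G)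
  have hmem : ∀ g, g ∈ Gf ↔ g ∈ G := fun g => by simp [Gf]
  have h1 := orbit_count (𝓑 := 𝓑) (R := R) Gf
    (fun g hg h hh => (hmem _).2 (G.mul_mem ((hmem _).1 hg) ((hmem _).1 hh)))
    (fun B hB => by
      obtain ⟨A, hA, g, hg, h⟩ := hR B hB
      exact ⟨A, hA, g, (hmem _).2 hg, h⟩)
  have h2 : Gf.card ≤ e * ((q + 1) * q * (q - 1)) := by
    refine (card_semilinear_le Gf (fun g hg => hsemi g ((hmem _).1 hg))).trans ?_
    exact Nat.mul_le_mul_right _ (card_aut_le hp hq)
  -- the terms of the identity and of the involutions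
  have hI : insert 1 (invs K) ⊆ Gf := by
    intro g hg
    rw [Finset.mem_insert] at hg
    rcases hg with rfl | hg
    · exact (hmem _).2 G.one_mem
    · rw [invs, Finset.mem_image] at hg
      obtain ⟨x, -, rfl⟩ := hg
      exact (hmem _).2 (hSL _)
  have h3 : 𝓑.card + ∑ g ∈ invs K, (𝓑.filter (fun B => B.image g = B)).card ≤
      ∑ g ∈ Gf, (𝓑.filter (fun B => B.image g = B)).card := by
    refine le_trans ?_ (Finset.sum_le_sum_of_subset hI)
    rw [Finset.sum_insert (one_notMem_invs K)]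
    refine Nat.add_le_add_right ?_ _
    refine le_of_eq ?_
    congr 1
    symm
    rw [Finset.filter_eq_self]
    intro B _
    have : (⇑(1 : Equiv.Perm (OnePoint K))) = id := rfl
    rw [this, Finset.image_id]
  have h4 : (invs K).card * (q / 2).choose 3 ≤
      (∑ g ∈ invs K, (𝓑.filter (fun B => B.image g = B)).card) * (k / 2).choose 3 := by
    rw [Finset.sum_mul, ← smul_eq_mul, ← Finset.sum_const]
    refine Finset.sum_le_sum fun g hg => ?_
    have hg' := hg
    rw [invs, Finset.mem_image] at hg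
    obtain ⟨x, -, rfl⟩ := hg
    refine le_trans (Nat.choose_le_choose 3 (card_pairs_tau x.1 x.2)) ?_
    exact choose_pairs_le hD hlam _ (tau_tau _ _)
      (fun B hB => hinv _ ((hmem _).1 (hI (Finset.mem_insert_of_mem hg'))) B hB)
  have h5 := card_invs K
  rw [← hqdef] at h5
  set N := ∑ g ∈ invs K, (𝓑.filter (fun B => B.image g = B)).card
  set c := (k / 2).choose 3
  set d := (q / 2).choose 3
  have h6 : q * (q - 1) * d ≤ 2 * (N * c) := by
    calc q * (q - 1) * d ≤ 2 * (invs K).card * d := Nat.mul_le_mul_right _ h5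
      _ = 2 * ((invs K).card * d) := by ring
      _ ≤ 2 * (N * c) := Nat.mul_le_mul_left _ h4
  have h7 : 𝓑.card + N ≤ R.card * (e * ((q + 1) * q * (q - 1))) :=
    (h3.trans h1).trans (Nat.mul_le_mul_left _ h2)
  calc 2 * c * 𝓑.card + q * (q - 1) * d ≤ 2 * c * 𝓑.card + 2 * (N * c) :=
        Nat.add_le_add_left h6 _
    _ = 2 * c * (𝓑.card + N) := by ring
    _ ≤ _ := Nat.mul_le_mul_left _ h7

end Pool.Agent.N86.S6
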