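import Pool.Agent.N86.S6.Ten
import Pool.Agent.N86.S6.Count
import Pool.Agent.N86.S6.Arith

/-!
# Steiner 6-designs on the projective line: block size and number of orbits
-/

set_option autoImplicit false

namespace Pool.Agent.N86.S6

open Finset Matrix

variable {K : Type*} [Field K] [DecidableEq K] [Fintype K] {k : ℕ}
  {𝓑 : Finset (Finset (OnePoint K))}

omit [DecidableEq K] in
lemma char_of_card {p e : ℕ} (hp : p.Prime) (hq : Fintype.card K = p ^ e) : ringChar K = p := by
  obtain ⟨l, hl, n, hlp, hn⟩ := FiniteField.card' K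
  have hpl : p = l := by
    have he : e ≠ 0 := by
      rintro rfl
      have h1 := Fintype.one_lt_card (α := K)
      rw [hq, pow_zero] at h1
      exact absurd h1 (lt_irrefl _)
    have h2 : p ∣ l ^ (n : ℕ) := by
      rw [← hn, hq]
      exact dvd_pow_self p he
    exact (Nat.prime_dvd_prime_iff_eq hp hlp).1 (hp.dvd_of_dvd_pow h2)
  rw [hpl]
  exact ringChar.eq K l

omit [DecidableEq K] in
lemma eq_of_natCast_zero {p e l : ℕ} (hp : p.Prime) (hq : Fintype.card K = p ^ e) (hl : l.Prime)
    (h : (l : K) = 0) : p = l := by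
  have h1 : ringChar K = p := char_of_card hp hq
  have h2 : ringChar K ∣ l := (ringChar.spec K l).1 h
  rw [h1] at h2
  exact (Nat.prime_dvd_prime_iff_eq hp hl).1 h2

/-- the small block sizes -/
theorem small_blocks (hD : IsDesign 6 k 1 𝓑)
    (hSL : ∀ A : SpecialLinearGroup (Fin 2) K, ∀ B ∈ 𝓑, B.image (slPerm A) ∈ 𝓑)
    (hk : 6 < k) (hkq : k ≤ Fintype.card K) {p e : ℕ} (hp : p.Prime)
    (hq : Fintype.card K = p ^ e) : 12 ≤ k ∨ (k = 8 ∧ p = 7 ∧ Odd e) := by
  by_contra hcon
  rw [not_or, not_le] at hcon
  obtain ⟨hk12, hnot⟩ := hcon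
  have hk5 : k = 7 ∨ k = 8 ∨ k = 9 ∨ k = 10 ∨ k = 11 := by omega
  rcases Nat.even_or_odd (Fintype.card K) with hev | hodd
  · -- even order
    have h2 : (2 : K) = 0 := two_eq_zero_of_even hev
    have hp2 : p = 2 := eq_of_natCast_zero hp hq Nat.prime_two (by exact_mod_cast h2)
    subst hp2
    rcases hk5 with rfl | rfl | rfl | rfl | rfl
    · exact mod_three hD hSL h2 (by omega) rfl
    · have h1 := even_case hD hSL h2 (by norm_num) hkq (by decide)
      have h3 : 12 ∣ Fintype.card K - 4 := by simpa using h1
      exact eight_even hD hSL h2 (by omega) (by omega)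
    · refine nine hD hSL h2 ?_
      have he : 4 ≤ e := by
        by_contra hcon
        have h4 : e ≤ 3 := by omega
        have := Nat.pow_le_pow_right (n := 2) (by norm_num) h4
        omega
      have := Nat.pow_le_pow_right (n := 2) (by norm_num) he
      omega
    · exact mod_three hD hSL h2 (by omega) rfl
    · have h1 := divisibility hD 3 (by norm_num) (by rw [card_line]; omega)
      rw [card_line] at h1
      have h3 : 56 ∣ (2 ^ e - 2).choose 3 := by
        have e1 : (11 - 3).choose (6 - 3) = 56 := rfl
        have e2 : Fintype.card K + 1 - 3 = 2 ^ e - 2 := by omega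
        rw [e1, e2] at h1
        exact h1
      exact eleven_num e (by omega) h3
  · -- odd order
    have h20 := two_ne_zero_of_odd hodd
    rcases Nat.odd_mod_four_iff.1 (Nat.odd_iff.1 hodd) with h4 | h4
    · obtain ⟨i, hi⟩ := exists_i h4
      have hk4 := four_of_one hD odd_one hSL i hi h20
      have hk10 : k = 10 := by omega
      subst hk10
      have h1 := odd_case hD hSL (by norm_num) hkq hodd
      have h5 : 30 ∣ Fintype.card K + 1 - 10 := by simpa using h1
      have h6 : 3 ∣ p ^ e := by omega
      have hp3 : p = 3 := ((Nat.prime_dvd_prime_iff_eq Nat.prime_three hp).1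
        (Nat.prime_three.dvd_of_dvd_pow h6)).symm
      subst hp3
      have h3 : (3 : K) = 0 := by
        have h7 : ringChar K = 3 := char_of_card hp hq
        have h8 : ((3 : ℕ) : K) = 0 := (ringChar.spec K 3).2 (by rw [h7])
        exact_mod_cast h8
      exact ten hD hSL h3 i hi (by omega)
    · have hkev := even_of_three hD odd_one hSL h4 (by omega)
      have hk2 : k = 8 ∨ k = 10 := by
        rcases hk5 with rfl | rfl | rfl | rfl | rfl
        · exact absurd hkev (by decide)
        · left; rfl
        · exact absurd hkev (by decide)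
        · right; rfl
        · exact absurd hkev (by decide)
      rcases hk2 with rfl | rfl
      · have h1 := odd_case hD hSL (by norm_num) hkq hodd
        have h5 : 12 ∣ Fintype.card K + 1 - 8 := by simpa using h1
        have h7 := eight_odd hD hSL h4 (by omega)
        have hp7 : p = 7 := eq_of_natCast_zero hp hq (by norm_num) (by exact_mod_cast h7)
        refine hnot ⟨rfl, hp7, ?_⟩
        rw [← Nat.not_even_iff_odd]
        rintro ⟨n, rfl⟩
        rw [hp7] at hq
        have h8 : 7 ^ (n + n) % 4 = 1 := by
          rw [← two_mul, pow_mul, Nat.pow_mod]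
          norm_num
        omega
      · have h1 := odd_case hD hSL (by norm_num) hkq hodd
        have h5 : 30 ∣ Fintype.card K + 1 - 10 := by simpa using h1
        have h6 : 3 ∣ p ^ e := by omega
        have hp3 : p = 3 := ((Nat.prime_dvd_prime_iff_eq Nat.prime_three hp).1
          (Nat.prime_three.dvd_of_dvd_pow h6)).symm
        subst hp3
        have h7 : 3 ^ e % 20 = 1 ∨ 3 ^ e % 20 = 3 ∨ 3 ^ e % 20 = 9 ∨ 3 ^ e % 20 = 7 := by
          clear hq h6 hnot
          induction e with
          | zero => left; rfl
          | succ n ih =>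
            rw [pow_succ]
            omega
        omega

/-- at least two orbits and the bound -/
theorem orbits_bound {R : Finset (Finset (OnePoint K))} (hD : IsDesign 6 k 1 𝓑)
    (G : Subgroup (Equiv.Perm (OnePoint K)))
    (hSL : ∀ A : SpecialLinearGroup (Fin 2) K, slPerm A ∈ G) (hsemi : ∀ g ∈ G, IsSemilinear g)
    (hinv : ∀ g ∈ G, ∀ B ∈ 𝓑, B.image g ∈ 𝓑)
    (hR : ∀ B ∈ 𝓑, ∃ A ∈ R, ∃ g ∈ G, B = A.image g) (hk : 6 < k) (hkq : k ≤ Fintype.card K)
    {p e : ℕ} (hp : p.Prime) (hq : Fintype.card K = p ^ e) :
    2 ≤ R.card ∧ Real.sqrt (Fintype.card K) - 15 / 2 ≤ 2 * e * R.card := by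
  have h1 := main_ineq hD odd_one G hSL hsemi hinv hR hp hq
  have hc := cameron hD (by omega) (by rw [card_line]; omega)
  rw [card_line] at hc
  have hk8 : 8 ≤ k := by
    rcases small_blocks hD (fun A B hB => hinv _ (hSL A) B hB) hk hkq hp hq with h | h
    · omega
    · omega
  constructor
  · refine two_le hp hq hk8 hkq hc ?_ ?_ h1
    · intro i hi
      have h2 := divisibility hD i hi (by rw [card_line]; omega)
      rwa [card_line] at h2
    · have h2 := count_through hD ∅ (by simp)
      rw [Finset.card_empty, card_line, Nat.sub_zero, Nat.sub_zero, Nat.sub_zero, one_mul] at h2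
      have h3 : 𝓑.filter (fun B => ∅ ⊆ B) = 𝓑 := by
        rw [Finset.filter_eq_self]
        exact fun B _ => Finset.empty_subset B
      rw [h3] at h2
      exact h2
  · exact bound_steiner (by omega) (by omega) hc (bound_general (by omega) (by omega) h1)

end Pool.Agent.N86.S6
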