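import Pool.Agent.N86.S6.Inv

/-!
# Steiner systems `S(6, k, v)`: divisibility, Cameron's inequality, sets of an automorphism
-/

set_option autoImplicit false

namespace Pool.Agent.N86.S6

open Finset

variable {X : Type*} [Fintype X] [DecidableEq X]

section
variable {t k : ℕ} {𝓑 : Finset (Finset X)}

omit [Fintype X] in
/-- the `t`-subsets between `I` and `B` -/
lemma card_between {t : ℕ} (I B : Finset X) (hIB : I ⊆ B) (hI : I.card ≤ t) :
    ((B.powersetCard t).filter (fun S => I ⊆ S)).card =
      (B.card - I.card).choose (t - I.card) := by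
  have h1 : (B.powersetCard t).filter (fun S => I ⊆ S) =
      ((B \ I).powersetCard (t - I.card)).image (fun J => I ∪ J) := by
    ext S
    rw [Finset.mem_filter, Finset.mem_powersetCard, Finset.mem_image]
    constructor
    · rintro ⟨⟨h1, h2⟩, h3⟩
      refine ⟨S \ I, ?_, Finset.union_sdiff_of_subset h3⟩
      rw [Finset.mem_powersetCard]
      refine ⟨Finset.sdiff_subset_sdiff h1 (Finset.Subset.refl _), ?_⟩
      rw [Finset.card_sdiff_of_subset h3, h2]
    · rintro ⟨J, hJ, rfl⟩
      rw [Finset.mem_powersetCard] at hJ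
      have hd : Disjoint I J := by
        rw [Finset.disjoint_left]
        intro x hx hx'
        exact (Finset.mem_sdiff.1 (hJ.1 hx')).2 hx
      refine ⟨⟨Finset.union_subset hIB (hJ.1.trans Finset.sdiff_subset), ?_⟩,
        Finset.subset_union_left⟩
      rw [Finset.card_union_of_disjoint hd, hJ.2]
      omega
  rw [h1, Finset.card_image_of_injOn, Finset.card_powersetCard, Finset.card_sdiff_of_subset hIB]
  intro J hJ J' hJ' h
  have key : ∀ L, L ∈ ((B \ I).powersetCard (t - I.card) : Finset (Finset X)) →
      (I ∪ L) \ I = L := by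
    intro L hL
    rw [Finset.mem_powersetCard] at hL
    have hd : Disjoint I L := by
      rw [Finset.disjoint_left]
      intro x hx hx'
      exact (Finset.mem_sdiff.1 (hL.1 hx')).2 hx
    rw [Finset.union_sdiff_cancel_left hd]
  have h2 : (I ∪ J) \ I = (I ∪ J') \ I := by
    simp only at h
    rw [h]
  rwa [key J hJ, key J' hJ'] at h2

/-- the number of blocks through a set of `i ≤ t` points -/
theorem count_through {lam : ℕ} (hD : IsDesign t k lam 𝓑) (I : Finset X) (hI : I.card ≤ t) :
    (𝓑.filter (fun B => I ⊆ B)).card * (k - I.card).choose (t - I.card) =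
      lam * (Fintype.card X - I.card).choose (t - I.card) := by
  have h1 := Finset.sum_card_bipartiteAbove_eq_sum_card_bipartiteBelow
    (s := ((univ : Finset X).powersetCard t).filter (fun S => I ⊆ S)) (t := 𝓑)
    (fun S B : Finset X => S ⊆ B)
  have h2 : ∑ S ∈ ((univ : Finset X).powersetCard t).filter (fun S => I ⊆ S),
      (Finset.bipartiteAbove (fun S B : Finset X => S ⊆ B) 𝓑 S).card =
      lam * (Fintype.card X - I.card).choose (t - I.card) := by
    have h3 : ∀ S ∈ ((univ : Finset X).powersetCard t).filter (fun S => I ⊆ S),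
        (Finset.bipartiteAbove (fun S B : Finset X => S ⊆ B) 𝓑 S).card = lam := by
      intro S hS
      rw [Finset.mem_filter, Finset.mem_powersetCard] at hS
      exact hD.2 S hS.1.2
    rw [Finset.sum_congr rfl h3, Finset.sum_const, smul_eq_mul,
      card_between I univ (Finset.subset_univ _) hI, Finset.card_univ, mul_comm]
  have h4 : ∑ B ∈ 𝓑, (Finset.bipartiteBelow (fun S B : Finset X => S ⊆ B)
      (((univ : Finset X).powersetCard t).filter (fun S => I ⊆ S)) B).card =
      (𝓑.filter (fun B => I ⊆ B)).card * (k - I.card).choose (t - I.card) := by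
    rw [← Finset.sum_filter_add_sum_filter_not 𝓑 (fun B => I ⊆ B)]
    have h5 : ∀ B ∈ 𝓑.filter (fun B => I ⊆ B),
        (Finset.bipartiteBelow (fun S B : Finset X => S ⊆ B)
          (((univ : Finset X).powersetCard t).filter (fun S => I ⊆ S)) B).card =
          (k - I.card).choose (t - I.card) := by
      intro B hB
      rw [Finset.mem_filter] at hB
      rw [← hD.1 B hB.1, ← card_between I B hB.2 hI]
      congr 1
      ext S
      simp only [Finset.bipartiteBelow, Finset.mem_filter, Finset.mem_powersetCard,
        Finset.subset_univ, true_and]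
      tauto
    have h6 : ∀ B ∈ 𝓑.filter (fun B => ¬ I ⊆ B),
        (Finset.bipartiteBelow (fun S B : Finset X => S ⊆ B)
          (((univ : Finset X).powersetCard t).filter (fun S => I ⊆ S)) B).card = 0 := by
      intro B hB
      rw [Finset.mem_filter] at hB
      rw [Finset.card_eq_zero, Finset.eq_empty_iff_forall_notMem]
      intro S hS
      simp only [Finset.bipartiteBelow, Finset.mem_filter] at hS
      exact hB.2 (hS.1.2.trans hS.2)
    rw [Finset.sum_congr rfl h5, Finset.sum_congr rfl h6, Finset.sum_const, Finset.sum_const,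
      smul_zero, add_zero, smul_eq_mul]
  rw [← h2, h1, h4]

/-- two blocks with `t` common points are equal -/
lemma block_unique (hD : IsDesign t k 1 𝓑) {B B' S : Finset X} (hB : B ∈ 𝓑) (hB' : B' ∈ 𝓑)
    (hS : t ≤ S.card) (h : S ⊆ B) (h' : S ⊆ B') : B = B' := by
  obtain ⟨S', hS', hc⟩ := Finset.exists_subset_card_eq hS
  have h1 := hD.2 S' hc
  rw [Finset.card_eq_one] at h1
  obtain ⟨C, hC⟩ := h1
  have h2 : B ∈ 𝓑.filter (fun B => S' ⊆ B) := Finset.mem_filter.2 ⟨hB, hS'.trans h⟩
  have h3 : B' ∈ 𝓑.filter (fun B => S' ⊆ B) := Finset.mem_filter.2 ⟨hB', hS'.trans h'⟩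
  rw [hC, Finset.mem_singleton] at h2 h3
  rw [h2, h3]

lemma block_exists (hD : IsDesign t k 1 𝓑) {S : Finset X} (hS : S.card = t) :
    ∃ B ∈ 𝓑, S ⊆ B := by
  have h1 := hD.2 S hS
  have h2 : 0 < (𝓑.filter (fun B => S ⊆ B)).card := by rw [h1]; exact one_pos
  obtain ⟨B, hB⟩ := Finset.card_pos.1 h2
  rw [Finset.mem_filter] at hB
  exact ⟨B, hB.1, hB.2⟩

/-- **Cameron's inequality** for Steiner systems `S(6, k, v)`, `k < v`. -/
theorem cameron (hD : IsDesign 6 k 1 𝓑) (hk : 6 ≤ k) (hv : k < Fintype.card X) :
    (k - 4) * (k - 5) + 5 ≤ Fintype.card X := by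
  classical
  -- a block
  obtain ⟨S0, -, hS0⟩ := Finset.exists_subset_card_eq
    (show 6 ≤ (univ : Finset X).card by rw [Finset.card_univ]; omega)
  obtain ⟨B, hB, hSB⟩ := block_exists hD hS0
  have hBk := hD.1 B hB
  -- a point outside
  obtain ⟨x, hx⟩ : ∃ x, x ∉ B := by
    by_contra h
    push Not at h
    have : B = univ := Finset.eq_univ_of_forall h
    rw [this, Finset.card_univ] at hBk
    omega
  -- four points of `B`
  obtain ⟨Q, hQB, hQ⟩ := Finset.exists_subset_card_eq (show 4 ≤ B.card by omega)
  have hxQ : x ∉ Q := fun h => hx (hQB h)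
  -- the blocks through `Q`, `x` and a point `z` of `B`
  have hex : ∀ z, ∃ C : Finset X, z ∈ B \ Q → C ∈ 𝓑 ∧ insert z (insert x Q) ⊆ C := by
    intro z
    by_cases hz : z ∈ B \ Q
    · rw [Finset.mem_sdiff] at hz
      have hzx : z ∉ insert x Q := by
        rw [Finset.mem_insert]
        rintro (h | h)
        · rw [h] at hz; exact hx hz.1
        · exact hz.2 h
      have hc : (insert z (insert x Q)).card = 6 := by
        rw [Finset.card_insert_of_notMem hzx, Finset.card_insert_of_notMem hxQ, hQ]
      obtain ⟨C, h1, h2⟩ := block_exists hD hc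
      exact ⟨C, fun _ => ⟨h1, h2⟩⟩
    · exact ⟨∅, fun h => absurd h hz⟩
  choose C hC using hex
  have hdis : ∀ z ∈ B \ Q, ∀ z' ∈ B \ Q, z ≠ z' →
      Disjoint (C z \ insert x Q) (C z' \ insert x Q) := by
    intro z hz z' hz' hne
    rw [Finset.disjoint_left]
    intro w hw hw'
    rw [Finset.mem_sdiff] at hw hw'
    have h1 := hC z hz
    have h2 := hC z' hz'
    have hc : (insert w (insert x Q)).card = 6 := by
      rw [Finset.card_insert_of_notMem hw.2, Finset.card_insert_of_notMem hxQ, hQ]
    have heq : C z = C z' := by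
      refine block_unique hD h1.1 h2.1 hc.ge ?_ ?_
      · exact Finset.insert_subset hw.1 ((Finset.subset_insert _ _).trans h1.2)
      · exact Finset.insert_subset hw'.1 ((Finset.subset_insert _ _).trans h2.2)
    -- then `C z` contains `Q`, `z`, `z'`, so that it is `B`
    rw [Finset.mem_sdiff] at hz hz'
    have hzz : z ∉ insert z' Q := by
      rw [Finset.mem_insert]
      rintro (h | h)
      · exact hne h
      · exact hz.2 h
    have hc' : (insert z (insert z' Q)).card = 6 := by
      rw [Finset.card_insert_of_notMem hzz, Finset.card_insert_of_notMem hz'.2, hQ]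
    have hQC : Q ⊆ C z := (Finset.subset_insert x Q).trans
      ((Finset.subset_insert z _).trans h1.2)
    have h3 : C z = B := by
      refine block_unique hD h1.1 hB hc'.ge ?_ ?_
      · refine Finset.insert_subset (h1.2 (Finset.mem_insert_self _ _))
          (Finset.insert_subset ?_ hQC)
        rw [heq]
        exact h2.2 (Finset.mem_insert_self _ _)
      · exact Finset.insert_subset hz.1 (Finset.insert_subset hz'.1 hQB)
    apply hx
    rw [← h3]
    exact h1.2 (Finset.mem_insert_of_mem (Finset.mem_insert_self _ _))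
  have hcard : ∀ z ∈ B \ Q, (C z \ insert x Q).card = k - 5 := by
    intro z hz
    have h1 := hC z hz
    rw [Finset.card_sdiff_of_subset ((Finset.subset_insert z _).trans h1.2), hD.1 _ h1.1,
      Finset.card_insert_of_notMem hxQ, hQ]
  have hU : ((B \ Q).biUnion (fun z => C z \ insert x Q)).card = (k - 4) * (k - 5) := by
    rw [Finset.card_biUnion hdis, Finset.sum_congr rfl hcard, Finset.sum_const, smul_eq_mul,
      Finset.card_sdiff_of_subset hQB, hBk, hQ]
  have hle : ((B \ Q).biUnion (fun z => C z \ insert x Q)).card ≤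
      (univ \ insert x Q : Finset X).card := by
    refine Finset.card_le_card ?_
    rw [Finset.biUnion_subset]
    intro z _
    exact Finset.sdiff_subset_sdiff (Finset.subset_univ _) (Finset.Subset.refl _)
  rw [hU, Finset.card_sdiff_of_subset (Finset.subset_univ _), Finset.card_univ,
    Finset.card_insert_of_notMem hxQ, hQ] at hle
  omega

/-- the divisibility conditions -/
theorem divisibility (hD : IsDesign t k 1 𝓑) (i : ℕ) (hi : i ≤ t) (hv : t ≤ Fintype.card X) :
    (k - i).choose (t - i) ∣ (Fintype.card X - i).choose (t - i) := by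
  obtain ⟨I, -, hI⟩ := Finset.exists_subset_card_eq
    (show i ≤ (univ : Finset X).card by rw [Finset.card_univ]; omega)
  have h1 := count_through hD I (by omega)
  rw [hI, one_mul] at h1
  exact ⟨_, by rw [← h1, mul_comm]⟩

end

end Pool.Agent.N86.S6
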