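import Pool.Agent.N86.S6.Odd

/-!
# Designs on the projective line over a field of even order
-/

set_option autoImplicit false

namespace Pool.Agent.N86.S6

open Finset Matrix

variable {K : Type*} [Field K] [DecidableEq K]

/-- the matrix of `x ↦ -1 / (x + 1)` -/
def rhoM (K : Type*) [Field K] : SpecialLinearGroup (Fin 2) K :=
  ⟨!![0, -1; 1, 1], by rw [Matrix.det_fin_two_of]; ring⟩

/-- the permutation `x ↦ -1 / (x + 1)` of order three -/
def rho (K : Type*) [Field K] [DecidableEq K] : Equiv.Perm (OnePoint K) := slPerm (rhoM K)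

lemma rho_infty : rho K OnePoint.infty = ((0 : K) : OnePoint K) := by
  have h1 : (rhoM K) 1 0 = 1 := rfl
  have h2 : (rhoM K) 0 0 = 0 := rfl
  rw [rho, slPerm_infty, h1, h2, if_neg one_ne_zero, zero_div]

lemma rho_neg_one : rho K ((-1 : K) : OnePoint K) = OnePoint.infty := by
  have h1 : (rhoM K) 1 0 = 1 := rfl
  have h2 : (rhoM K) 1 1 = 1 := rfl
  rw [rho, slPerm_coe, h1, h2, if_pos (by ring)]

lemma rho_coe (x : K) (hx : x + 1 ≠ 0) :
    rho K (x : OnePoint K) = ((-(x + 1)⁻¹ : K) : OnePoint K) := by
  have h1 : (rhoM K) 1 0 = 1 := rfl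
  have h2 : (rhoM K) 1 1 = 1 := rfl
  have h3 : (rhoM K) 0 0 = 0 := rfl
  have h4 : (rhoM K) 0 1 = -1 := rfl
  rw [rho, slPerm_coe, h1, h2, h3, h4, one_mul, if_neg hx]
  congr 1
  rw [zero_mul, zero_add, neg_div, one_div]

lemma rho_three (x : OnePoint K) : rho K (rho K (rho K x)) = x := by
  have e0 : rho K ((0 : K) : OnePoint K) = ((-1 : K) : OnePoint K) := by
    rw [rho_coe 0 (by simp), zero_add, inv_one]
  induction x using OnePoint.rec with
  | infty => rw [rho_infty, e0, rho_neg_one]
  | coe x =>
    by_cases hx : x + 1 = 0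
    · have : x = -1 := by linear_combination hx
      rw [this, rho_neg_one, rho_infty, e0]
    · by_cases hx0 : x = 0
      · rw [hx0, e0, rho_neg_one, rho_infty]
      · have h1 : -(x + 1)⁻¹ + 1 ≠ 0 := by
          intro h
          apply hx0
          field_simp at h
          linear_combination h
        have h5 : -(x + 1)⁻¹ + 1 = x / (x + 1) := by field_simp; ring
        have h6 : -((x + 1) / x) + 1 = -(1 / x) := by field_simp; ring
        have h2 : -((x + 1) / x) + 1 ≠ 0 := by
          rw [h6]
          exact neg_ne_zero.2 (one_div_ne_zero hx0)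
        rw [rho_coe x hx, rho_coe _ h1, h5, inv_div, rho_coe _ h2, h6]
        congr 1
        field_simp

lemma rho_fixed (x : OnePoint K) (hx : rho K x = x) : ∃ y : K, x = y ∧ y ^ 2 + y + 1 = 0 := by
  induction x using OnePoint.rec with
  | infty => rw [rho_infty] at hx; exact absurd hx (OnePoint.coe_ne_infty _)
  | coe x =>
    by_cases h : x + 1 = 0
    · have h1 : x = -1 := by linear_combination h
      rw [h1, rho_neg_one] at hx
      exact absurd hx.symm (OnePoint.coe_ne_infty _)
    · rw [rho_coe x h, OnePoint.coe_eq_coe] at hx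
      refine ⟨x, rfl, ?_⟩
      field_simp at hx
      linear_combination -hx

lemma rho_of_root (y : K) (hy : y ^ 2 + y + 1 = 0) : rho K (y : OnePoint K) = y := by
  have h : y + 1 ≠ 0 := by
    intro h
    have h1 : y = -1 := by linear_combination h
    rw [h1] at hy
    exact one_ne_zero (α := K) (by linear_combination hy)
  rw [rho_coe y h, OnePoint.coe_eq_coe]
  field_simp
  linear_combination -hy

/-- an orbit of length six -/
noncomputable def hexa (x : K) : Finset (OnePoint K) :=
  {(x : OnePoint K), ((x + 1 : K) : OnePoint K), ((x⁻¹ : K) : OnePoint K),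
    (((x + 1)⁻¹ : K) : OnePoint K), ((x * (x + 1)⁻¹ : K) : OnePoint K),
    (((x + 1) * x⁻¹ : K) : OnePoint K)}

section
variable (x : K) (h2 : (2 : K) = 0) (hx0 : x ≠ 0) (hx1 : x + 1 ≠ 0) (hx2 : x ^ 2 + x + 1 ≠ 0)
include h2 hx0 hx1 hx2

lemma hexa_card : (hexa x).card = 6 := by
  have hy : x * (x + 1) ≠ 0 := mul_ne_zero hx0 hx1
  unfold hexa
  rw [Finset.card_insert_of_notMem, Finset.card_insert_of_notMem, Finset.card_insert_of_notMem,
    Finset.card_insert_of_notMem, Finset.card_insert_of_notMem, Finset.card_singleton]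
  · rw [Finset.mem_singleton, OnePoint.coe_eq_coe]
    intro h
    field_simp at h
    have : (1 : K) = 0 := by linear_combination -h - x * h2
    exact one_ne_zero this
  · simp only [Finset.mem_insert, Finset.mem_singleton, OnePoint.coe_eq_coe, not_or]
    refine ⟨fun h => ?_, fun h => ?_⟩
    · field_simp at h
      exact hx1 (by linear_combination -h + h2)
    · field_simp at h
      exact hx2 (by linear_combination -h)
  · simp only [Finset.mem_insert, Finset.mem_singleton, OnePoint.coe_eq_coe, not_or]
    refine ⟨fun h => ?_, fun h => ?_, fun h => ?_⟩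
    · field_simp at h
      exact one_ne_zero (α := K) (by linear_combination h)
    · field_simp at h
      exact hx2 (by linear_combination -h + (x + 1) * h2)
    · field_simp at h
      exact hx0 (by linear_combination -h)
  · simp only [Finset.mem_insert, Finset.mem_singleton, OnePoint.coe_eq_coe, not_or]
    refine ⟨fun h => ?_, fun h => ?_, fun h => ?_, fun h => ?_⟩
    · field_simp at h
      exact hx2 (by linear_combination h + h2)
    · field_simp at h
      have h3 : x ^ 2 = 0 := by linear_combination h - x * h2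
      exact hx0 (pow_eq_zero_iff two_ne_zero |>.1 h3)
    · field_simp at h
      exact hx2 (by linear_combination h)
    · field_simp at h
      exact hx1 (by linear_combination h + h2)
  · simp only [Finset.mem_insert, Finset.mem_singleton, OnePoint.coe_eq_coe, not_or]
    refine ⟨fun h => ?_, fun h => ?_, fun h => ?_, fun h => ?_, fun h => ?_⟩
    · exact one_ne_zero (α := K) (by linear_combination -h)
    · field_simp at h
      have h3 : (x + 1) ^ 2 = 0 := by linear_combination h + (x + 1) * h2
      exact hx1 (pow_eq_zero_iff two_ne_zero |>.1 h3)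
    · field_simp at h
      exact hx2 (by linear_combination h + h2)
    · field_simp at h
      exact hx0 (by linear_combination h)
    · field_simp at h
      exact hx2 (by linear_combination h + (x + 1) * h2)

omit hx2 in
lemma hexa_tau : (hexa x).image (tau 0 1) = hexa x := by
  have h : ∀ y ∈ hexa x, tau 0 1 y ∈ hexa x := by
    intro y hy
    simp only [hexa, Finset.mem_insert, Finset.mem_singleton] at hy ⊢
    rcases hy with rfl | rfl | rfl | rfl | rfl | rfl
    · right; right; left
      rw [tau01_coe _ hx0, OnePoint.coe_eq_coe]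
      linear_combination -x⁻¹ * h2
    · right; right; right; left
      rw [tau01_coe _ hx1, OnePoint.coe_eq_coe]
      linear_combination -(x + 1)⁻¹ * h2
    · left
      rw [tau01_coe _ (inv_ne_zero hx0), OnePoint.coe_eq_coe, inv_inv]
      linear_combination -x * h2
    · right; left
      rw [tau01_coe _ (inv_ne_zero hx1), OnePoint.coe_eq_coe, inv_inv]
      linear_combination -(x + 1) * h2
    · right; right; right; right; right
      rw [tau01_coe _ (mul_ne_zero hx0 (inv_ne_zero hx1)), OnePoint.coe_eq_coe, mul_inv, inv_inv]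
      linear_combination -(x + 1) * x⁻¹ * h2
    · right; right; right; right; left
      rw [tau01_coe _ (mul_ne_zero hx1 (inv_ne_zero hx0)), OnePoint.coe_eq_coe, mul_inv, inv_inv]
      linear_combination -x * (x + 1)⁻¹ * h2
  refine Finset.eq_of_subset_of_card_le ?_ ?_
  · rw [Finset.image_subset_iff]; exact h
  · rw [Finset.card_image_of_injective _ (tau 0 1).injective]

omit hx2 in
lemma hexa_rho : (hexa x).image (rho K) = hexa x := by
  have h : ∀ y ∈ hexa x, rho K y ∈ hexa x := by
    intro y hy
    simp only [hexa, Finset.mem_insert, Finset.mem_singleton] at hy ⊢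
    rcases hy with rfl | rfl | rfl | rfl | rfl | rfl
    · -- x ↦ (x + 1)⁻¹
      right; right; right; left
      rw [rho_coe _ hx1, OnePoint.coe_eq_coe]
      linear_combination -(x + 1)⁻¹ * h2
    · -- x + 1 ↦ x⁻¹
      right; right; left
      have e : x + 1 + 1 = x := by linear_combination h2
      rw [rho_coe _ (by rw [e]; exact hx0), OnePoint.coe_eq_coe, e]
      linear_combination -x⁻¹ * h2
    · -- x⁻¹ ↦ x (x + 1)⁻¹
      right; right; right; right; left
      have e : x⁻¹ + 1 = (x + 1) * x⁻¹ := by field_simp; ring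
      rw [rho_coe _ (by rw [e]; exact mul_ne_zero hx1 (inv_ne_zero hx0)), OnePoint.coe_eq_coe, e,
        mul_inv, inv_inv]
      linear_combination -x * (x + 1)⁻¹ * h2
    · -- (x + 1)⁻¹ ↦ (x + 1) x⁻¹
      right; right; right; right; right
      have e : (x + 1)⁻¹ + 1 = x * (x + 1)⁻¹ := by
        field_simp
        linear_combination h2
      rw [rho_coe _ (by rw [e]; exact mul_ne_zero hx0 (inv_ne_zero hx1)), OnePoint.coe_eq_coe, e,
        mul_inv, inv_inv]
      linear_combination -(x + 1) * x⁻¹ * h2
    · -- x (x + 1)⁻¹ ↦ x + 1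
      right; left
      have e : x * (x + 1)⁻¹ + 1 = (x + 1)⁻¹ := by
        field_simp
        linear_combination x * h2
      rw [rho_coe _ (by rw [e]; exact inv_ne_zero hx1), OnePoint.coe_eq_coe, e, inv_inv]
      linear_combination -(x + 1) * h2
    · -- (x + 1) x⁻¹ ↦ x
      left
      have e : (x + 1) * x⁻¹ + 1 = x⁻¹ := by
        field_simp
        linear_combination x * h2
      rw [rho_coe _ (by rw [e]; exact inv_ne_zero hx0), OnePoint.coe_eq_coe, e, inv_inv]
      linear_combination -x * h2
  refine Finset.eq_of_subset_of_card_le ?_ ?_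
  · rw [Finset.image_subset_iff]; exact h
  · rw [Finset.card_image_of_injective _ (rho K).injective]

end

section designs
variable [Fintype K] {k : ℕ} {𝓑 : Finset (Finset (OnePoint K))}

lemma exists_generic (hq : 5 ≤ Fintype.card K) :
    ∃ x : K, x ≠ 0 ∧ x + 1 ≠ 0 ∧ x ^ 2 + x + 1 ≠ 0 := by
  classical
  by_contra hcon
  push Not at hcon
  let R : Finset K := univ.filter (fun x => x ^ 2 + x + 1 = 0)
  have hR : R.card ≤ 2 := by
    by_contra h
    rw [not_le, Finset.two_lt_card_iff] at h
    obtain ⟨a, b, c, ha, hb, hc, hab, hac, hbc⟩ := h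
    simp only [R, Finset.mem_filter, Finset.mem_univ, true_and] at ha hb hc
    have h1 : (a - b) * (a + b + 1) = 0 := by linear_combination ha - hb
    have h2 : (a - c) * (a + c + 1) = 0 := by linear_combination ha - hc
    have h3 := (mul_eq_zero.1 h1).resolve_left (sub_ne_zero.2 hab)
    have h4 := (mul_eq_zero.1 h2).resolve_left (sub_ne_zero.2 hac)
    exact hbc (by linear_combination h3 - h4)
  have hsub : (univ : Finset K) ⊆ insert 0 (insert (-1) R) := by
    intro x _
    rw [Finset.mem_insert, Finset.mem_insert]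
    by_cases h0 : x = 0
    · left; exact h0
    · by_cases h1 : x + 1 = 0
      · right; left; linear_combination h1
      · right; right
        exact Finset.mem_filter.2 ⟨Finset.mem_univ _, hcon x h0 h1⟩
  have h5 := Finset.card_le_card hsub
  have h6 := Finset.card_insert_le (0 : K) (insert (-1) R)
  have h7 := Finset.card_insert_le (-1 : K) R
  rw [Finset.card_univ] at h5
  omega

/-- `q` even: `k` is not `1` modulo `3` -/
theorem mod_three (hD : IsDesign 6 k 1 𝓑)
    (hSL : ∀ A : SpecialLinearGroup (Fin 2) K, ∀ B ∈ 𝓑, B.image (slPerm A) ∈ 𝓑)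
    (h2 : (2 : K) = 0) (hq : 5 ≤ Fintype.card K) : k % 3 ≠ 1 := by
  classical
  intro hk
  obtain ⟨x, hx0, hx1, hx2⟩ := exists_generic hq
  have hc := hexa_card x h2 hx0 hx1 hx2
  obtain ⟨B, hB, hSB⟩ := block_exists hD hc
  have hBτ : B.image (tau 0 1) = B := by
    refine block_unique hD (hSL _ B hB) hB hc.ge ?_ hSB
    rw [← hexa_tau x h2 hx0 hx1]
    exact Finset.image_subset_image hSB
  have hBρ : B.image (rho K) = B := by
    refine block_unique hD (hSL _ B hB) hB hc.ge ?_ hSB
    rw [← hexa_rho x h2 hx0 hx1]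
    exact Finset.image_subset_image hSB
  have h3 := card_mod_three (rho K) rho_three B hBρ
  rw [hD.1 B hB, hk] at h3
  set F := B.filter (fun x => rho K x = x) with hF
  -- at most two fixed points
  have hF2 : F.card ≤ 2 := by
    by_contra h
    rw [not_le, Finset.two_lt_card_iff] at h
    obtain ⟨a, b, c, ha, hb, hc, hab, hac, hbc⟩ := h
    rw [hF, Finset.mem_filter] at ha hb hc
    obtain ⟨a', rfl, ha'⟩ := rho_fixed a ha.2
    obtain ⟨b', rfl, hb'⟩ := rho_fixed b hb.2
    obtain ⟨c', rfl, hc'⟩ := rho_fixed c hc.2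
    have hab' : a' ≠ b' := fun h => hab (by rw [h])
    have hac' : a' ≠ c' := fun h => hac (by rw [h])
    have hbc' : b' ≠ c' := fun h => hbc (by rw [h])
    have e1 : (a' - b') * (a' + b' + 1) = 0 := by linear_combination ha' - hb'
    have e2 : (a' - c') * (a' + c' + 1) = 0 := by linear_combination ha' - hc'
    have e3 := (mul_eq_zero.1 e1).resolve_left (sub_ne_zero.2 hab')
    have e4 := (mul_eq_zero.1 e2).resolve_left (sub_ne_zero.2 hac')
    exact hbc' (by linear_combination e3 - e4)
  have hF1 : F.card = 1 := by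
    have : F.card % 3 = F.card := Nat.mod_eq_of_lt (by omega)
    omega
  rw [Finset.card_eq_one] at hF1
  obtain ⟨z, hz⟩ := hF1
  have hzF : z ∈ F := by rw [hz]; exact Finset.mem_singleton_self z
  rw [hF, Finset.mem_filter] at hzF
  obtain ⟨y, rfl, hy⟩ := rho_fixed z hzF.2
  have hy0 : y ≠ 0 := by
    rintro rfl
    exact one_ne_zero (α := K) (by linear_combination hy)
  have hτy : tau 0 1 (y : OnePoint K) ∈ F := by
    rw [hF, Finset.mem_filter]
    refine ⟨mem_of_inv hBτ hzF.1, ?_⟩
    rw [tau01_coe y hy0]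
    apply rho_of_root
    field_simp
    linear_combination hy - y * h2
  rw [hz, Finset.mem_singleton, tau01_coe y hy0, OnePoint.coe_eq_coe] at hτy
  field_simp at hτy
  have h5 : (y + 1) ^ 2 = 0 := by linear_combination -hτy + y * h2
  have h6 : y + 1 = 0 := pow_eq_zero_iff two_ne_zero |>.1 h5
  exact one_ne_zero (α := K) (by linear_combination hy - y * h6)

/-- `q` and `k` even -/
theorem dvd_of_even (hD : IsDesign 6 k 1 𝓑)
    (hSL : ∀ A : SpecialLinearGroup (Fin 2) K, ∀ B ∈ 𝓑, B.image (slPerm A) ∈ 𝓑)
    (h2 : (2 : K) = 0) (hq : 5 ≤ Fintype.card K) (hk : Even k) :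
    k - 4 ∣ Fintype.card K - 4 := by
  classical
  have h1 := card_pairs_tau (0 : K) 1
  obtain ⟨T, hT, hT2⟩ := Finset.exists_subset_card_eq
    (show 2 ≤ (pairs (tau (0 : K) 1)).card by omega)
  have hQ : (T.biUnion id).card = 4 := by rw [card_biUnion_pairs (tau_tau 0 1) hT, hT2]
  have hone : ∀ x : OnePoint K, tau 0 1 x = x ↔ x = ((1 : K) : OnePoint K) := by
    intro x
    constructor
    · intro h
      obtain ⟨y, rfl, hy⟩ := tau_fixed 0 1 x h
      rw [sub_zero, Units.val_one, one_pow] at hy
      rw [OnePoint.coe_eq_coe]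
      have h5 : (y - 1) ^ 2 = 0 := by linear_combination hy - (y - 1) * h2 - h2
      have h6 : y - 1 = 0 := pow_eq_zero_iff two_ne_zero |>.1 h5
      linear_combination h6
    · rintro rfl
      rw [tau01_coe 1 one_ne_zero, OnePoint.coe_eq_coe, inv_one]
      linear_combination -h2
  have hnot : ((1 : K) : OnePoint K) ∉ T.biUnion id := by
    intro h
    rw [Finset.mem_biUnion] at h
    obtain ⟨p, hp, h⟩ := h
    exact (pairs_eq (tau_tau 0 1) (hT hp) h).1 ((hone _).2 rfl)
  have h3 := dvd_of_four hD (tau 0 1) (tau_tau 0 1) (fun B hB => hSL _ B hB) (T.biUnion id)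
    hQ (image_biUnion_pairs (tau_tau 0 1) hT)
    ((univ \ T.biUnion id).erase ((1 : K) : OnePoint K))
    (fun x => by
      rw [Finset.mem_erase, Finset.mem_sdiff, ne_eq (tau 0 1 x) x, hone]
      exact ⟨fun h => ⟨h.2.2, h.1⟩, fun h => ⟨h.2, Finset.mem_univ _, h.1⟩⟩)
    (fun B hB hBτ _ x hx _ h => by
      rw [hone] at h
      subst h
      have h5 : Odd B.card := by
        rw [odd_fixed B (tau 0 1) (fun a ha => mem_of_inv hBτ ha) (fun a _ => tau_tau 0 1 a)]
        have h6 : B.filter (fun a => tau 0 1 a = a) = {((1 : K) : OnePoint K)} := by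
          ext a
          rw [Finset.mem_filter, Finset.mem_singleton, hone]
          exact ⟨fun h => h.2, fun h => ⟨by rw [h]; exact hx, h⟩⟩
        rw [h6, Finset.card_singleton]
        decide
      rw [hD.1 B hB, ← Nat.not_even_iff_odd] at h5
      exact h5 hk)
  rw [Finset.card_erase_of_mem (Finset.mem_sdiff.2 ⟨Finset.mem_univ _, hnot⟩),
    Finset.card_sdiff_of_subset (Finset.subset_univ _), Finset.card_univ, card_line, hQ] at h3
  have h4 : Fintype.card K + 1 - 4 - 1 = Fintype.card K - 4 := by omega
  rwa [h4] at h3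

theorem even_case (hD : IsDesign 6 k 1 𝓑)
    (hSL : ∀ A : SpecialLinearGroup (Fin 2) K, ∀ B ∈ 𝓑, B.image (slPerm A) ∈ 𝓑)
    (h2 : (2 : K) = 0) (hk6 : 6 ≤ k) (hkq : k ≤ Fintype.card K) (hk : Even k) :
    (k - 4) * (k - 5) ∣ Fintype.card K - 4 := by
  have h1 := dvd_of_even hD hSL h2 (by omega) hk
  have h3 := divisibility hD 5 (by norm_num) (by rw [card_line]; omega)
  rw [show 6 - 5 = 1 from rfl, Nat.choose_one_right, Nat.choose_one_right, card_line] at h3
  have h4 : Fintype.card K + 1 - 5 = Fintype.card K - 4 := by omega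
  rw [h4] at h3
  refine Nat.Coprime.mul_dvd_of_dvd_of_dvd ?_ h1 h3
  have h6 : k - 4 = (k - 5) + 1 := by omega
  rw [h6]
  simp

lemma two_eq_zero_of_even (hq : Even (Fintype.card K)) : (2 : K) = 0 := by
  have h1 : ringChar K = 2 := by
    rw [FiniteField.even_card_iff_char_two]
    exact Nat.even_iff.1 hq
  have h3 : ((2 : ℕ) : K) = 0 := (ringChar.spec K 2).2 (by rw [h1])
  exact_mod_cast h3

end designs

end Pool.Agent.N86.S6
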