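import Mathlib

/-!
# Designs with an involutory automorphism: the structure on the 2-cycles
-/

set_option autoImplicit false

namespace Pool.Agent.N86.S6

open Finset

variable {X : Type*} [Fintype X] [DecidableEq X]

/-- `𝓑` is the set of blocks of a `t`-`(v, k, lam)` design on the finite set `X` with `v` elements:
the blocks have `k` elements and every `t`-element subset of `X` lies in exactly `lam` blocks. -/
def IsDesign (t k lam : ℕ) (𝓑 : Finset (Finset X)) : Prop :=
  (∀ B ∈ 𝓑, B.card = k) ∧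
    ∀ S : Finset X, S.card = t → (𝓑.filter (fun B => S ⊆ B)).card = lam

omit [Fintype X] [DecidableEq X] in
/-- an involution of a finite set of odd size has an odd number of fixed elements -/
lemma odd_fixed {α : Type*} [DecidableEq α] (s : Finset α) (f : α → α) (hf : ∀ a ∈ s, f a ∈ s)
    (hff : ∀ a ∈ s, f (f a) = a) : Odd s.card ↔ Odd (s.filter (fun a => f a = a)).card := by
  have h1 := Finset.card_filter_add_card_filter_not (s := s) (fun a => f a = a)
  have h2 : Even (s.filter (fun a => ¬ f a = a)).card := by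
    have h3 : ∑ a ∈ s.filter (fun a => ¬ f a = a), (1 : ZMod 2) = 0 := by
      refine Finset.sum_involution (fun a _ => f a) ?_ ?_ ?_ ?_
      · intro a _; decide
      · intro a ha _
        exact (Finset.mem_filter.1 ha).2
      · intro a ha
        rw [Finset.mem_filter] at ha ⊢
        refine ⟨hf a ha.1, ?_⟩
        rw [hff a ha.1]
        exact fun h => ha.2 h.symm
      · intro a ha
        exact hff a (Finset.mem_filter.1 ha).1
    rw [Finset.sum_const, nsmul_eq_mul, mul_one] at h3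
    exact (ZMod.natCast_eq_zero_iff_even).1 h3
  rw [← h1, Nat.odd_add]
  constructor
  · intro h; exact h.2 h2
  · intro h; exact ⟨fun _ => h2, fun _ => h⟩

section
variable {k lam : ℕ} {𝓑 : Finset (Finset X)}

omit [Fintype X] in
lemma image_image_inv (τ : Equiv.Perm X) (hτ : ∀ x, τ (τ x) = x) (B : Finset X) :
    (B.image τ).image τ = B := by
  rw [Finset.image_image]
  have : (τ ∘ τ : X → X) = id := funext hτ
  rw [this, Finset.image_id]

/-- every `τ`-invariant `t`-set lies in a `τ`-invariant block, if `lam` is odd -/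
lemma exists_inv_block {t : ℕ} (hD : IsDesign t k lam 𝓑) (hlam : Odd lam) (τ : Equiv.Perm X)
    (hτ : ∀ x, τ (τ x) = x) (hB : ∀ B ∈ 𝓑, B.image τ ∈ 𝓑) (S : Finset X) (hS : S.card = t)
    (hSτ : S.image τ = S) : ∃ B ∈ 𝓑, B.image τ = B ∧ S ⊆ B := by
  have h1 := hD.2 S hS
  have h2 : Odd (𝓑.filter (fun B => S ⊆ B)).card := by rw [h1]; exact hlam
  have hmem : ∀ B ∈ 𝓑.filter (fun B => S ⊆ B), B.image τ ∈ 𝓑.filter (fun B => S ⊆ B) := by
    intro B hB'
    rw [Finset.mem_filter] at hB' ⊢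
    refine ⟨hB B hB'.1, ?_⟩
    rw [← hSτ]
    exact Finset.image_subset_image hB'.2
  rw [odd_fixed _ (fun B => B.image τ) hmem (fun B _ => image_image_inv τ hτ B)] at h2
  obtain ⟨B, hB1⟩ := Finset.card_pos.1 h2.pos
  rw [Finset.mem_filter, Finset.mem_filter] at hB1
  exact ⟨B, hB1.1.1, hB1.2, hB1.1.2⟩

/-- the 2-cycles of `τ` -/
def pairs (τ : Equiv.Perm X) : Finset (Finset X) :=
  (univ.filter (fun x => τ x ≠ x)).image (fun x => {x, τ x})

lemma mem_pairs {τ : Equiv.Perm X} {p : Finset X} :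
    p ∈ pairs τ ↔ ∃ x, τ x ≠ x ∧ p = {x, τ x} := by
  simp only [pairs, Finset.mem_image, Finset.mem_filter, Finset.mem_univ, true_and]
  constructor
  · rintro ⟨x, h1, h2⟩; exact ⟨x, h1, h2.symm⟩
  · rintro ⟨x, h1, h2⟩; exact ⟨x, h1, h2.symm⟩

lemma pairs_card {τ : Equiv.Perm X} {p : Finset X} (hp : p ∈ pairs τ) : p.card = 2 := by
  obtain ⟨x, h1, rfl⟩ := mem_pairs.1 hp
  exact Finset.card_pair h1.symm

lemma pairs_eq {τ : Equiv.Perm X} (hτ : ∀ x, τ (τ x) = x) {p : Finset X} (hp : p ∈ pairs τ)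
    {y : X} (hy : y ∈ p) : τ y ≠ y ∧ p = {y, τ y} := by
  obtain ⟨x, h1, rfl⟩ := mem_pairs.1 hp
  rw [Finset.mem_insert, Finset.mem_singleton] at hy
  rcases hy with rfl | rfl
  · exact ⟨h1, rfl⟩
  · refine ⟨?_, ?_⟩
    · rw [hτ]; exact h1.symm
    · rw [hτ, Finset.pair_comm]

lemma pairs_disjoint {τ : Equiv.Perm X} (hτ : ∀ x, τ (τ x) = x) {p q : Finset X}
    (hp : p ∈ pairs τ) (hq : q ∈ pairs τ) (hpq : p ≠ q) : Disjoint p q := by
  rw [Finset.disjoint_left]
  intro y hy hy'
  exact hpq ((pairs_eq hτ hp hy).2.trans (pairs_eq hτ hq hy').2.symm)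

lemma pairs_image {τ : Equiv.Perm X} (hτ : ∀ x, τ (τ x) = x) {p : Finset X} (hp : p ∈ pairs τ) :
    p.image τ = p := by
  obtain ⟨x, h1, rfl⟩ := mem_pairs.1 hp
  rw [Finset.image_insert, Finset.image_singleton, hτ, Finset.pair_comm]

lemma card_biUnion_pairs {τ : Equiv.Perm X} (hτ : ∀ x, τ (τ x) = x) {T : Finset (Finset X)}
    (hT : T ⊆ pairs τ) : (T.biUnion id).card = 2 * T.card := by
  rw [Finset.card_biUnion]
  · have h2 : ∀ p ∈ T, (id p : Finset X).card = 2 := fun p hp => pairs_card (hT hp)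
    rw [Finset.sum_congr rfl h2, Finset.sum_const, smul_eq_mul, mul_comm]
  · intro p hp q hq hpq
    exact pairs_disjoint hτ (hT hp) (hT hq) hpq

lemma image_biUnion_pairs {τ : Equiv.Perm X} (hτ : ∀ x, τ (τ x) = x) {T : Finset (Finset X)}
    (hT : T ⊆ pairs τ) : (T.biUnion id).image τ = T.biUnion id := by
  rw [Finset.biUnion_image]
  refine Finset.biUnion_congr rfl fun p hp => ?_
  exact pairs_image hτ (hT hp)

lemma two_mul_card_pairs {τ : Equiv.Perm X} (hτ : ∀ x, τ (τ x) = x) :
    2 * (pairs τ).card = (univ.filter (fun x => τ x ≠ x)).card := by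
  rw [← card_biUnion_pairs hτ (Finset.Subset.refl _)]
  congr 1
  ext x
  rw [Finset.mem_biUnion, Finset.mem_filter]
  constructor
  · rintro ⟨p, hp, hx⟩
    exact ⟨Finset.mem_univ _, (pairs_eq hτ hp hx).1⟩
  · rintro ⟨-, hx⟩
    exact ⟨{x, τ x}, mem_pairs.2 ⟨x, hx, rfl⟩, by simp⟩

/-- **The basic count.** If `lam` is odd, the triples of 2-cycles of an involutory automorphism `τ`
are covered by the blocks which are invariant under `τ`. -/
theorem choose_pairs_le (hD : IsDesign 6 k lam 𝓑) (hlam : Odd lam) (τ : Equiv.Perm X)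
    (hτ : ∀ x, τ (τ x) = x) (hB : ∀ B ∈ 𝓑, B.image τ ∈ 𝓑) :
    (pairs τ).card.choose 3 ≤
      (𝓑.filter (fun B => B.image τ = B)).card * (k / 2).choose 3 := by
  classical
  rw [← Finset.card_powersetCard]
  have hcov : (pairs τ).powersetCard 3 ⊆ (𝓑.filter (fun B => B.image τ = B)).biUnion
      (fun B => ((pairs τ).filter (fun p => p ⊆ B)).powersetCard 3) := by
    intro T hT
    rw [Finset.mem_powersetCard] at hT
    have h6 : (T.biUnion id).card = 6 := by rw [card_biUnion_pairs hτ hT.1, hT.2]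
    obtain ⟨B, hB1, hB2, hB3⟩ := exists_inv_block hD hlam τ hτ hB (T.biUnion id) h6
      (image_biUnion_pairs hτ hT.1)
    rw [Finset.mem_biUnion]
    refine ⟨B, Finset.mem_filter.2 ⟨hB1, hB2⟩, ?_⟩
    rw [Finset.mem_powersetCard]
    refine ⟨fun p hp => Finset.mem_filter.2 ⟨hT.1 hp, ?_⟩, hT.2⟩
    exact (Finset.subset_biUnion_of_mem id hp).trans hB3
  refine (Finset.card_le_card hcov).trans (Finset.card_biUnion_le.trans ?_)
  rw [← smul_eq_mul, ← Finset.sum_const]
  refine Finset.sum_le_sum fun B hB' => ?_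
  rw [Finset.card_powersetCard]
  refine Nat.choose_le_choose 3 ?_
  have h1 : (((pairs τ).filter (fun p => p ⊆ B)).biUnion id).card ≤ B.card := by
    refine Finset.card_le_card ?_
    rw [Finset.biUnion_subset]
    intro p hp
    exact (Finset.mem_filter.1 hp).2
  rw [card_biUnion_pairs hτ (Finset.filter_subset _ _), hD.1 B (Finset.mem_filter.1 hB').1] at h1
  omega

end

end Pool.Agent.N86.S6
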