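import Pool.Agent.N86.S6.Inv

/-!
# The involutions `x ↦ α - s² / (x - α)` of the projective line
-/

set_option autoImplicit false

namespace Pool.Agent.N86.S6

open Finset Matrix

variable {K : Type*} [Field K] [DecidableEq K]

/-- the permutation of the projective line given by an element of `SL(2, K)` -/
def slPerm (A : SpecialLinearGroup (Fin 2) K) : Equiv.Perm (OnePoint K) :=
  MulAction.toPerm (SpecialLinearGroup.toGL A)

lemma slPerm_infty (A : SpecialLinearGroup (Fin 2) K) :
    slPerm A OnePoint.infty = if A 1 0 = 0 then OnePoint.infty else ((A 0 0 / A 1 0 : K) : OnePoint K) := by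
  unfold slPerm
  rw [MulAction.toPerm_apply, OnePoint.smul_infty_eq_ite]
  rfl

lemma slPerm_coe (A : SpecialLinearGroup (Fin 2) K) (x : K) :
    slPerm A (x : OnePoint K) = if A 1 0 * x + A 1 1 = 0 then OnePoint.infty
      else (((A 0 0 * x + A 0 1) / (A 1 0 * x + A 1 1) : K) : OnePoint K) := by
  unfold slPerm
  rw [MulAction.toPerm_apply, OnePoint.smul_some_eq_ite]
  rfl

/-- the matrix of the involution -/
def tauMat (α : K) (s : Kˣ) : SpecialLinearGroup (Fin 2) K :=
  ⟨!![α * (s : K)⁻¹, -((s : K) + α ^ 2 * (s : K)⁻¹); (s : K)⁻¹, -(α * (s : K)⁻¹)], by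
    have h : (s : K) ≠ 0 := s.ne_zero
    rw [Matrix.det_fin_two_of]
    field_simp
    ring⟩

/-- the involution `x ↦ α - s² / (x - α)` -/
def tau (α : K) (s : Kˣ) : Equiv.Perm (OnePoint K) := slPerm (tauMat α s)

lemma tau_infty (α : K) (s : Kˣ) : tau α s OnePoint.infty = (α : OnePoint K) := by
  have h : (s : K) ≠ 0 := s.ne_zero
  rw [tau, slPerm_infty]
  have h1 : (tauMat α s) 1 0 = (s : K)⁻¹ := rfl
  have h2 : (tauMat α s) 0 0 = α * (s : K)⁻¹ := rfl
  rw [h1, h2, if_neg (inv_ne_zero h)]
  congr 1
  field_simp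

lemma tau_coe_self (α : K) (s : Kˣ) : tau α s (α : OnePoint K) = OnePoint.infty := by
  rw [tau, slPerm_coe]
  have h1 : (tauMat α s) 1 0 = (s : K)⁻¹ := rfl
  have h3 : (tauMat α s) 1 1 = -(α * (s : K)⁻¹) := rfl
  rw [h1, h3, if_pos (by ring)]

lemma tau_coe (α : K) (s : Kˣ) (x : K) (hx : x ≠ α) :
    tau α s (x : OnePoint K) = ((α - (s : K) ^ 2 / (x - α) : K) : OnePoint K) := by
  have h : (s : K) ≠ 0 := s.ne_zero
  have hx' : x - α ≠ 0 := sub_ne_zero.2 hx
  rw [tau, slPerm_coe]
  have h1 : (tauMat α s) 1 0 = (s : K)⁻¹ := rfl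
  have h2 : (tauMat α s) 0 0 = α * (s : K)⁻¹ := rfl
  have h3 : (tauMat α s) 1 1 = -(α * (s : K)⁻¹) := rfl
  have h4 : (tauMat α s) 0 1 = -((s : K) + α ^ 2 * (s : K)⁻¹) := rfl
  have h5 : (s : K)⁻¹ * x + -(α * (s : K)⁻¹) = (s : K)⁻¹ * (x - α) := by ring
  rw [h1, h2, h3, h4, h5, if_neg (mul_ne_zero (inv_ne_zero h) hx')]
  congr 1
  field_simp
  ring

lemma tau_tau (α : K) (s : Kˣ) (x : OnePoint K) : tau α s (tau α s x) = x := by
  have h : (s : K) ≠ 0 := s.ne_zero
  induction x using OnePoint.rec with
  | infty => rw [tau_infty, tau_coe_self]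
  | coe x =>
    by_cases hx : x = α
    · rw [hx, tau_coe_self, tau_infty]
    · have hx' : x - α ≠ 0 := sub_ne_zero.2 hx
      rw [tau_coe α s x hx, tau_coe α s]
      · congr 1
        have h2 : α - (s : K) ^ 2 / (x - α) - α = -((s : K) ^ 2 / (x - α)) := by ring
        rw [h2]
        field_simp
        ring
      · intro h2
        have h3 : (s : K) ^ 2 / (x - α) = 0 := by linear_combination -h2
        rw [div_eq_zero_iff] at h3
        rcases h3 with h3 | h3
        · exact h (pow_eq_zero_iff (two_ne_zero) |>.1 h3)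
        · exact hx' h3

lemma tau_fixed (α : K) (s : Kˣ) (x : OnePoint K) (hx : tau α s x = x) :
    ∃ y : K, x = y ∧ (y - α) ^ 2 = -(s : K) ^ 2 := by
  induction x using OnePoint.rec with
  | infty => rw [tau_infty] at hx; exact absurd hx (OnePoint.coe_ne_infty _)
  | coe x =>
    by_cases h : x = α
    · rw [h, tau_coe_self] at hx; exact absurd hx.symm (OnePoint.coe_ne_infty _)
    · rw [tau_coe α s x h, OnePoint.coe_eq_coe] at hx
      have hx' : x - α ≠ 0 := sub_ne_zero.2 h
      refine ⟨x, rfl, ?_⟩
      field_simp at hx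
      linear_combination -hx

/-- equality on the projective line is decidable (classically) -/
noncomputable instance decLine : DecidableEq (OnePoint K) := Classical.decEq _

variable [Fintype K]

lemma card_fixed_le (α : K) (s : Kˣ) :
    ((univ : Finset (OnePoint K)).filter (fun x => tau α s x = x)).card ≤ 2 := by
  classical
  by_contra hcon
  rw [not_le, Finset.two_lt_card_iff] at hcon
  obtain ⟨a, b, c, ha, hb, hc, hab, hac, hbc⟩ := hcon
  simp only [Finset.mem_filter, Finset.mem_univ, true_and] at ha hb hc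
  obtain ⟨a', rfl, ha'⟩ := tau_fixed α s a ha
  obtain ⟨b', rfl, hb'⟩ := tau_fixed α s b hb
  obtain ⟨c', rfl, hc'⟩ := tau_fixed α s c hc
  have hab' : a' ≠ b' := fun h => hab (by rw [h])
  have hac' : a' ≠ c' := fun h => hac (by rw [h])
  have hbc' : b' ≠ c' := fun h => hbc (by rw [h])
  have h1 : (a' - b') * (a' + b' - 2 * α) = 0 := by linear_combination ha' - hb'
  have h2 : (a' - c') * (a' + c' - 2 * α) = 0 := by linear_combination ha' - hc'
  have h3 := (mul_eq_zero.1 h1).resolve_left (sub_ne_zero.2 hab')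
  have h4 := (mul_eq_zero.1 h2).resolve_left (sub_ne_zero.2 hac')
  exact hbc' (by linear_combination h3 - h4)

lemma card_line : Fintype.card (OnePoint K) = Fintype.card K + 1 := Fintype.card_option

lemma card_pairs_tau (α : K) (s : Kˣ) : Fintype.card K / 2 ≤ (pairs (tau α s)).card := by
  classical
  have h1 := two_mul_card_pairs (tau_tau α s)
  have h2 := Finset.card_filter_add_card_filter_not (s := (univ : Finset (OnePoint K)))
    (fun x => tau α s x = x)
  have h3 := card_fixed_le α s
  rw [Finset.card_univ, card_line] at h2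
  have h4 : (univ.filter (fun x => tau α s x ≠ x)).card =
    (univ.filter (fun x => ¬ tau α s x = x)).card := rfl
  omega

/-- the set of the involutions -/
noncomputable def invs (K : Type*) [Field K] [DecidableEq K] [Fintype K] : Finset (Equiv.Perm (OnePoint K)) :=
  (univ : Finset (K × Kˣ)).image (fun x => tau x.1 x.2)

lemma tau_inj {α β : K} {s t : Kˣ} (h : tau α s = tau β t) :
    α = β ∧ (s : K) ^ 2 = (t : K) ^ 2 := by
  have h1 : α = β := by
    have := congrArg (fun f => f OnePoint.infty) h
    simp only [tau_infty] at this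
    exact OnePoint.coe_injective this
  subst h1
  refine ⟨rfl, ?_⟩
  have hne : α + 1 ≠ α := by
    intro h
    exact one_ne_zero (α := K) (by linear_combination h)
  have := congrArg (fun f => f ((α + 1 : K) : OnePoint K)) h
  simp only [tau_coe α _ (α + 1) hne] at this
  have h2 := OnePoint.coe_injective this
  have h3 : α + 1 - α = 1 := by ring
  rw [h3, div_one, div_one] at h2
  linear_combination -h2

lemma card_invs (K : Type*) [Field K] [DecidableEq K] [Fintype K] :
    Fintype.card K * (Fintype.card K - 1) ≤ 2 * (invs K).card := by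
  classical
  have h1 : (univ : Finset (K × Kˣ)).card = Fintype.card K * (Fintype.card K - 1) := by
    rw [Finset.card_univ, Fintype.card_prod, Fintype.card_units]
  rw [← h1]
  refine Finset.card_le_mul_card_image _ 2 ?_
  intro τ hτ
  rw [Finset.mem_image] at hτ
  obtain ⟨⟨α, s⟩, -, rfl⟩ := hτ
  have h2 : (univ : Finset (K × Kˣ)).filter (fun x => tau x.1 x.2 = tau α s) ⊆
      {(α, s), (α, -s)} := by
    rintro ⟨β, t⟩ h
    rw [Finset.mem_filter] at h
    obtain ⟨h3, h4⟩ := tau_inj h.2
    simp only at h3 h4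
    subst h3
    have h5 : t = s ∨ t = -s := by
      have : ((t : K) - s) * (t + s) = 0 := by linear_combination h4
      rcases mul_eq_zero.1 this with h6 | h6
      · left; ext; linear_combination h6
      · right; ext; rw [Units.val_neg]; linear_combination h6
    rw [Finset.mem_insert, Finset.mem_singleton]
    rcases h5 with rfl | rfl
    · left; rfl
    · right; rfl
  refine (Finset.card_le_card h2).trans Finset.card_le_two

lemma one_notMem_invs (K : Type*) [Field K] [DecidableEq K] [Fintype K] : 1 ∉ invs K := by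
  intro h
  rw [invs, Finset.mem_image] at h
  obtain ⟨⟨α, s⟩, -, h⟩ := h
  have := congrArg (fun f => f OnePoint.infty) h
  simp only [tau_infty] at this
  exact OnePoint.coe_ne_infty _ this

end Pool.Agent.N86.S6
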