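import Pool.Agent.N86.S6.Even

/-!
# Small block sizes: Moebius transformations and the block size eight
-/

set_option autoImplicit false

namespace Pool.Agent.N86.S6

open Finset Matrix

variable {K : Type*} [Field K] [DecidableEq K]

/-- the matrix `(P, Q; R, T) / s` -/
def mobM (P Q R T s : K) (h : P * T - Q * R = s ^ 2) (hs : s ≠ 0) : SpecialLinearGroup (Fin 2) K :=
  ⟨!![P / s, Q / s; R / s, T / s], by
    rw [Matrix.det_fin_two_of]
    field_simp
    exact h⟩

section mob
variable (P Q R T s : K) (h : P * T - Q * R = s ^ 2) (hs : s ≠ 0)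

lemma mob_coe (x : K) (hx : R * x + T ≠ 0) :
    slPerm (mobM P Q R T s h hs) (x : OnePoint K) = (((P * x + Q) / (R * x + T) : K) : OnePoint K) := by
  have h1 : (mobM P Q R T s h hs) 1 0 = R / s := rfl
  have h2 : (mobM P Q R T s h hs) 1 1 = T / s := rfl
  have h3 : (mobM P Q R T s h hs) 0 0 = P / s := rfl
  have h4 : (mobM P Q R T s h hs) 0 1 = Q / s := rfl
  have h5 : R / s * x + T / s = (R * x + T) / s := by field_simp
  have h6 : P / s * x + Q / s = (P * x + Q) / s := by field_simp
  rw [slPerm_coe, h1, h2, h3, h4, h5, h6, if_neg (div_ne_zero hx hs)]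
  congr 1
  field_simp

lemma mob_coe' (x : K) (hx : R * x + T = 0) :
    slPerm (mobM P Q R T s h hs) (x : OnePoint K) = OnePoint.infty := by
  have h1 : (mobM P Q R T s h hs) 1 0 = R / s := rfl
  have h2 : (mobM P Q R T s h hs) 1 1 = T / s := rfl
  have h5 : R / s * x + T / s = (R * x + T) / s := by field_simp
  rw [slPerm_coe, h1, h2, h5, hx, zero_div, if_pos rfl]

lemma mob_infty (hR : R ≠ 0) :
    slPerm (mobM P Q R T s h hs) OnePoint.infty = ((P / R : K) : OnePoint K) := by
  have h1 : (mobM P Q R T s h hs) 1 0 = R / s := rfl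
  have h3 : (mobM P Q R T s h hs) 0 0 = P / s := rfl
  rw [slPerm_infty, h1, h3, if_neg (div_ne_zero hR hs)]
  congr 1
  field_simp

lemma mob_infty' (hR : R = 0) :
    slPerm (mobM P Q R T s h hs) OnePoint.infty = OnePoint.infty := by
  have h1 : (mobM P Q R T s h hs) 1 0 = R / s := rfl
  have h2 : R / s = 0 := by rw [hR, zero_div]
  rw [slPerm_infty, h1, if_pos h2]

end mob

section designs
variable [Fintype K] {k : ℕ} {𝓑 : Finset (Finset (OnePoint K))}

/-- if six points of the block `B` go to points of the block `B'`, then `B` goes to `B'` -/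
lemma image_block (hD : IsDesign 6 k 1 𝓑)
    (hSL : ∀ A : SpecialLinearGroup (Fin 2) K, ∀ B ∈ 𝓑, B.image (slPerm A) ∈ 𝓑)
    (A : SpecialLinearGroup (Fin 2) K) {B B' : Finset (OnePoint K)} (hB : B ∈ 𝓑) (hB' : B' ∈ 𝓑)
    (S : Finset (OnePoint K)) (hS : S.card = 6) (hSB : S ⊆ B) (h : ∀ x ∈ S, slPerm A x ∈ B') :
    ∀ y ∈ B, slPerm A y ∈ B' := by
  have h1 : B.image (slPerm A) = B' := by
    refine block_unique hD (hSL A B hB) hB' (S := S.image (slPerm A)) ?_ ?_ ?_
    · rw [Finset.card_image_of_injective _ (slPerm A).injective, hS]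
    · exact Finset.image_subset_image hSB
    · rw [Finset.image_subset_iff]; exact h
  intro y hy
  rw [← h1]
  exact Finset.mem_image_of_mem _ hy

omit [DecidableEq K] in
lemma exists_omega (h : 3 ∣ Fintype.card K - 1) : ∃ w : K, w ^ 2 + w + 1 = 0 ∧ w ≠ 1 := by
  classical
  have h1 : 3 ∣ Fintype.card Kˣ := by rwa [Fintype.card_units]
  have : Fact (Nat.Prime 3) := ⟨Nat.prime_three⟩
  obtain ⟨u, hu⟩ := exists_prime_orderOf_dvd_card 3 h1
  have hu1 : u ≠ 1 := by
    rintro rfl
    rw [orderOf_one] at hu
    norm_num at hu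
  have hu3 : u ^ 3 = 1 := by rw [← hu]; exact pow_orderOf_eq_one u
  have h2 : (u : K) ≠ 1 := by
    intro h3
    exact hu1 (Units.ext (by rw [h3, Units.val_one]))
  have h3 : (u : K) ^ 3 = 1 := by
    rw [← Units.val_pow_eq_pow_val, hu3, Units.val_one]
  refine ⟨u, ?_, h2⟩
  have h4 : ((u : K) - 1) * ((u : K) ^ 2 + u + 1) = 0 := by linear_combination h3
  exact (mul_eq_zero.1 h4).resolve_left (sub_ne_zero.2 h2)

section omega
variable (w : K) (hw : w ^ 2 + w + 1 = 0) (hw1 : w ≠ 1) (a : K) (ha0 : a ≠ 0) (ha1 : a ≠ 1)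
  (haw : a ≠ w) (haw2 : a ≠ w ^ 2)

/-- two orbits of `x ↦ w x` -/
noncomputable def six (w a : K) : Finset (OnePoint K) :=
  {((1 : K) : OnePoint K), (w : OnePoint K), ((w ^ 2 : K) : OnePoint K), (a : OnePoint K),
    ((w * a : K) : OnePoint K), ((w ^ 2 * a : K) : OnePoint K)}

/-- the block -/
noncomputable def eight (w a : K) : Finset (OnePoint K) :=
  insert OnePoint.infty (insert ((0 : K) : OnePoint K) (six w a))

include hw hw1

omit [Fintype K] [DecidableEq K] in
lemma w_ne : w ≠ 0 := by
  rintro rfl
  exact one_ne_zero (α := K) (by linear_combination hw)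

omit [Fintype K] [DecidableEq K] in
lemma w_cube : w ^ 3 = 1 := by linear_combination (w - 1) * hw

include ha0 ha1 haw haw2

omit [Fintype K] in
lemma six_card : (six w a).card = 6 := by
  have hw0 := w_ne w hw hw1
  have h3 := w_cube w hw hw1
  have hws : w ^ 2 ≠ 1 := by
    intro h
    exact hw1 (by linear_combination h3 - w * h)
  have hww : w ^ 2 ≠ w := by
    intro h
    exact hw1 (mul_left_cancel₀ hw0 (by linear_combination h))
  unfold six
  rw [Finset.card_insert_of_notMem, Finset.card_insert_of_notMem, Finset.card_insert_of_notMem,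
    Finset.card_insert_of_notMem, Finset.card_insert_of_notMem, Finset.card_singleton]
  · rw [Finset.mem_singleton, OnePoint.coe_eq_coe]
    intro h
    exact hww (mul_right_cancel₀ ha0 h).symm
  · simp only [Finset.mem_insert, Finset.mem_singleton, OnePoint.coe_eq_coe, not_or]
    refine ⟨fun h => ?_, fun h => ?_⟩
    · exact hw1 (mul_right_cancel₀ ha0 (by linear_combination -h))
    · exact hws (mul_right_cancel₀ ha0 (by linear_combination -h))
  · simp only [Finset.mem_insert, Finset.mem_singleton, OnePoint.coe_eq_coe, not_or]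
    refine ⟨fun h => ?_, fun h => ?_, fun h => ?_⟩
    · exact haw2 h.symm
    · exact haw (mul_left_cancel₀ hw0 (by linear_combination -h))
    · exact ha1 (mul_left_cancel₀ (pow_ne_zero 2 hw0) (by linear_combination -h))
  · simp only [Finset.mem_insert, Finset.mem_singleton, OnePoint.coe_eq_coe, not_or]
    refine ⟨fun h => ?_, fun h => ?_, fun h => ?_, fun h => ?_⟩
    · exact hww h.symm
    · exact haw h.symm
    · exact ha1 (mul_left_cancel₀ hw0 (by linear_combination -h))
    · exact haw2 (mul_left_cancel₀ (pow_ne_zero 2 hw0) (by linear_combination -h - w * h3))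
  · simp only [Finset.mem_insert, Finset.mem_singleton, OnePoint.coe_eq_coe, not_or]
    refine ⟨fun h => ?_, fun h => ?_, fun h => ?_, fun h => ?_, fun h => ?_⟩
    · exact hw1 h.symm
    · exact hws h.symm
    · exact ha1 h.symm
    · exact haw2 (mul_left_cancel₀ hw0 (by linear_combination -h - h3))
    · exact haw (mul_left_cancel₀ (pow_ne_zero 2 hw0) (by linear_combination -h - h3))

omit [Fintype K] in
lemma eight_card : (eight w a).card = 8 := by
  have hw0 := w_ne w hw hw1
  unfold eight
  rw [Finset.card_insert_of_notMem, Finset.card_insert_of_notMem, six_card w hw hw1 a ha0 ha1 haw haw2]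
  · simp only [six, Finset.mem_insert, Finset.mem_singleton, OnePoint.coe_eq_coe, not_or]
    refine ⟨zero_ne_one, hw0.symm, (pow_ne_zero 2 hw0).symm, ha0.symm, (mul_ne_zero hw0 ha0).symm,
      (mul_ne_zero (pow_ne_zero 2 hw0) ha0).symm⟩
  · simp only [six, Finset.mem_insert, Finset.mem_singleton, OnePoint.infty_ne_coe, or_self,
      not_false_eq_true]

/-- the blocks of size eight -/
lemma eight_block (hD : IsDesign 6 8 1 𝓑)
    (hSL : ∀ A : SpecialLinearGroup (Fin 2) K, ∀ B ∈ 𝓑, B.image (slPerm A) ∈ 𝓑) :
    eight w a ∈ 𝓑 := by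
  classical
  have hw0 := w_ne w hw hw1
  have h3 := w_cube w hw hw1
  have hc := six_card w hw hw1 a ha0 ha1 haw haw2
  have hc8 := eight_card w hw hw1 a ha0 ha1 haw haw2
  obtain ⟨B, hB, hSB⟩ := block_exists hD hc
  have hdet : w * 1 - 0 * 0 = (w ^ 2) ^ 2 := by linear_combination -w * h3
  set ρ := slPerm (mobM w 0 0 1 (w ^ 2) hdet (pow_ne_zero 2 hw0)) with hρ
  have hρc : ∀ x : K, ρ (x : OnePoint K) = ((w * x : K) : OnePoint K) := by
    intro x
    rw [hρ, mob_coe _ _ _ _ _ _ _ x (by simp)]
    congr 1
    simp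
  have hρi : ρ OnePoint.infty = OnePoint.infty := mob_infty' _ _ _ _ _ _ _ rfl
  have hSρ : ∀ x ∈ six w a, ρ x ∈ six w a := by
    intro x hx
    simp only [six, Finset.mem_insert, Finset.mem_singleton] at hx ⊢
    rcases hx with rfl | rfl | rfl | rfl | rfl | rfl
    · right; left
      rw [hρc, mul_one]
    · right; right; left
      rw [hρc, sq]
    · left
      rw [hρc, OnePoint.coe_eq_coe]
      linear_combination h3
    · right; right; right; right; left
      rw [hρc]
    · right; right; right; right; right
      rw [hρc, OnePoint.coe_eq_coe]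
      ring
    · right; right; right; left
      rw [hρc, OnePoint.coe_eq_coe]
      linear_combination a * h3
  have hBρ : B.image ρ = B := by
    refine block_unique hD (hSL _ B hB) hB (S := (six w a).image ρ) ?_ (Finset.image_subset_image hSB) ?_
    · rw [Finset.card_image_of_injective _ ρ.injective, hc]
    · rw [Finset.image_subset_iff]
      exact fun x hx => hSB (hSρ x hx)
  have hρ3 : ∀ x, ρ (ρ (ρ x)) = x := by
    intro x
    induction x using OnePoint.rec with
    | infty => rw [hρi, hρi, hρi]
    | coe x =>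
      rw [hρc, hρc, hρc, OnePoint.coe_eq_coe]
      linear_combination x * h3
  have hm := card_mod_three ρ hρ3 B hBρ
  rw [hD.1 B hB] at hm
  have hF : B.filter (fun x => ρ x = x) ⊆ {OnePoint.infty, ((0 : K) : OnePoint K)} := by
    intro x hx
    rw [Finset.mem_filter] at hx
    rw [Finset.mem_insert, Finset.mem_singleton]
    have hx2 := hx.2
    clear hx
    induction x using OnePoint.rec with
    | infty => left; rfl
    | coe x =>
      right
      rw [hρc, OnePoint.coe_eq_coe] at hx2
      rw [OnePoint.coe_eq_coe]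
      by_contra hx0
      exact hw1 (mul_right_cancel₀ hx0 (by linear_combination hx2))
  have hFc : (B.filter (fun x => ρ x = x)).card ≤ 2 := by
    refine (Finset.card_le_card hF).trans ?_
    refine (Finset.card_insert_le _ _).trans ?_
    rw [Finset.card_singleton]
  have hF2 : ({OnePoint.infty, ((0 : K) : OnePoint K)} : Finset (OnePoint K)).card = 2 := by
    rw [Finset.card_insert_of_notMem, Finset.card_singleton]
    simp
  have hFe : B.filter (fun x => ρ x = x) = {OnePoint.infty, ((0 : K) : OnePoint K)} := by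
    refine Finset.eq_of_subset_of_card_le hF ?_
    rw [hF2]
    omega
  have hinf : OnePoint.infty ∈ B := by
    have : (OnePoint.infty : OnePoint K) ∈ B.filter (fun x => ρ x = x) := by rw [hFe]; simp
    exact (Finset.mem_filter.1 this).1
  have hzero : ((0 : K) : OnePoint K) ∈ B := by
    have : ((0 : K) : OnePoint K) ∈ B.filter (fun x => ρ x = x) := by rw [hFe]; simp
    exact (Finset.mem_filter.1 this).1
  have hsub : eight w a ⊆ B := by
    unfold eight
    rw [Finset.insert_subset_iff, Finset.insert_subset_iff]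
    exact ⟨hinf, hzero, hSB⟩
  have : eight w a = B := Finset.eq_of_subset_of_card_le hsub (by rw [hc8, hD.1 B hB])
  rw [this]
  exact hB

end omega

/-- in a finite field of order `3 (mod 4)` -/
lemma square_or (hq : Fintype.card K % 4 = 3) (x : K) : IsSquare x ∨ IsSquare (-x) := by
  by_cases hx : IsSquare x
  · left; exact hx
  · right
    have hx0 : x ≠ 0 := fun h => hx (by rw [h]; exact ⟨0, by simp⟩)
    have h1 : ¬ IsSquare (-1 : K) := by
      rw [FiniteField.isSquare_neg_one_iff]
      omega
    have hF : ringChar K ≠ 2 := by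
      intro h
      rw [FiniteField.even_card_iff_char_two] at h
      omega
    have e1 : quadraticChar K x = -1 := quadraticChar_neg_one_iff_not_isSquare.2 hx
    have e2 : quadraticChar K (-1) = -1 := quadraticChar_neg_one_iff_not_isSquare.2 h1
    have e3 : quadraticChar K (-x) = 1 := by
      rw [show -x = -1 * x by ring, map_mul, e1, e2]
      norm_num
    exact (quadraticChar_one_iff_isSquare (neg_ne_zero.2 hx0)).1 e3

/-- block size eight, `q` odd -/
theorem eight_odd (hD : IsDesign 6 8 1 𝓑)
    (hSL : ∀ A : SpecialLinearGroup (Fin 2) K, ∀ B ∈ 𝓑, B.image (slPerm A) ∈ 𝓑)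
    (hq4 : Fintype.card K % 4 = 3) (hq3 : 3 ∣ Fintype.card K - 1) : (7 : K) = 0 := by
  classical
  obtain ⟨w, hw, hw1, hsq⟩ : ∃ w : K, w ^ 2 + w + 1 = 0 ∧ w ≠ 1 ∧ IsSquare (1 - w) := by
    obtain ⟨w, hw, hw1⟩ := exists_omega hq3
    have hw0 := w_ne w hw hw1
    have h3 := w_cube w hw hw1
    rcases square_or hq4 (1 - w) with h | h
    · exact ⟨w, hw, hw1, h⟩
    · obtain ⟨t, ht⟩ := h
      refine ⟨w ^ 2, ?_, ?_, ⟨w * t, ?_⟩⟩
      · linear_combination hw + w * h3
      · intro h4
        exact hw1 (by linear_combination h3 - w * h4)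
      · linear_combination w ^ 2 * ht - h3
  obtain ⟨t, ht⟩ := hsq
  have hw0 := w_ne w hw hw1
  have h3 := w_cube w hw hw1
  have h20 : (2 : K) ≠ 0 := two_ne_zero_of_odd (by rw [Nat.odd_iff]; omega)
  have h30 : (3 : K) ≠ 0 := by
    intro h
    have : (w - 1) ^ 2 = 0 := by linear_combination hw - w * h
    exact hw1 (sub_eq_zero.1 (pow_eq_zero_iff two_ne_zero |>.1 this))
  have ht0 : t ≠ 0 := by
    rintro rfl
    exact hw1 (by linear_combination -ht)
  have h1w : w - 1 ≠ 0 := sub_ne_zero.2 hw1
  by_contra h70
  have ha1 : (-1 : K) ≠ 1 := fun h => h20 (by linear_combination -h)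
  have haw : (-1 : K) ≠ w := fun h => one_ne_zero (α := K) (by
    linear_combination hw + (w - 1 + 1) * h)
  have haw2 : (-1 : K) ≠ w ^ 2 := fun h => hw0 (by linear_combination hw + h)
  have hB := eight_block w hw hw1 (-1) (neg_ne_zero.2 one_ne_zero) ha1 haw haw2 hD hSL
  have hdet : w * -w - -w * 1 = (w ^ 2 * t) ^ 2 := by
    linear_combination w ^ 4 * ht + (w ^ 2 - w) * h3
  set A := mobM w (-w) 1 (-w) (w ^ 2 * t) hdet (mul_ne_zero (pow_ne_zero 2 hw0) ht0) with hA
  let S : Finset (OnePoint K) := {OnePoint.infty, ((0 : K) : OnePoint K), ((1 : K) : OnePoint K),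
    (w : OnePoint K), ((w ^ 2 : K) : OnePoint K), ((-w ^ 2 : K) : OnePoint K)}
  have hww : w ^ 2 ≠ w := by
    intro h
    exact hw1 (mul_left_cancel₀ hw0 (by linear_combination h))
  have hws : w ^ 2 ≠ 1 := by
    intro h
    exact hw1 (by linear_combination h3 - w * h)
  have hw20 : w ^ 2 ≠ 0 := pow_ne_zero 2 hw0
  have hS : S.card = 6 := by
    rw [Finset.card_insert_of_notMem, Finset.card_insert_of_notMem, Finset.card_insert_of_notMem,
      Finset.card_insert_of_notMem, Finset.card_insert_of_notMem, Finset.card_singleton]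
    · rw [Finset.mem_singleton, OnePoint.coe_eq_coe]
      intro h
      have : (2 : K) * w ^ 2 = 0 := by linear_combination h
      exact (mul_ne_zero h20 hw20) this
    · simp only [Finset.mem_insert, Finset.mem_singleton, OnePoint.coe_eq_coe, not_or]
      refine ⟨fun h => hww h.symm, fun h => ?_⟩
      exact one_ne_zero (α := K) (by linear_combination hw - h)
    · simp only [Finset.mem_insert, Finset.mem_singleton, OnePoint.coe_eq_coe, not_or]
      refine ⟨fun h => hw1 h.symm, fun h => hws h.symm, fun h => ?_⟩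
      exact hw0 (by linear_combination hw - h)
    · simp only [Finset.mem_insert, Finset.mem_singleton, OnePoint.coe_eq_coe, not_or]
      exact ⟨zero_ne_one, hw0.symm, hw20.symm, (neg_ne_zero.2 hw20).symm⟩
    · simp
  have hSB : S ⊆ eight w (-1) := by
    intro x hx
    simp only [S, eight, six, Finset.mem_insert, Finset.mem_singleton] at hx ⊢
    rcases hx with rfl | rfl | rfl | rfl | rfl | rfl
    · simp
    · simp
    · simp
    · simp
    · simp
    · right; right; right; right; right; right; right
      rw [OnePoint.coe_eq_coe]; ring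
  have hSσ : ∀ x ∈ S, slPerm A x ∈ eight w (-1) := by
    intro x hx
    simp only [S, Finset.mem_insert, Finset.mem_singleton] at hx
    simp only [eight, six, Finset.mem_insert, Finset.mem_singleton]
    rcases hx with rfl | rfl | rfl | rfl | rfl | rfl
    · right; right; right; left
      rw [hA, mob_infty _ _ _ _ _ _ _ one_ne_zero, div_one]
    · right; right; left
      rw [hA, mob_coe _ _ _ _ _ _ _ _ (by rw [mul_zero, zero_add]; exact neg_ne_zero.2 hw0),
        OnePoint.coe_eq_coe]
      rw [mul_zero, zero_add, mul_zero, zero_add, div_self (neg_ne_zero.2 hw0)]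
    · right; left
      rw [hA, mob_coe _ _ _ _ _ _ _ _ (by
        intro h; exact hw1 (by linear_combination -h)), OnePoint.coe_eq_coe, mul_one,
        add_neg_cancel, zero_div]
    · left
      rw [hA, mob_coe' _ _ _ _ _ _ _ _ (by ring)]
    · right; right; right; right; right; right; right
      have hd : 1 * w ^ 2 + -w ≠ 0 := by
        intro h; exact hww (by linear_combination h)
      rw [hA, mob_coe _ _ _ _ _ _ _ _ hd, OnePoint.coe_eq_coe, div_eq_iff hd]
      linear_combination w * h3
    · right; right; right; right; left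
      have hd : 1 * -w ^ 2 + -w ≠ 0 := by
        intro h
        exact one_ne_zero (α := K) (by linear_combination hw + h)
      rw [hA, mob_coe _ _ _ _ _ _ _ _ hd, OnePoint.coe_eq_coe, div_eq_iff hd]
      linear_combination w * h3
  have hkey := image_block hD hSL A hB hB S hS hSB hSσ ((-1 : K) : OnePoint K) (by
    simp [eight, six])
  have hd : 1 * (-1 : K) + -w ≠ 0 := by
    intro h
    exact hw20 (by linear_combination hw + h)
  have hval : (w * -1 + -w) / (1 * (-1 : K) + -w) = -2 * w ^ 2 := by
    rw [div_eq_iff hd]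
    linear_combination -2 * w * hw
  rw [hA, mob_coe _ _ _ _ _ _ _ _ hd, hval] at hkey
  simp only [eight, six, Finset.mem_insert, Finset.mem_singleton, OnePoint.coe_eq_coe] at hkey
  have h90 : (9 : K) ≠ 0 := by
    have : (9 : K) = 3 * 3 := by norm_num
    rw [this]
    exact mul_ne_zero h30 h30
  rcases hkey with h | h | h | h | h | h | h | h
  · exact absurd h (OnePoint.coe_ne_infty _)
  · exact (mul_ne_zero (neg_ne_zero.2 h20) hw20) (by linear_combination h)
  · have e : w + 2 = 0 := by linear_combination -w * h - 2 * h3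
    exact h30 (by linear_combination hw - (w - 1) * e)
  · exact hw1 (by linear_combination hw + w * h + 2 * h3)
  · exact (mul_ne_zero h30 hw20) (by linear_combination -h)
  · have e : w - 2 = 0 := by linear_combination w * h + 2 * h3
    exact h70 (by linear_combination hw - (w + 3) * e)
  · have e : w ^ 2 - 2 = 0 := by linear_combination w * h + 2 * h3
    have e2 : w + 3 = 0 := by linear_combination hw - e
    exact h70 (by linear_combination e - (w - 3) * e2)
  · exact hw20 (by linear_combination -h)

end designs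

end Pool.Agent.N86.S6
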