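import Pool.Agent.N86.S6.Par

/-!
# Designs on the projective line over a field of odd order
-/

set_option autoImplicit false

namespace Pool.Agent.N86.S6

open Finset Matrix

variable {K : Type*} [Field K] [DecidableEq K]

lemma tau01_coe (x : K) (hx : x ≠ 0) : tau 0 1 (x : OnePoint K) = ((-x⁻¹ : K) : OnePoint K) := by
  rw [tau_coe 0 1 x hx]
  congr 1
  rw [Units.val_one, one_pow, sub_zero, zero_sub, one_div]

/-- the matrix of `x ↦ -x` -/
def negM (i : K) (hi : i ^ 2 = -1) : SpecialLinearGroup (Fin 2) K :=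
  ⟨!![i, 0; 0, -i], by rw [Matrix.det_fin_two_of]; linear_combination -hi⟩

/-- the matrix of `x ↦ 1 / x` -/
def invM (i : K) (hi : i ^ 2 = -1) : SpecialLinearGroup (Fin 2) K :=
  ⟨!![0, i; i, 0], by rw [Matrix.det_fin_two_of]; linear_combination -hi⟩

/-- the permutation `x ↦ -x`, for `i ^ 2 = -1` -/
def negP (i : K) (hi : i ^ 2 = -1) : Equiv.Perm (OnePoint K) := slPerm (negM i hi)

/-- the permutation `x ↦ 1 / x`, for `i ^ 2 = -1` -/
def invP (i : K) (hi : i ^ 2 = -1) : Equiv.Perm (OnePoint K) := slPerm (invM i hi)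

section
variable (i : K) (hi : i ^ 2 = -1)
include hi

lemma i_ne : i ≠ 0 := by
  rintro rfl
  have : (1 : K) = 0 := by linear_combination hi
  exact one_ne_zero this

lemma negP_infty : negP i hi OnePoint.infty = OnePoint.infty := by
  have h1 : (negM i hi) 1 0 = 0 := rfl
  rw [negP, slPerm_infty, h1, if_pos rfl]

lemma negP_coe (x : K) : negP i hi (x : OnePoint K) = ((-x : K) : OnePoint K) := by
  have h0 := i_ne i hi
  rw [negP, slPerm_coe]
  have h1 : (negM i hi) 1 0 = 0 := rfl
  have h2 : (negM i hi) 1 1 = -i := rfl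
  have h3 : (negM i hi) 0 0 = i := rfl
  have h4 : (negM i hi) 0 1 = 0 := rfl
  simp only [h1, h2, h3, h4]
  rw [zero_mul, zero_add, if_neg (neg_ne_zero.2 h0)]
  congr 1
  field_simp
  ring

lemma invP_infty : invP i hi OnePoint.infty = ((0 : K) : OnePoint K) := by
  have h0 := i_ne i hi
  rw [invP, slPerm_infty]
  have h1 : (invM i hi) 1 0 = i := rfl
  have h3 : (invM i hi) 0 0 = 0 := rfl
  simp only [h1, h3]
  rw [if_neg h0, zero_div]

lemma invP_zero : invP i hi ((0 : K) : OnePoint K) = OnePoint.infty := by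
  rw [invP, slPerm_coe]
  have h1 : (invM i hi) 1 0 = i := rfl
  have h2 : (invM i hi) 1 1 = 0 := rfl
  simp only [h1, h2]
  rw [mul_zero, zero_add, if_pos rfl]

lemma invP_coe (x : K) (hx : x ≠ 0) : invP i hi (x : OnePoint K) = ((x⁻¹ : K) : OnePoint K) := by
  have h0 := i_ne i hi
  rw [invP, slPerm_coe]
  have h1 : (invM i hi) 1 0 = i := rfl
  have h2 : (invM i hi) 1 1 = 0 := rfl
  have h3 : (invM i hi) 0 0 = 0 := rfl
  have h4 : (invM i hi) 0 1 = i := rfl
  simp only [h1, h2, h3, h4]
  rw [add_zero, if_neg (mul_ne_zero h0 hx)]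
  congr 1
  field_simp
  ring

lemma negP_negP (x : OnePoint K) : negP i hi (negP i hi x) = x := by
  induction x using OnePoint.rec with
  | infty => rw [negP_infty, negP_infty]
  | coe x => rw [negP_coe, negP_coe, neg_neg]

lemma invP_invP (x : OnePoint K) : invP i hi (invP i hi x) = x := by
  induction x using OnePoint.rec with
  | infty => rw [invP_infty, invP_zero]
  | coe x =>
    by_cases hx : x = 0
    · rw [hx, invP_zero, invP_infty]
    · rw [invP_coe i hi x hx, invP_coe i hi _ (inv_ne_zero hx), inv_inv]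

lemma negP_invP (x : OnePoint K) : negP i hi (invP i hi x) = invP i hi (negP i hi x) := by
  induction x using OnePoint.rec with
  | infty => rw [invP_infty, negP_infty, invP_infty, negP_coe, neg_zero]
  | coe x =>
    by_cases hx : x = 0
    · rw [hx, invP_zero, negP_infty, negP_coe, neg_zero, invP_zero]
    · rw [invP_coe i hi x hx, negP_coe, negP_coe, invP_coe i hi _ (neg_ne_zero.2 hx), inv_neg]

end

/-- the six points `∞, 0, 1, -1, i, -i` -/
noncomputable def octa (i : K) : Finset (OnePoint K) :=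
  {OnePoint.infty, ((0 : K) : OnePoint K), ((1 : K) : OnePoint K), ((-1 : K) : OnePoint K),
    (i : OnePoint K), ((-i : K) : OnePoint K)}

section
variable (i : K) (hi : i ^ 2 = -1) (h2 : (2 : K) ≠ 0)
include hi h2

lemma octa_facts : i ≠ 0 ∧ (-i : K) ≠ 0 ∧ (1 : K) ≠ -1 ∧ (1 : K) ≠ i ∧ (1 : K) ≠ -i ∧
    (-1 : K) ≠ i ∧ (-1 : K) ≠ -i ∧ i ≠ -i := by
  have h0 := i_ne i hi
  refine ⟨h0, neg_ne_zero.2 h0, ?_, ?_, ?_, ?_, ?_, ?_⟩
  · intro h; exact h2 (by linear_combination h)
  · intro h; exact h2 (by rw [← h] at hi; linear_combination hi)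
  · intro h
    exact h2 (by linear_combination hi + (1 - i) * h)
  · intro h; exact h2 (by rw [← h] at hi; linear_combination hi)
  · intro h
    exact h2 (by linear_combination hi + (-1 - i) * h)
  · intro h
    have : 2 * i = 0 := by linear_combination h
    rcases mul_eq_zero.1 this with h3 | h3
    · exact h2 h3
    · exact h0 h3

lemma octa_card : (octa i).card = 6 := by
  obtain ⟨f1, f2, f3, f4, f5, f6, f7, f8⟩ := octa_facts i hi h2
  have c1 : ∀ x : K, (OnePoint.infty : OnePoint K) ≠ (x : OnePoint K) :=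
    fun x => (OnePoint.coe_ne_infty x).symm
  unfold octa
  rw [Finset.card_insert_of_notMem, Finset.card_insert_of_notMem, Finset.card_insert_of_notMem,
    Finset.card_insert_of_notMem, Finset.card_insert_of_notMem, Finset.card_singleton]
  · rw [Finset.mem_singleton, OnePoint.coe_eq_coe]; exact f8
  · simp only [Finset.mem_insert, Finset.mem_singleton, OnePoint.coe_eq_coe, not_or]
    exact ⟨f6, f7⟩
  · simp only [Finset.mem_insert, Finset.mem_singleton, OnePoint.coe_eq_coe, not_or]
    exact ⟨f3, f4, f5⟩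
  · simp only [Finset.mem_insert, Finset.mem_singleton, OnePoint.coe_eq_coe, not_or]
    exact ⟨zero_ne_one, (neg_ne_zero.2 one_ne_zero).symm, f1.symm, f2.symm⟩
  · simp only [Finset.mem_insert, Finset.mem_singleton, not_or]
    exact ⟨c1 _, c1 _, c1 _, c1 _, c1 _⟩

omit h2 in
lemma octa_neg : (octa i).image (negP i hi) = octa i := by
  have h : ∀ x ∈ octa i, negP i hi x ∈ octa i := by
    intro x hx
    simp only [octa, Finset.mem_insert, Finset.mem_singleton] at hx ⊢
    rcases hx with rfl | rfl | rfl | rfl | rfl | rfl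
    · left; exact negP_infty i hi
    · right; left; rw [negP_coe, neg_zero]
    · right; right; right; left; exact negP_coe i hi 1
    · right; right; left; rw [negP_coe, neg_neg]
    · right; right; right; right; right; exact negP_coe i hi i
    · right; right; right; right; left; rw [negP_coe, neg_neg]
  refine Finset.eq_of_subset_of_card_le ?_ ?_
  · rw [Finset.image_subset_iff]; exact h
  · rw [Finset.card_image_of_injective _ (negP i hi).injective]

omit h2 in
lemma octa_inv : (octa i).image (invP i hi) = octa i := by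
  have h0 := i_ne i hi
  have hinv : i⁻¹ = -i := inv_eq_of_mul_eq_one_right (by linear_combination -hi)
  have h : ∀ x ∈ octa i, invP i hi x ∈ octa i := by
    intro x hx
    simp only [octa, Finset.mem_insert, Finset.mem_singleton] at hx ⊢
    rcases hx with rfl | rfl | rfl | rfl | rfl | rfl
    · right; left; exact invP_infty i hi
    · left; exact invP_zero i hi
    · right; right; left; rw [invP_coe i hi _ one_ne_zero, inv_one]
    · right; right; right; left
      rw [invP_coe i hi _ (neg_ne_zero.2 one_ne_zero), inv_neg, inv_one]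
    · right; right; right; right; right; rw [invP_coe i hi _ h0, hinv]
    · right; right; right; right; left
      rw [invP_coe i hi _ (neg_ne_zero.2 h0), inv_neg, hinv, neg_neg]
  refine Finset.eq_of_subset_of_card_le ?_ ?_
  · rw [Finset.image_subset_iff]; exact h
  · rw [Finset.card_image_of_injective _ (invP i hi).injective]

lemma free_neg (x : OnePoint K) (hx : x ∉ octa i) : negP i hi x ≠ x := by
  intro h
  apply hx
  simp only [octa, Finset.mem_insert, Finset.mem_singleton]
  induction x using OnePoint.rec with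
  | infty => left; rfl
  | coe x =>
    rw [negP_coe, OnePoint.coe_eq_coe] at h
    right; left
    rw [OnePoint.coe_eq_coe]
    have : 2 * x = 0 := by linear_combination -h
    exact (mul_eq_zero.1 this).resolve_left h2

omit h2 in
lemma free_inv (x : OnePoint K) (hx : x ∉ octa i) : invP i hi x ≠ x := by
  intro h
  apply hx
  simp only [octa, Finset.mem_insert, Finset.mem_singleton]
  induction x using OnePoint.rec with
  | infty => left; rfl
  | coe x =>
    by_cases hx0 : x = 0
    · right; left; rw [hx0]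
    · rw [invP_coe i hi x hx0, OnePoint.coe_eq_coe] at h
      have h3 : (x - 1) * (x + 1) = 0 := by
        field_simp at h
        linear_combination -h
      rcases mul_eq_zero.1 h3 with h4 | h4
      · right; right; left; rw [OnePoint.coe_eq_coe]; linear_combination h4
      · right; right; right; left; rw [OnePoint.coe_eq_coe]; linear_combination h4

omit h2 in
lemma free_prod (x : OnePoint K) (hx : x ∉ octa i) : negP i hi (invP i hi x) ≠ x := by
  intro h
  apply hx
  simp only [octa, Finset.mem_insert, Finset.mem_singleton]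
  induction x using OnePoint.rec with
  | infty => left; rfl
  | coe x =>
    by_cases hx0 : x = 0
    · right; left; rw [hx0]
    · rw [invP_coe i hi x hx0, negP_coe, OnePoint.coe_eq_coe] at h
      have h3 : (x - i) * (x + i) = 0 := by
        field_simp at h
        linear_combination -h - hi
      rcases mul_eq_zero.1 h3 with h4 | h4
      · right; right; right; right; left; rw [OnePoint.coe_eq_coe]; linear_combination h4
      · right; right; right; right; right; rw [OnePoint.coe_eq_coe]; linear_combination h4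

end

section designs
variable [Fintype K] {k lam : ℕ} {𝓑 : Finset (Finset (OnePoint K))}

/-- `q ≡ 3 (mod 4)`: the involution `x ↦ -1 / x` has no fixed points -/
lemma tau_free (hq : Fintype.card K % 4 = 3) (x : OnePoint K) : tau (0 : K) 1 x ≠ x := by
  intro h
  obtain ⟨y, -, hy⟩ := tau_fixed 0 1 x h
  have h1 : IsSquare (-1 : K) := ⟨y, by
    rw [sub_zero, Units.val_one, one_pow] at hy
    rw [← hy, sq]⟩
  rw [FiniteField.isSquare_neg_one_iff] at h1
  exact h1 hq

theorem even_of_three (hD : IsDesign 6 k lam 𝓑) (hlam : Odd lam)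
    (hSL : ∀ A : SpecialLinearGroup (Fin 2) K, ∀ B ∈ 𝓑, B.image (slPerm A) ∈ 𝓑)
    (hq : Fintype.card K % 4 = 3) (hq6 : 6 ≤ Fintype.card K) : Even k := by
  have h1 := card_pairs_tau (0 : K) 1
  obtain ⟨T, hT, hT3⟩ := Finset.exists_subset_card_eq
    (show 3 ≤ (pairs (tau (0 : K) 1)).card by omega)
  obtain ⟨B, hB, hBτ, -⟩ := exists_inv_block hD hlam (tau 0 1) (tau_tau 0 1) (fun B hB => hSL _ B hB)
    (T.biUnion id) (by rw [card_biUnion_pairs (tau_tau 0 1) hT, hT3])
    (image_biUnion_pairs (tau_tau 0 1) hT)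
  rw [← hD.1 B hB]
  exact even_of_free _ (tau_tau 0 1) B hBτ (fun x _ => tau_free hq x)

theorem four_of_one (hD : IsDesign 6 k lam 𝓑) (hlam : Odd lam)
    (hSL : ∀ A : SpecialLinearGroup (Fin 2) K, ∀ B ∈ 𝓑, B.image (slPerm A) ∈ 𝓑)
    (i : K) (hi : i ^ 2 = -1) (h2 : (2 : K) ≠ 0) : k % 4 = 2 := by
  classical
  obtain ⟨B, hB, hBa, hBb, hSB⟩ := exists_inv_block_two hD hlam (negP i hi) (invP i hi)
    (negP_negP i hi) (invP_invP i hi) (negP_invP i hi) (fun B hB => hSL _ B hB)
    (fun B hB => hSL _ B hB) (octa i) (octa_card i hi h2) (octa_neg i hi) (octa_inv i hi)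
  have hsd : ∀ τ : Equiv.Perm (OnePoint K), B.image τ = B → (octa i).image τ = octa i →
      (B \ octa i).image τ = B \ octa i := by
    intro τ h3 h4
    rw [Finset.image_sdiff _ _ τ.injective, h3, h4]
  have h3 := four_dvd_of_free (negP i hi) (invP i hi) (negP_negP i hi) (invP_invP i hi)
    (negP_invP i hi) (B \ octa i) (hsd _ hBa (octa_neg i hi)) (hsd _ hBb (octa_inv i hi))
    (fun x hx => free_neg i hi h2 x (Finset.mem_sdiff.1 hx).2)
    (fun x hx => free_inv i hi x (Finset.mem_sdiff.1 hx).2)
    (fun x hx => free_prod i hi x (Finset.mem_sdiff.1 hx).2)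
  rw [Finset.card_sdiff_of_subset hSB, octa_card i hi h2, hD.1 B hB] at h3
  have h4 : 6 ≤ k := by
    rw [← hD.1 B hB, ← octa_card i hi h2]
    exact Finset.card_le_card hSB
  omega

theorem dvd_of_three (hD : IsDesign 6 k 1 𝓑)
    (hSL : ∀ A : SpecialLinearGroup (Fin 2) K, ∀ B ∈ 𝓑, B.image (slPerm A) ∈ 𝓑)
    (hq : Fintype.card K % 4 = 3) (hq6 : 6 ≤ Fintype.card K) : k - 4 ∣ Fintype.card K - 3 := by
  classical
  have h1 := card_pairs_tau (0 : K) 1
  obtain ⟨T, hT, hT2⟩ := Finset.exists_subset_card_eq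
    (show 2 ≤ (pairs (tau (0 : K) 1)).card by omega)
  have hQ : (T.biUnion id).card = 4 := by rw [card_biUnion_pairs (tau_tau 0 1) hT, hT2]
  have h3 := dvd_of_four hD (tau 0 1) (tau_tau 0 1) (fun B hB => hSL _ B hB) (T.biUnion id)
    hQ (image_biUnion_pairs (tau_tau 0 1) hT) (univ \ T.biUnion id)
    (fun x => by
      rw [Finset.mem_sdiff]
      exact ⟨fun h => ⟨h.2, tau_free hq x⟩, fun h => ⟨Finset.mem_univ _, h.1⟩⟩)
    (fun _ _ _ _ x _ _ => tau_free hq x)
  rw [Finset.card_sdiff_of_subset (Finset.subset_univ _), Finset.card_univ, card_line, hQ] at h3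
  have h4 : Fintype.card K + 1 - 4 = Fintype.card K - 3 := by omega
  rwa [h4] at h3

theorem dvd_of_one (hD : IsDesign 6 k 1 𝓑)
    (hSL : ∀ A : SpecialLinearGroup (Fin 2) K, ∀ B ∈ 𝓑, B.image (slPerm A) ∈ 𝓑)
    (i : K) (hi : i ^ 2 = -1) (h2 : (2 : K) ≠ 0) : k - 4 ∣ Fintype.card K - 3 := by
  classical
  obtain ⟨f1, f2, f3, f4, f5, f6, f7, f8⟩ := octa_facts i hi h2
  let Q : Finset (OnePoint K) := {OnePoint.infty, ((0 : K) : OnePoint K), (i : OnePoint K),
    ((-i : K) : OnePoint K)}
  have c1 : ∀ x : K, (OnePoint.infty : OnePoint K) ≠ (x : OnePoint K) :=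
    fun x => (OnePoint.coe_ne_infty x).symm
  have hinv : i⁻¹ = -i := inv_eq_of_mul_eq_one_right (by linear_combination -hi)
  have hQ : Q.card = 4 := by
    simp only [Q]
    rw [Finset.card_insert_of_notMem, Finset.card_insert_of_notMem, Finset.card_insert_of_notMem,
      Finset.card_singleton]
    · rw [Finset.mem_singleton, OnePoint.coe_eq_coe]; exact f8
    · simp only [Finset.mem_insert, Finset.mem_singleton, OnePoint.coe_eq_coe, not_or]
      exact ⟨f1.symm, f2.symm⟩
    · simp only [Finset.mem_insert, Finset.mem_singleton, not_or]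
      exact ⟨c1 _, c1 _, c1 _⟩
  have hQm : ∀ x ∈ Q, tau (0 : K) 1 x ∈ Q := by
    intro x hx
    simp only [Q, Finset.mem_insert, Finset.mem_singleton] at hx ⊢
    rcases hx with rfl | rfl | rfl | rfl
    · right; left; exact tau_infty 0 1
    · left; exact tau_coe_self 0 1
    · right; right; left; rw [tau01_coe i f1, hinv, neg_neg]
    · right; right; right; rw [tau01_coe (-i) f2, inv_neg, hinv, neg_neg]
  have hQτ : Q.image (tau 0 1) = Q := by
    refine Finset.eq_of_subset_of_card_le ?_ ?_
    · rw [Finset.image_subset_iff]; exact hQm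
    · rw [Finset.card_image_of_injective _ (tau 0 1).injective]
  have hfree : ∀ x, x ∉ Q → tau (0 : K) 1 x ≠ x := by
    intro x hx h
    obtain ⟨y, rfl, hy⟩ := tau_fixed 0 1 x h
    apply hx
    simp only [Q, Finset.mem_insert, Finset.mem_singleton, OnePoint.coe_eq_coe]
    rw [sub_zero, Units.val_one, one_pow] at hy
    have h3 : (y - i) * (y + i) = 0 := by linear_combination hy - hi
    rcases mul_eq_zero.1 h3 with h4 | h4
    · right; right; left; linear_combination h4
    · right; right; right; linear_combination h4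
  have h3 := dvd_of_four hD (tau 0 1) (tau_tau 0 1) (fun B hB => hSL _ B hB) Q hQ hQτ (univ \ Q)
    (fun x => by
      rw [Finset.mem_sdiff]
      exact ⟨fun h => ⟨h.2, hfree x h.2⟩, fun h => ⟨Finset.mem_univ _, h.1⟩⟩)
    (fun _ _ _ _ x _ hx => hfree x hx)
  rw [Finset.card_sdiff_of_subset (Finset.subset_univ _), Finset.card_univ, card_line, hQ] at h3
  have h4 : Fintype.card K + 1 - 4 = Fintype.card K - 3 := by omega
  rwa [h4] at h3

/-- for a finite field of odd order -/
lemma two_ne_zero_of_odd (hq : Odd (Fintype.card K)) : (2 : K) ≠ 0 := by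
  intro h
  have h1 : ringChar K = 2 := by
    have h3 : ringChar K ∣ 2 := (ringChar.spec K 2).1 (by exact_mod_cast h)
    rcases (Nat.dvd_prime Nat.prime_two).1 h3 with h4 | h4
    · exact absurd h4 (by
        have := CharP.ringChar_ne_one (R := K)
        exact this)
    · exact h4
  rw [FiniteField.even_card_iff_char_two] at h1
  rw [Nat.odd_iff] at hq
  omega

lemma exists_i (hq : Fintype.card K % 4 = 1) : ∃ i : K, i ^ 2 = -1 := by
  have h1 : IsSquare (-1 : K) := by
    rw [FiniteField.isSquare_neg_one_iff]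
    omega
  obtain ⟨i, hi⟩ := h1
  exact ⟨i, by rw [hi, sq]⟩

/-- the conditions for `q` odd -/
theorem odd_case (hD : IsDesign 6 k 1 𝓑)
    (hSL : ∀ A : SpecialLinearGroup (Fin 2) K, ∀ B ∈ 𝓑, B.image (slPerm A) ∈ 𝓑)
    (hk : 6 ≤ k) (hkq : k ≤ Fintype.card K) (hq : Odd (Fintype.card K)) :
    (k - 4) * (k - 5) ∣ Fintype.card K + 1 - k := by
  have h1 : k - 4 ∣ Fintype.card K - 3 := by
    rcases Nat.odd_mod_four_iff.1 (Nat.odd_iff.1 hq) with h | h
    · obtain ⟨i, hi⟩ := exists_i h
      exact dvd_of_one hD hSL i hi (two_ne_zero_of_odd hq)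
    · exact dvd_of_three hD hSL h (by omega)
  have h2 := divisibility hD 5 (by norm_num) (by rw [card_line]; omega)
  rw [show 6 - 5 = 1 from rfl, Nat.choose_one_right, Nat.choose_one_right, card_line] at h2
  have h3 : k - 4 ∣ Fintype.card K + 1 - k := by
    have h4 : Fintype.card K - 3 = (Fintype.card K + 1 - k) + (k - 4) := by omega
    rw [h4] at h1
    exact (Nat.dvd_add_left (dvd_refl _)).1 h1
  have h5 : k - 5 ∣ Fintype.card K + 1 - k := by
    have h4 : Fintype.card K + 1 - 5 = (Fintype.card K + 1 - k) + (k - 5) := by omega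
    rw [h4] at h2
    exact (Nat.dvd_add_left (dvd_refl _)).1 h2
  refine Nat.Coprime.mul_dvd_of_dvd_of_dvd ?_ h3 h5
  have h6 : k - 4 = (k - 5) + 1 := by omega
  rw [h6]
  simp

end designs

end Pool.Agent.N86.S6
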