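import Pool.Agent.N86.S6.Design

/-!
# Counting pairs (automorphism, fixed block)
-/

set_option autoImplicit false

namespace Pool.Agent.N86.S6

open Finset

variable {X : Type*} [Fintype X] [DecidableEq X]

/-- If each block is an image of one of the members of `R` under an element of `G`, then the number
of pairs `(g, B)`, `g ∈ G`, `g B = B`, is at most `|R| |G|`. -/
theorem orbit_count {𝓑 R : Finset (Finset X)} (G : Finset (Equiv.Perm X))
    (hmul : ∀ g ∈ G, ∀ h ∈ G, g * h ∈ G)
    (hR : ∀ B ∈ 𝓑, ∃ A ∈ R, ∃ g ∈ G, B = A.image g) :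
    ∑ g ∈ G, (𝓑.filter (fun B => B.image g = B)).card ≤ R.card * G.card := by
  classical
  have hex : ∀ B, ∃ A : Finset X, ∃ g : Equiv.Perm X, B ∈ 𝓑 → A ∈ R ∧ g ∈ G ∧ B = A.image g := by
    intro B
    by_cases hB : B ∈ 𝓑
    · obtain ⟨A, hA, g, hg, h⟩ := hR B hB
      exact ⟨A, g, fun _ => ⟨hA, hg, h⟩⟩
    · exact ⟨∅, 1, fun h => absurd h hB⟩
  choose A h hAh using hex
  have h1 : ∑ g ∈ G, (𝓑.filter (fun B => B.image g = B)).card =
      ((G ×ˢ 𝓑).filter (fun x => x.2.image x.1 = x.2)).card := by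
    rw [Finset.card_filter, Finset.sum_product]
    refine Finset.sum_congr rfl fun g _ => ?_
    rw [Finset.card_filter]
  rw [h1, ← Finset.card_product]
  refine Finset.card_le_card_of_injOn (fun x => (A x.2, x.1 * h x.2)) ?_ ?_
  · rintro ⟨g, B⟩ hx
    rw [Finset.mem_coe, Finset.mem_filter, Finset.mem_product] at hx
    rw [Finset.mem_coe, Finset.mem_product]
    have h2 := hAh B hx.1.2
    exact ⟨h2.1, hmul _ hx.1.1 _ h2.2.1⟩
  · rintro ⟨g, B⟩ hx ⟨g', B'⟩ hx' heq
    rw [Finset.mem_coe, Finset.mem_filter, Finset.mem_product] at hx hx'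
    have h2 := hAh B hx.1.2
    have h3 := hAh B' hx'.1.2
    simp only [Prod.mk.injEq] at heq
    have h4 : ∀ (u w : Equiv.Perm X) (C : Finset X), C.image (u * w) = (C.image w).image u := by
      intro u w C
      rw [Finset.image_image]
      rfl
    have h5 : B = (A B).image (g * h B) := by
      rw [h4, ← h2.2.2]
      exact hx.2.symm
    have h6 : B' = (A B').image (g' * h B') := by
      rw [h4, ← h3.2.2]
      exact hx'.2.symm
    have h7 : B = B' := by rw [h5, h6, heq.1, heq.2]
    subst h7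
    have h8 : g = g' := mul_right_cancel heq.2
    rw [h8]

end Pool.Agent.N86.S6
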