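import Pool.Agent.N86.S6.Mob

/-!
# Small block sizes: eight (even order), nine, ten, eleven
-/

set_option autoImplicit false

namespace Pool.Agent.N86.S6

open Finset Matrix

variable {K : Type*} [Field K] [DecidableEq K] [Fintype K] {k : ℕ}
  {𝓑 : Finset (Finset (OnePoint K))}

omit [DecidableEq K] in
/-- an element outside the zeros of a nonzero polynomial of small degree -/
lemma exists_nonroot (f : Polynomial K) (hf : f ≠ 0) (h : f.natDegree < Fintype.card K) :
    ∃ a : K, f.eval a ≠ 0 := by
  classical
  by_contra hcon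
  push Not at hcon
  have h1 : Fintype.card K ≤ f.natDegree := by
    rw [← Finset.card_univ]
    refine Polynomial.card_le_degree_of_subset_roots (p := f) ?_
    intro a _
    exact Multiset.mem_toFinset.1 (by
      rw [Multiset.mem_toFinset, Polynomial.mem_roots hf]
      exact hcon a)
  omega

/-- block size eight, `q` even -/
theorem eight_even (hD : IsDesign 6 8 1 𝓑)
    (hSL : ∀ A : SpecialLinearGroup (Fin 2) K, ∀ B ∈ 𝓑, B.image (slPerm A) ∈ 𝓑)
    (h2 : (2 : K) = 0) (hq3 : 3 ∣ Fintype.card K - 1) (hq : 5 ≤ Fintype.card K) : False := by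
  classical
  obtain ⟨w, hw, hw1⟩ := exists_omega hq3
  have hw0 := w_ne w hw hw1
  have h3 := w_cube w hw hw1
  have hw20 : w ^ 2 ≠ 0 := pow_ne_zero 2 hw0
  obtain ⟨a, ha⟩ : ∃ a : K, a ∉ ({0, 1, w, w ^ 2} : Finset K) := by
    by_contra hcon
    push Not at hcon
    have h1 : (univ : Finset K) ⊆ {0, 1, w, w ^ 2} := fun x _ => hcon x
    have h5 := Finset.card_le_card h1
    rw [Finset.card_univ] at h5
    have h6 : ({0, 1, w, w ^ 2} : Finset K).card ≤ 4 := Finset.card_le_four
    omega
  simp only [Finset.mem_insert, Finset.mem_singleton, not_or] at ha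
  obtain ⟨ha0, ha1, haw, haw2⟩ := ha
  have hb0 : a + 1 ≠ 0 := fun h => ha1 (by linear_combination h - h2)
  have hb1 : a + 1 ≠ 1 := fun h => ha0 (by linear_combination h)
  have hbw : a + 1 ≠ w := fun h => haw2 (by linear_combination h + hw - (1 + w ^ 2) * h2)
  have hbw2 : a + 1 ≠ w ^ 2 := fun h => haw (by linear_combination h + hw - (1 + w) * h2)
  have hB := eight_block w hw hw1 a ha0 ha1 haw haw2 hD hSL
  have hB' := eight_block w hw hw1 (a + 1) hb0 hb1 hbw hbw2 hD hSL
  have hdet : (1 : K) * 1 - 1 * 0 = 1 ^ 2 := by ring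
  set A := mobM (1 : K) 1 0 1 1 hdet one_ne_zero with hA
  have hAc : ∀ x : K, slPerm A (x : OnePoint K) = ((x + 1 : K) : OnePoint K) := by
    intro x
    rw [hA, mob_coe _ _ _ _ _ _ _ x (by simp)]
    congr 1
    simp
  have hAi : slPerm A OnePoint.infty = OnePoint.infty := by
    rw [hA, mob_infty' _ _ _ _ _ _ _ rfl]
  let S : Finset (OnePoint K) := {OnePoint.infty, ((0 : K) : OnePoint K), ((1 : K) : OnePoint K),
    (w : OnePoint K), ((w ^ 2 : K) : OnePoint K), (a : OnePoint K)}
  have hww : w ^ 2 ≠ w := by
    intro h
    exact hw1 (mul_left_cancel₀ hw0 (by linear_combination h))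
  have hws : w ^ 2 ≠ 1 := by
    intro h
    exact hw1 (by linear_combination h3 - w * h)
  have hS : S.card = 6 := by
    rw [Finset.card_insert_of_notMem, Finset.card_insert_of_notMem, Finset.card_insert_of_notMem,
      Finset.card_insert_of_notMem, Finset.card_insert_of_notMem, Finset.card_singleton]
    · rw [Finset.mem_singleton, OnePoint.coe_eq_coe]
      exact fun h => haw2 h.symm
    · simp only [Finset.mem_insert, Finset.mem_singleton, OnePoint.coe_eq_coe, not_or]
      exact ⟨fun h => hww h.symm, fun h => haw h.symm⟩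
    · simp only [Finset.mem_insert, Finset.mem_singleton, OnePoint.coe_eq_coe, not_or]
      exact ⟨fun h => hw1 h.symm, fun h => hws h.symm, fun h => ha1 h.symm⟩
    · simp only [Finset.mem_insert, Finset.mem_singleton, OnePoint.coe_eq_coe, not_or]
      exact ⟨zero_ne_one, hw0.symm, hw20.symm, fun h => ha0 h.symm⟩
    · simp
  have hSB : S ⊆ eight w a := by
    intro x hx
    simp only [S, eight, six, Finset.mem_insert, Finset.mem_singleton] at hx ⊢
    rcases hx with rfl | rfl | rfl | rfl | rfl | rfl <;> simp
  have hSA : ∀ x ∈ S, slPerm A x ∈ eight w (a + 1) := by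
    intro x hx
    simp only [S, Finset.mem_insert, Finset.mem_singleton] at hx
    simp only [eight, six, Finset.mem_insert, Finset.mem_singleton]
    rcases hx with rfl | rfl | rfl | rfl | rfl | rfl
    · left; exact hAi
    · right; right; left
      rw [hAc, zero_add]
    · right; left
      rw [hAc, OnePoint.coe_eq_coe]
      linear_combination h2
    · right; right; right; right; left
      rw [hAc, OnePoint.coe_eq_coe]
      linear_combination hw - w ^ 2 * h2
    · right; right; right; left
      rw [hAc, OnePoint.coe_eq_coe]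
      linear_combination hw - w * h2
    · right; right; right; right; right; left
      rw [hAc]
  have hkey := image_block hD hSL A hB hB' S hS hSB hSA ((w * a : K) : OnePoint K) (by
    simp [eight, six])
  rw [hAc] at hkey
  simp only [eight, six, Finset.mem_insert, Finset.mem_singleton, OnePoint.coe_eq_coe] at hkey
  rcases hkey with h | h | h | h | h | h | h | h
  · exact absurd h (OnePoint.coe_ne_infty _)
  · -- w a + 1 = 0
    exact haw2 (mul_left_cancel₀ hw0 (by linear_combination h - h3 - h2))
  · exact (mul_ne_zero hw0 ha0) (by linear_combination h)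
  · -- w a + 1 = w
    exact haw (mul_left_cancel₀ hw0 (by linear_combination h + hw - (1 + w ^ 2) * h2))
  · -- w a + 1 = w²
    exact ha1 (mul_left_cancel₀ hw0 (by linear_combination h + hw - (1 + w) * h2))
  · -- w a + 1 = a + 1
    exact hw1 (mul_right_cancel₀ ha0 (by linear_combination h))
  · -- w a + 1 = w (a + 1)
    exact hw1 (by linear_combination -h)
  · -- w a + 1 = w² (a + 1)
    have e : a + w = 0 := by
      linear_combination h + (a + 1) * hw + (-w * a - 1 ) * h2
    exact haw (by linear_combination e - w * h2)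

/-- block size nine -/
theorem nine (hD : IsDesign 6 9 1 𝓑)
    (hSL : ∀ A : SpecialLinearGroup (Fin 2) K, ∀ B ∈ 𝓑, B.image (slPerm A) ∈ 𝓑)
    (h2 : (2 : K) = 0) (hq : 11 ≤ Fintype.card K) : False := by
  classical
  -- the blocks
  have hblock : ∀ x : K, x ≠ 0 → x + 1 ≠ 0 → x ^ 2 + x + 1 ≠ 0 →
      insert OnePoint.infty (insert ((0 : K) : OnePoint K) (insert ((1 : K) : OnePoint K)
        (hexa x))) ∈ 𝓑 := by
    intro x hx0 hx1 hx2
    have hc := hexa_card x h2 hx0 hx1 hx2
    obtain ⟨B, hB, hSB⟩ := block_exists hD hc
    have hBτ : B.image (tau 0 1) = B := by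
      refine block_unique hD (hSL _ B hB) hB hc.ge ?_ hSB
      rw [← hexa_tau x h2 hx0 hx1]
      exact Finset.image_subset_image hSB
    have hBρ : B.image (rho K) = B := by
      refine block_unique hD (hSL _ B hB) hB hc.ge ?_ hSB
      rw [← hexa_rho x h2 hx0 hx1]
      exact Finset.image_subset_image hSB
    have h1 : ((1 : K) : OnePoint K) ∈ B := by
      by_contra hnot
      have he := even_of_free (tau (0 : K) 1) (tau_tau 0 1) B hBτ (by
        intro y hy hfix
        obtain ⟨z, rfl, hz⟩ := tau_fixed 0 1 y hfix
        apply hnot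
        have h5 : (z - 1) ^ 2 = 0 := by
          rw [sub_zero, Units.val_one, one_pow] at hz
          linear_combination hz - z * h2
        have h6 : z = 1 := sub_eq_zero.1 (pow_eq_zero_iff two_ne_zero |>.1 h5)
        rw [← h6]
        exact hy)
      rw [hD.1 B hB] at he
      exact absurd he (by decide)
    have hinf : OnePoint.infty ∈ B := by
      have h5 := mem_of_inv hBρ h1
      have h6 : (1 : K) = -1 := by linear_combination h2
      rw [h6, rho_neg_one] at h5
      exact h5
    have h0 : ((0 : K) : OnePoint K) ∈ B := by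
      have h5 := mem_of_inv hBρ hinf
      rwa [rho_infty] at h5
    have hn1 : ((1 : K) : OnePoint K) ∉ hexa x := by
      simp only [hexa, Finset.mem_insert, Finset.mem_singleton, OnePoint.coe_eq_coe, not_or]
      refine ⟨fun h => ?_, fun h => ?_, fun h => ?_, fun h => ?_, fun h => ?_, fun h => ?_⟩
      · exact hx1 (by linear_combination -h + h2)
      · exact hx0 (by linear_combination -h)
      · field_simp at h
        exact hx1 (by linear_combination h + h2)
      · field_simp at h
        exact hx0 (by linear_combination h)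
      · field_simp at h
        exact one_ne_zero (α := K) (by linear_combination h)
      · field_simp at h
        exact one_ne_zero (α := K) (by linear_combination -h)
    have hn0 : ((0 : K) : OnePoint K) ∉ insert ((1 : K) : OnePoint K) (hexa x) := by
      simp only [hexa, Finset.mem_insert, Finset.mem_singleton, OnePoint.coe_eq_coe, not_or]
      exact ⟨zero_ne_one, hx0.symm, hx1.symm, (inv_ne_zero hx0).symm, (inv_ne_zero hx1).symm,
        (mul_ne_zero hx0 (inv_ne_zero hx1)).symm, (mul_ne_zero hx1 (inv_ne_zero hx0)).symm⟩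
    have hni : OnePoint.infty ∉ insert ((0 : K) : OnePoint K) (insert ((1 : K) : OnePoint K)
        (hexa x)) := by
      simp only [hexa, Finset.mem_insert, Finset.mem_singleton, OnePoint.infty_ne_coe, or_self,
        not_false_eq_true]
    have hcard : (insert OnePoint.infty (insert ((0 : K) : OnePoint K) (insert
        ((1 : K) : OnePoint K) (hexa x)))).card = 9 := by
      rw [Finset.card_insert_of_notMem hni, Finset.card_insert_of_notMem hn0,
        Finset.card_insert_of_notMem hn1, hc]
    have hsub : insert OnePoint.infty (insert ((0 : K) : OnePoint K) (insert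
        ((1 : K) : OnePoint K) (hexa x))) ⊆ B := by
      rw [Finset.insert_subset_iff, Finset.insert_subset_iff, Finset.insert_subset_iff]
      exact ⟨hinf, h0, h1, hSB⟩
    rw [Finset.eq_of_subset_of_card_le hsub (by rw [hcard, hD.1 B hB])]
    exact hB
  -- a generic element
  obtain ⟨a, ha⟩ : ∃ a : K, a * (a + 1) * (a ^ 2 + a + 1) * (a ^ 3 + a + 1) * (a ^ 3 + a ^ 2 + 1) ≠ 0 := by
    open Polynomial in
    let f : K[X] := X * (X + 1) * (X ^ 2 + X + 1) * (X ^ 3 + X + 1) * (X ^ 3 + X ^ 2 + 1)
    have hd : f.natDegree = 10 := by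
      simp only [f]
      compute_degree!
    have hf : f ≠ 0 := by
      intro h
      rw [h] at hd
      simp at hd
    obtain ⟨a, ha⟩ := exists_nonroot f hf (by rw [hd]; omega)
    refine ⟨a, ?_⟩
    simpa [f] using ha
  have hα := left_ne_zero_of_mul ha
  have h7 := right_ne_zero_of_mul ha
  have h6 := right_ne_zero_of_mul hα
  have hβ := left_ne_zero_of_mul hα
  have h5 := right_ne_zero_of_mul hβ
  have hγ := left_ne_zero_of_mul hβ
  have ha1 := right_ne_zero_of_mul hγ
  have ha0 := left_ne_zero_of_mul hγ
  have hB := hblock a ha0 ha1 h5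
  set B := insert OnePoint.infty (insert ((0 : K) : OnePoint K) (insert ((1 : K) : OnePoint K)
        (hexa a))) with hBdef
  -- the transformation x ↦ (a + 1) x / (x + a)
  obtain ⟨t, ht⟩ : IsSquare ((a + 1) * a) := by
    refine FiniteField.isSquare_of_char_two ?_ _
    have h8 : ringChar K ∣ 2 := (ringChar.spec K 2).1 (by exact_mod_cast h2)
    rcases (Nat.dvd_prime Nat.prime_two).1 h8 with h9 | h9
    · exact absurd h9 CharP.ringChar_ne_one
    · exact h9
  have ht0 : t ≠ 0 := by
    rintro rfl
    exact (mul_ne_zero ha1 ha0) (by linear_combination ht)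
  have hdet : (a + 1) * a - 0 * 1 = t ^ 2 := by linear_combination ht
  set A := mobM (a + 1) 0 1 a t hdet ht0 with hA
  have hAv : ∀ x y : K, x + a ≠ 0 → (a + 1) * x = y * (x + a) →
      slPerm A (x : OnePoint K) = (y : OnePoint K) := by
    intro x y hx hxy
    rw [hA, mob_coe _ _ _ _ _ _ _ x (by rw [one_mul]; exact hx), OnePoint.coe_eq_coe,
      div_eq_iff (by rw [one_mul]; exact hx), one_mul, add_zero]
    exact hxy
  have hAa : slPerm A (a : OnePoint K) = OnePoint.infty := by
    rw [hA, mob_coe' _ _ _ _ _ _ _ a (by linear_combination a * h2)]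
  have hAi : slPerm A OnePoint.infty = ((a + 1 : K) : OnePoint K) := by
    rw [hA, mob_infty _ _ _ _ _ _ _ one_ne_zero, div_one]
  let S : Finset (OnePoint K) := {OnePoint.infty, ((0 : K) : OnePoint K), ((1 : K) : OnePoint K),
    (a : OnePoint K), ((a⁻¹ : K) : OnePoint K), ((a * (a + 1)⁻¹ : K) : OnePoint K)}
  have hS : S.card = 6 := by
    rw [Finset.card_insert_of_notMem, Finset.card_insert_of_notMem, Finset.card_insert_of_notMem,
      Finset.card_insert_of_notMem, Finset.card_insert_of_notMem, Finset.card_singleton]
    · rw [Finset.mem_singleton, OnePoint.coe_eq_coe]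
      intro h
      field_simp at h
      exact h5 (by linear_combination h + a ^ 2 * h2)
    · simp only [Finset.mem_insert, Finset.mem_singleton, OnePoint.coe_eq_coe, not_or]
      refine ⟨fun h => ?_, fun h => ?_⟩
      · field_simp at h
        have h8 : (a + 1) ^ 2 = 0 := by linear_combination h + (a + 1) * h2
        exact ha1 (pow_eq_zero_iff two_ne_zero |>.1 h8)
      · field_simp at h
        exact ha0 (by linear_combination h)
    · simp only [Finset.mem_insert, Finset.mem_singleton, OnePoint.coe_eq_coe, not_or]
      refine ⟨fun h => ?_, fun h => ?_, fun h => ?_⟩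
      · exact ha1 (by linear_combination -h + h2)
      · field_simp at h
        exact ha1 (by linear_combination h + h2)
      · field_simp at h
        exact one_ne_zero (α := K) (by linear_combination h)
    · simp only [Finset.mem_insert, Finset.mem_singleton, OnePoint.coe_eq_coe, not_or]
      exact ⟨zero_ne_one, ha0.symm, (inv_ne_zero ha0).symm, (mul_ne_zero ha0 (inv_ne_zero ha1)).symm⟩
    · simp
  have hSB : S ⊆ B := by
    intro x hx
    simp only [S, Finset.mem_insert, Finset.mem_singleton] at hx
    simp only [hBdef, hexa, Finset.mem_insert, Finset.mem_singleton]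
    rcases hx with rfl | rfl | rfl | rfl | rfl | rfl <;> simp
  have hSA : ∀ x ∈ S, slPerm A x ∈ B := by
    intro x hx
    simp only [S, Finset.mem_insert, Finset.mem_singleton] at hx
    simp only [hBdef, hexa, Finset.mem_insert, Finset.mem_singleton]
    rcases hx with rfl | rfl | rfl | rfl | rfl | rfl
    · right; right; right; right; left
      exact hAi
    · right; left
      exact hAv 0 0 (by rw [zero_add]; exact ha0) (by ring)
    · right; right; left
      exact hAv 1 1 (by rw [add_comm]; exact ha1) (by ring)
    · left; exact hAa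
    · right; right; right; right; right; right; left
      refine hAv _ _ ?_ ?_
      · intro h
        field_simp at h
        have h8 : (a + 1) ^ 2 = 0 := by linear_combination h + a * h2
        exact ha1 (pow_eq_zero_iff two_ne_zero |>.1 h8)
      · field_simp
        linear_combination a * h2
    · right; right; right; right; right; right; right; right
      refine hAv _ _ ?_ ?_
      · intro h
        field_simp at h
        have h8 : a ^ 2 = 0 := by linear_combination h - a * h2
        exact ha0 (pow_eq_zero_iff two_ne_zero |>.1 h8)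
      · field_simp
        linear_combination -h2
  have hkey := image_block hD hSL A hB hB S hS hSB hSA ((a + 1 : K) : OnePoint K) (by
    simp [hBdef, hexa])
  rw [hAv (a + 1) ((a + 1) ^ 2) (by
    intro h
    exact one_ne_zero (α := K) (by linear_combination h - a * h2)) (by
    linear_combination -(a + 1) ^ 2 * a * h2)] at hkey
  simp only [hBdef, hexa, Finset.mem_insert, Finset.mem_singleton, OnePoint.coe_eq_coe] at hkey
  rcases hkey with h | h | h | h | h | h | h | h | h
  · exact absurd h (OnePoint.coe_ne_infty _)
  · exact ha1 (pow_eq_zero_iff two_ne_zero |>.1 h)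
  · -- (a+1)² = 1
    have h8 : a ^ 2 = 0 := by linear_combination h - a * h2
    exact ha0 (pow_eq_zero_iff two_ne_zero |>.1 h8)
  · -- (a+1)² = a
    exact h5 (by linear_combination h)
  · -- (a+1)² = a+1
    exact ha0 (mul_left_cancel₀ ha1 (by linear_combination h))
  · -- (a+1)² = 1/a
    field_simp at h
    exact h6 (by linear_combination h + (1 - a ^ 2) * h2)
  · -- (a+1)² = 1/(a+1)
    field_simp at h
    exact h5 (mul_left_cancel₀ ha0 (by linear_combination h - (a ^ 2 + a) * h2))
  · -- (a+1)² = a/(a+1)
    field_simp at h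
    exact h7 (by linear_combination h - (a ^ 2 + a) * h2)
  · -- (a+1)² = (a+1)/a
    field_simp at h
    exact h5 (by linear_combination h + h2)

/-- block size eleven -/
lemma eleven_num (e : ℕ) (h : 11 ≤ 2 ^ e) (hdiv : 56 ∣ (2 ^ e - 2).choose 3) : False := by
  have he : 4 ≤ e := by
    by_contra hcon
    have : e ≤ 3 := by omega
    have := Nat.pow_le_pow_right (n := 2) (by norm_num) this
    omega
  obtain ⟨f, rfl⟩ : ∃ f, e = 4 + f := ⟨e - 4, by omega⟩
  obtain ⟨m, hm⟩ : ∃ m, 2 ^ (4 + f) = 16 * m := ⟨2 ^ f, by rw [pow_add]; norm_num⟩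
  rw [hm] at h hdiv
  obtain ⟨c, hc⟩ := hdiv
  have h1 : (16 * m - 2).choose 3 * 6 = (16 * m - 2) * (16 * m - 3) * (16 * m - 4) := by
    have h2 := Nat.descFactorial_eq_factorial_mul_choose (16 * m - 2) 3
    have h3 : (16 * m - 2).descFactorial 3 = (16 * m - 2) * (16 * m - 3) * (16 * m - 4) := by
      rw [Nat.descFactorial_succ, Nat.descFactorial_succ, Nat.descFactorial_one]
      have e1 : 16 * m - 2 - 2 = 16 * m - 4 := by omega
      have e2 : 16 * m - 2 - 1 = 16 * m - 3 := by omega
      rw [e1, e2]
      ring
    rw [h3] at h2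
    rw [h2]
    have : Nat.factorial 3 = 6 := rfl
    rw [this, mul_comm]
  rw [hc] at h1
  obtain ⟨n, rfl⟩ : ∃ n, m = n + 1 := ⟨m - 1, by omega⟩
  have e1 : 16 * (n + 1) - 2 = 16 * n + 14 := by omega
  have e2 : 16 * (n + 1) - 3 = 16 * n + 13 := by omega
  have e3 : 16 * (n + 1) - 4 = 16 * n + 12 := by omega
  rw [e1, e2, e3] at h1
  have h4 : (16 * n + 14) * (16 * n + 13) * (16 * n + 12) =
      16 * (256 * n ^ 3 + 624 * n ^ 2 + 506 * n + 136) + 8 := by ring
  rw [h4] at h1
  omega

end Pool.Agent.N86.S6
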