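import Pool.Agent.N86.S6.Small

/-!
# Block size ten
-/

set_option autoImplicit false

namespace Pool.Agent.N86.S6

open Finset Matrix

variable {K : Type*} [Field K] [DecidableEq K]

/-- an orbit of `⟨x ↦ x + 1, x ↦ -x⟩` in characteristic three -/
noncomputable def hexb (x : K) : Finset (OnePoint K) :=
  {(x : OnePoint K), ((x + 1 : K) : OnePoint K), ((x - 1 : K) : OnePoint K),
    ((-x : K) : OnePoint K), ((-x + 1 : K) : OnePoint K), ((-x - 1 : K) : OnePoint K)}

/-- the block -/
noncomputable def tenb (x : K) : Finset (OnePoint K) :=
  insert OnePoint.infty (insert ((0 : K) : OnePoint K) (insert ((1 : K) : OnePoint K)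
    (insert ((-1 : K) : OnePoint K) (hexb x))))

section
variable (x : K) (h3 : (3 : K) = 0) (hx0 : x ≠ 0) (hx1 : x ≠ 1) (hxm : x ≠ -1)
include h3 hx0 hx1 hxm

omit [DecidableEq K] in
lemma hexb_card : (hexb x).card = 6 := by
  have h2 : (2 : K) ≠ 0 := fun h => one_ne_zero (α := K) (by linear_combination h3 - h)
  unfold hexb
  rw [Finset.card_insert_of_notMem, Finset.card_insert_of_notMem, Finset.card_insert_of_notMem,
    Finset.card_insert_of_notMem, Finset.card_insert_of_notMem, Finset.card_singleton]
  · rw [Finset.mem_singleton, OnePoint.coe_eq_coe]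
    intro h
    exact h2 (by linear_combination h)
  · simp only [Finset.mem_insert, Finset.mem_singleton, OnePoint.coe_eq_coe, not_or]
    refine ⟨fun h => ?_, fun h => ?_⟩
    · exact one_ne_zero (α := K) (by linear_combination -h)
    · exact one_ne_zero (α := K) (by linear_combination h)
  · simp only [Finset.mem_insert, Finset.mem_singleton, OnePoint.coe_eq_coe, not_or]
    refine ⟨fun h => ?_, fun h => ?_, fun h => ?_⟩
    · exact hxm (by linear_combination -h + x * h3)
    · exact hx1 (by linear_combination -h + (x - 1) * h3)
    · exact hx0 (by linear_combination -h + x * h3)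
  · simp only [Finset.mem_insert, Finset.mem_singleton, OnePoint.coe_eq_coe, not_or]
    refine ⟨fun h => ?_, fun h => ?_, fun h => ?_, fun h => ?_⟩
    · exact h2 (by linear_combination h)
    · exact hx1 (by linear_combination -h + x * h3)
    · exact hx0 (by linear_combination -h + x * h3)
    · exact hxm (by linear_combination -h + (x + 1) * h3)
  · simp only [Finset.mem_insert, Finset.mem_singleton, OnePoint.coe_eq_coe, not_or]
    refine ⟨fun h => ?_, fun h => ?_, fun h => ?_, fun h => ?_, fun h => ?_⟩
    · exact one_ne_zero (α := K) (by linear_combination -h)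
    · exact one_ne_zero (α := K) (by linear_combination h)
    · exact hx0 (by linear_combination -h + x * h3)
    · exact hxm (by linear_combination -h + x * h3)
    · exact hx1 (by linear_combination -h + x * h3)

omit [DecidableEq K] in
lemma tenb_card : (tenb x).card = 10 := by
  have h2 : (2 : K) ≠ 0 := fun h => one_ne_zero (α := K) (by linear_combination h3 - h)
  unfold tenb
  rw [Finset.card_insert_of_notMem, Finset.card_insert_of_notMem, Finset.card_insert_of_notMem,
    Finset.card_insert_of_notMem, hexb_card x h3 hx0 hx1 hxm]
  · simp only [hexb, Finset.mem_insert, Finset.mem_singleton, OnePoint.coe_eq_coe, not_or]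
    refine ⟨fun h => ?_, fun h => ?_, fun h => ?_, fun h => ?_, fun h => ?_, fun h => ?_⟩
    · exact hxm h.symm
    · exact hx1 (by linear_combination -h - h3)
    · exact hx0 (by linear_combination -h)
    · exact hx1 (by linear_combination h)
    · exact hxm (by linear_combination h + h3)
    · exact hx0 (by linear_combination h)
  · simp only [hexb, Finset.mem_insert, Finset.mem_singleton, OnePoint.coe_eq_coe, not_or]
    refine ⟨fun h => ?_, fun h => ?_, fun h => ?_, fun h => ?_, fun h => ?_, fun h => ?_, fun h => ?_⟩
    · exact h2 (by linear_combination h)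
    · exact hx1 h.symm
    · exact hx0 (by linear_combination -h)
    · exact hxm (by linear_combination -h + h3)
    · exact hxm (by linear_combination h)
    · exact hx0 (by linear_combination h)
    · exact hx1 (by linear_combination h - h3)
  · simp only [hexb, Finset.mem_insert, Finset.mem_singleton, OnePoint.coe_eq_coe, not_or]
    refine ⟨zero_ne_one, fun h => ?_, fun h => ?_, fun h => ?_, fun h => ?_, fun h => ?_,
      fun h => ?_, fun h => ?_⟩
    · exact one_ne_zero (α := K) (by linear_combination h)
    · exact hx0 h.symm
    · exact hxm (by linear_combination -h)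
    · exact hx1 (by linear_combination -h)
    · exact hx0 (by linear_combination h)
    · exact hx1 (by linear_combination h)
    · exact hxm (by linear_combination h)
  · simp only [hexb, Finset.mem_insert, Finset.mem_singleton, OnePoint.infty_ne_coe, or_self,
      not_false_eq_true]

/-- the blocks of size ten -/
lemma tenb_block [Fintype K] {𝓑 : Finset (Finset (OnePoint K))} (hD : IsDesign 6 10 1 𝓑)
    (hSL : ∀ A : SpecialLinearGroup (Fin 2) K, ∀ B ∈ 𝓑, B.image (slPerm A) ∈ 𝓑)
    (i : K) (hi : i ^ 2 = -1) : tenb x ∈ 𝓑 := by
  classical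
  have h2 : (2 : K) ≠ 0 := fun h => one_ne_zero (α := K) (by linear_combination h3 - h)
  have hc := hexb_card x h3 hx0 hx1 hxm
  have hc10 := tenb_card x h3 hx0 hx1 hxm
  obtain ⟨B, hB, hSB⟩ := block_exists hD hc
  have hdet : (1 : K) * 1 - 1 * 0 = 1 ^ 2 := by ring
  set ρ := slPerm (mobM (1 : K) 1 0 1 1 hdet one_ne_zero) with hρ
  have hρc : ∀ x : K, ρ (x : OnePoint K) = ((x + 1 : K) : OnePoint K) := by
    intro x
    rw [hρ, mob_coe _ _ _ _ _ _ _ x (by simp)]
    congr 1
    simp
  have hρi : ρ OnePoint.infty = OnePoint.infty := by
    rw [hρ, mob_infty' _ _ _ _ _ _ _ rfl]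
  have hSρ : ∀ y ∈ hexb x, ρ y ∈ hexb x := by
    intro y hy
    simp only [hexb, Finset.mem_insert, Finset.mem_singleton] at hy ⊢
    rcases hy with rfl | rfl | rfl | rfl | rfl | rfl
    · right; left
      rw [hρc]
    · right; right; left
      rw [hρc, OnePoint.coe_eq_coe]
      linear_combination h3
    · left
      rw [hρc, OnePoint.coe_eq_coe]
      ring
    · right; right; right; right; left
      rw [hρc]
    · right; right; right; right; right
      rw [hρc, OnePoint.coe_eq_coe]
      linear_combination h3
    · right; right; right; left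
      rw [hρc, OnePoint.coe_eq_coe]
      ring
  have hSn : ∀ y ∈ hexb x, negP i hi y ∈ hexb x := by
    intro y hy
    simp only [hexb, Finset.mem_insert, Finset.mem_singleton] at hy ⊢
    rcases hy with rfl | rfl | rfl | rfl | rfl | rfl
    · right; right; right; left
      rw [negP_coe]
    · right; right; right; right; right
      rw [negP_coe, OnePoint.coe_eq_coe]; ring
    · right; right; right; right; left
      rw [negP_coe, OnePoint.coe_eq_coe]; ring
    · left
      rw [negP_coe, OnePoint.coe_eq_coe]; ring
    · right; right; left
      rw [negP_coe, OnePoint.coe_eq_coe]; ring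
    · right; left
      rw [negP_coe, OnePoint.coe_eq_coe]; ring
  have hBρ : B.image ρ = B := by
    refine block_unique hD (hSL _ B hB) hB (S := (hexb x).image ρ) ?_ (Finset.image_subset_image hSB) ?_
    · rw [Finset.card_image_of_injective _ ρ.injective, hc]
    · rw [Finset.image_subset_iff]
      exact fun y hy => hSB (hSρ y hy)
  have hBn : B.image (negP i hi) = B := by
    refine block_unique hD (hSL _ B hB) hB (S := (hexb x).image (negP i hi)) ?_
      (Finset.image_subset_image hSB) ?_
    · rw [Finset.card_image_of_injective _ (negP i hi).injective, hc]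
    · rw [Finset.image_subset_iff]
      exact fun y hy => hSB (hSn y hy)
  have hρ3 : ∀ y, ρ (ρ (ρ y)) = y := by
    intro y
    induction y using OnePoint.rec with
    | infty => rw [hρi, hρi, hρi]
    | coe y =>
      rw [hρc, hρc, hρc, OnePoint.coe_eq_coe]
      linear_combination h3
  have hinf : OnePoint.infty ∈ B := by
    by_contra hnot
    have hm := card_mod_three ρ hρ3 B hBρ
    have he : B.filter (fun y => ρ y = y) = ∅ := by
      rw [Finset.filter_eq_empty_iff]
      intro y hy hfix
      induction y using OnePoint.rec with
      | infty => exact hnot hy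
      | coe y =>
        rw [hρc, OnePoint.coe_eq_coe] at hfix
        exact one_ne_zero (α := K) (by linear_combination hfix)
    rw [he, hD.1 B hB, Finset.card_empty] at hm
    norm_num at hm
  have hzero : ((0 : K) : OnePoint K) ∈ B := by
    by_contra hnot
    have he : B.filter (fun y => negP i hi y = y) = {OnePoint.infty} := by
      refine Finset.eq_singleton_iff_unique_mem.2 ⟨?_, ?_⟩
      · rw [Finset.mem_filter]
        exact ⟨hinf, negP_infty i hi⟩
      · intro y hy
        rw [Finset.mem_filter] at hy
        obtain ⟨hy1, hy2⟩ := hy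
        induction y using OnePoint.rec with
        | infty => rfl
        | coe y =>
          exfalso
          rw [negP_coe, OnePoint.coe_eq_coe] at hy2
          have : y = 0 := by
            have : (2 : K) * y = 0 := by linear_combination -hy2
            exact (mul_eq_zero.1 this).resolve_left h2
          rw [this] at hy1
          exact hnot hy1
    have ho := (odd_fixed B (negP i hi) (fun y hy => mem_of_inv hBn hy)
      (fun y _ => negP_negP i hi y)).2 (by rw [he, Finset.card_singleton]; exact odd_one)
    rw [hD.1 B hB] at ho
    exact absurd ho (by decide)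
  have hone : ((1 : K) : OnePoint K) ∈ B := by
    have := mem_of_inv hBρ hzero
    rwa [hρc, zero_add] at this
  have hmone : ((-1 : K) : OnePoint K) ∈ B := by
    have := mem_of_inv hBn hone
    rwa [negP_coe] at this
  have hsub : tenb x ⊆ B := by
    unfold tenb
    rw [Finset.insert_subset_iff, Finset.insert_subset_iff, Finset.insert_subset_iff,
      Finset.insert_subset_iff]
    exact ⟨hinf, hzero, hone, hmone, hSB⟩
  rw [Finset.eq_of_subset_of_card_le hsub (by rw [hc10, hD.1 B hB])]
  exact hB

end

/-- block size ten -/
theorem ten [Fintype K] {𝓑 : Finset (Finset (OnePoint K))} (hD : IsDesign 6 10 1 𝓑)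
    (hSL : ∀ A : SpecialLinearGroup (Fin 2) K, ∀ B ∈ 𝓑, B.image (slPerm A) ∈ 𝓑)
    (h3 : (3 : K) = 0) (i : K) (hi : i ^ 2 = -1) (hq : 10 ≤ Fintype.card K) : False := by
  classical
  have h2 : (2 : K) ≠ 0 := fun h => one_ne_zero (α := K) (by linear_combination h3 - h)
  obtain ⟨a, ha⟩ : ∃ a : K, a * (a - 1) * (a + 1) * (a ^ 2 + 1) * (a ^ 2 + a - 1) * (a ^ 2 - a - 1) ≠ 0 := by
    open Polynomial in
    let f : K[X] := X * (X - 1) * (X + 1) * (X ^ 2 + 1) * (X ^ 2 + X - 1) * (X ^ 2 - X - 1)
    have hd : f.natDegree = 9 := by
      simp only [f]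
      compute_degree!
    have hf : f ≠ 0 := by
      intro h
      rw [h] at hd
      simp at hd
    obtain ⟨a, ha⟩ := exists_nonroot f hf (by rw [hd]; omega)
    refine ⟨a, ?_⟩
    simpa [f] using ha
  have hα := left_ne_zero_of_mul ha
  have c3 := right_ne_zero_of_mul ha
  have c2 := right_ne_zero_of_mul hα
  have hβ := left_ne_zero_of_mul hα
  have c1 := right_ne_zero_of_mul hβ
  have hγ := left_ne_zero_of_mul hβ
  have ham := right_ne_zero_of_mul hγ
  have hδ := left_ne_zero_of_mul hγ
  have ha1 := right_ne_zero_of_mul hδ
  have ha0 := left_ne_zero_of_mul hδ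
  have hB := tenb_block a h3 ha0 (sub_ne_zero.1 ha1) (fun h => ham (by linear_combination h)) hD hSL
    i hi
  have hb0 := inv_ne_zero ha0
  have hb1 : a⁻¹ ≠ 1 := by
    intro h
    field_simp at h
    exact ha1 (by linear_combination -h)
  have hbm : a⁻¹ ≠ -1 := by
    intro h
    field_simp at h
    exact ham (by linear_combination h)
  have hB' := tenb_block a⁻¹ h3 hb0 hb1 hbm hD hSL i hi
  let S : Finset (OnePoint K) := {OnePoint.infty, ((0 : K) : OnePoint K), ((1 : K) : OnePoint K),
    ((-1 : K) : OnePoint K), (a : OnePoint K), ((-a : K) : OnePoint K)}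
  have hS : S.card = 6 := by
    rw [Finset.card_insert_of_notMem, Finset.card_insert_of_notMem, Finset.card_insert_of_notMem,
      Finset.card_insert_of_notMem, Finset.card_insert_of_notMem, Finset.card_singleton]
    · rw [Finset.mem_singleton, OnePoint.coe_eq_coe]
      intro h
      exact (mul_ne_zero h2 ha0) (by linear_combination h)
    · simp only [Finset.mem_insert, Finset.mem_singleton, OnePoint.coe_eq_coe, not_or]
      exact ⟨fun h => ham (by linear_combination -h), fun h => ha1 (by linear_combination h)⟩
    · simp only [Finset.mem_insert, Finset.mem_singleton, OnePoint.coe_eq_coe, not_or]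
      exact ⟨fun h => h2 (by linear_combination h), fun h => ha1 (by linear_combination -h),
        fun h => ham (by linear_combination h)⟩
    · simp only [Finset.mem_insert, Finset.mem_singleton, OnePoint.coe_eq_coe, not_or]
      exact ⟨zero_ne_one, fun h => one_ne_zero (α := K) (by linear_combination h), ha0.symm,
        (neg_ne_zero.2 ha0).symm⟩
    · simp
  have hSB : S ⊆ tenb a := by
    intro x hx
    simp only [S, Finset.mem_insert, Finset.mem_singleton] at hx
    simp only [tenb, hexb, Finset.mem_insert, Finset.mem_singleton]
    rcases hx with rfl | rfl | rfl | rfl | rfl | rfl <;> simp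
  have hSA : ∀ x ∈ S, slPerm (tauMat (0 : K) 1) x ∈ tenb a⁻¹ := by
    intro x hx
    change tau 0 1 x ∈ tenb a⁻¹
    simp only [S, Finset.mem_insert, Finset.mem_singleton] at hx
    simp only [tenb, hexb, Finset.mem_insert, Finset.mem_singleton]
    rcases hx with rfl | rfl | rfl | rfl | rfl | rfl
    · right; left
      rw [tau_infty]
    · left
      rw [tau_coe_self]
    · right; right; right; left
      rw [tau01_coe _ one_ne_zero, inv_one]
    · right; right; left
      rw [tau01_coe _ (neg_ne_zero.2 one_ne_zero), OnePoint.coe_eq_coe, inv_neg, inv_one, neg_neg]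
    · right; right; right; right; right; right; right; left
      rw [tau01_coe _ ha0]
    · right; right; right; right; left
      rw [tau01_coe _ (neg_ne_zero.2 ha0), OnePoint.coe_eq_coe, inv_neg, neg_neg]
  have hkey := image_block hD hSL (tauMat (0 : K) 1) hB hB' S hS hSB hSA ((a + 1 : K) : OnePoint K) (by
    simp [tenb, hexb])
  change tau 0 1 ((a + 1 : K) : OnePoint K) ∈ tenb a⁻¹ at hkey
  rw [tau01_coe _ ham] at hkey
  simp only [tenb, hexb, Finset.mem_insert, Finset.mem_singleton, OnePoint.coe_eq_coe] at hkey
  rcases hkey with h | h | h | h | h | h | h | h | h | h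
  · exact absurd h (OnePoint.coe_ne_infty _)
  · exact (neg_ne_zero.2 (inv_ne_zero ham)) h
  · field_simp at h
    exact ha1 (by linear_combination -h - h3)
  · field_simp at h
    exact ha0 (by linear_combination h)
  · field_simp at h
    exact ha1 (by linear_combination h + a * h3)
  · field_simp at h
    exact c1 (by linear_combination -h - a * h3)
  · field_simp at h
    exact c3 (by linear_combination h)
  · field_simp at h
    exact one_ne_zero (α := K) (by linear_combination h)
  · field_simp at h
    exact c2 (by linear_combination -h)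
  · field_simp at h
    have h8 : (a - 1) ^ 2 = 0 := by linear_combination h - a * h3
    exact ha1 (pow_eq_zero_iff two_ne_zero |>.1 h8)

end Pool.Agent.N86.S6
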